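import Pool.Agent.H865.TT.RG
import Pool.Graph.R_pool_sql_team_seeded_5cf16337.K3h75.TO.StmA

/-!
# Characters of a lattice with values in a commutative ring; logarithmic derivations
-/

set_option autoImplicit false

namespace Pool.Agent.H865.TT

open MvPolynomial Module Pool.Agent.K3h75.TO

/-- multiplicative maps from a lattice to a ring -/
structure IsChar {Λ B : Type} [AddCommGroup Λ] [CommRing B] (Y : Λ → B) : Prop where
  zero : Y 0 = 1
  add : ∀ a b, Y (a + b) = Y a * Y b

namespace IsChar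

variable {Λ B : Type} [AddCommGroup Λ] [CommRing B] {Y : Λ → B} (h : IsChar Y)

include h

theorem neg_mul (a : Λ) : Y (-a) * Y a = 1 := by
  rw [← h.add, neg_add_cancel, h.zero]

theorem isUnit (a : Λ) : IsUnit (Y a) := IsUnit.of_mul_eq_one (Y (-a)) (by
  rw [mul_comm]; exact h.neg_mul a)

theorem nsmul (n : ℕ) (a : Λ) : Y (n • a) = Y a ^ n := by
  induction n with
  | zero => rw [zero_smul, h.zero, pow_zero]
  | succ n ih => rw [succ_nsmul, h.add, ih, pow_succ]

theorem sum {ι : Type} (s : Finset ι) (f : ι → Λ) : Y (∑ i ∈ s, f i) = ∏ i ∈ s, Y (f i) := by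
  classical
  induction s using Finset.induction_on with
  | empty => rw [Finset.sum_empty, Finset.prod_empty, h.zero]
  | insert i s hi ih => rw [Finset.sum_insert hi, Finset.prod_insert hi, h.add, ih]

theorem zsmul_map {k : Type} [Field k] (ρ : k →+* B) {c : k} (hc : c ≠ 0) {a : Λ}
    (ha : Y a = ρ c) (d : ℤ) : Y (d • a) = ρ (c ^ d) := by
  cases d with
  | ofNat n =>
    rw [Int.ofNat_eq_natCast, natCast_zsmul, zpow_natCast, h.nsmul, ha, map_pow]
  | negSucc n =>
    rw [negSucc_zsmul, zpow_negSucc]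
    have h1 := h.neg_mul ((n + 1) • a)
    have h2 : ρ ((c ^ (n + 1))⁻¹) * ρ (c ^ (n + 1)) = 1 := by
      rw [← map_mul, inv_mul_cancel₀ (pow_ne_zero _ hc), map_one]
    have h3 : Y ((n + 1) • a) = ρ (c ^ (n + 1)) := by rw [h.nsmul, ha, map_pow]
    rw [h3] at h1
    calc Y (-((n + 1) • a)) = Y (-((n + 1) • a)) * (ρ ((c ^ (n + 1))⁻¹) * ρ (c ^ (n + 1))) := by
          rw [h2, mul_one]
      _ = (Y (-((n + 1) • a)) * ρ (c ^ (n + 1))) * ρ ((c ^ (n + 1))⁻¹) := by ring
      _ = _ := by rw [h1, one_mul]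

theorem pos {N : ℕ} (b : Basis (Fin N) ℤ Λ) {δ : Λ} (hδ : ∀ l, 0 ≤ b.repr δ l) :
    Y δ = ∏ l, Y (b l) ^ (ps b δ l) := by
  conv_lhs => rw [← b.sum_repr δ]
  rw [h.sum]
  refine Finset.prod_congr rfl fun l _ => ?_
  have h1 : b.repr δ l = ((ps b δ l : ℕ) : ℤ) := by
    show b.repr δ l = (((b.repr δ l).toNat : ℕ) : ℤ)
    rw [Int.toNat_of_nonneg (hδ l)]
  rw [h1, natCast_zsmul, h.nsmul]

end IsChar

section der

variable {R Λ : Type} [CommRing R] [AddCommGroup Λ] {N : ℕ} (b : Basis (Fin N) ℤ Λ)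

/-- the monomial of `δ` -/
noncomputable def mon (R : Type) [CommRing R] {Λ : Type} [AddCommGroup Λ] {N : ℕ}
    (b : Basis (Fin N) ℤ Λ) (δ : Λ) : MvPolynomial (Fin N) R := monomial (ps b δ) 1

/-- the value of a monomial -/
theorem eval_mon {B : Type} [CommRing B] (f : MvPolynomial (Fin N) R →+* B) {Y : Λ → B}
    (h : IsChar Y) (hf : ∀ l, f (X l) = Y (b l)) {δ : Λ} (hδ : ∀ l, 0 ≤ b.repr δ l) :
    f (mon R b δ) = Y δ := by
  have h1 : mon R b δ = ∏ l, (X l : MvPolynomial (Fin N) R) ^ (ps b δ l) := by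
    unfold mon
    rw [monomial_eq, C_1, one_mul, Finsupp.prod_fintype]
    intro i
    rw [pow_zero]
  rw [h1, map_prod, h.pos b hδ]
  refine Finset.prod_congr rfl fun l _ => ?_
  rw [map_pow, hf]

/-- the logarithmic derivation of a functional -/
noncomputable def ld (R : Type) [CommRing R] {Λ : Type} [AddCommGroup Λ] {N : ℕ}
    (b : Basis (Fin N) ℤ Λ) (φ : Λ →+ ℤ) :
    Derivation R (MvPolynomial (Fin N) R) (MvPolynomial (Fin N) R) :=
  mkDerivation R fun l => ((φ (b l) : ℤ) : MvPolynomial (Fin N) R) * X l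

theorem ld_mon (φ : Λ →+ ℤ) {δ : Λ} (hδ : ∀ l, 0 ≤ b.repr δ l) :
    ld R b φ (mon R b δ) = ((φ δ : ℤ) : MvPolynomial (Fin N) R) * mon R b δ := by
  unfold ld mon
  rw [mkDerivation_monomial, one_smul, Finsupp.sum_fintype _ _ (by intro i; simp)]
  have h1 : ∀ l : Fin N, (monomial (ps b δ - Finsupp.single l 1)) ((ps b δ l : ℕ) : R) •
      (((φ (b l) : ℤ) : MvPolynomial (Fin N) R) * X l) =
      (((b.repr δ l * φ (b l) : ℤ)) : MvPolynomial (Fin N) R) * monomial (ps b δ) 1 := by
    intro l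
    have h2 : b.repr δ l = ((ps b δ l : ℕ) : ℤ) := by
      show b.repr δ l = (((b.repr δ l).toNat : ℕ) : ℤ)
      rw [Int.toNat_of_nonneg (hδ l)]
    rw [h2, smul_eq_mul]
    by_cases h0 : ps b δ l = 0
    · rw [h0]
      simp
    · have h3 : (monomial (ps b δ - Finsupp.single l 1) ((ps b δ l : ℕ) : R) :
          MvPolynomial (Fin N) R) * X l = ((ps b δ l : ℕ) : MvPolynomial (Fin N) R) *
          monomial (ps b δ) 1 := by
        have h4 : ps b δ - Finsupp.single l 1 + Finsupp.single l 1 = ps b δ := by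
          ext i
          rw [Finsupp.add_apply, Finsupp.tsub_apply, Finsupp.single_apply]
          split_ifs with hi
          · subst hi
            omega
          · omega
        rw [X, monomial_mul, h4, mul_one]
        have h5 : ((ps b δ l : ℕ) : MvPolynomial (Fin N) R) = C ((ps b δ l : ℕ) : R) := by simp
        rw [h5, C_mul_monomial, mul_one]
      have h6 : (monomial (ps b δ - Finsupp.single l 1) ((ps b δ l : ℕ) : R) :
          MvPolynomial (Fin N) R) * (((φ (b l) : ℤ) : MvPolynomial (Fin N) R) * X l) =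
          ((φ (b l) : ℤ) : MvPolynomial (Fin N) R) *
            ((monomial (ps b δ - Finsupp.single l 1) ((ps b δ l : ℕ) : R)) * X l) := by ring
      rw [h6, h3]
      push_cast
      ring
  rw [Finset.sum_congr rfl fun l _ => h1 l, ← Finset.sum_mul]
  congr 1
  have h7 : φ δ = ∑ l, b.repr δ l * φ (b l) := by
    conv_lhs => rw [← b.sum_repr δ]
    rw [map_sum]
    refine Finset.sum_congr rfl fun l _ => ?_
    rw [map_zsmul, smul_eq_mul]
  rw [h7]
  push_cast
  rfl

/-- derivations map the square of an ideal to the ideal -/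
theorem der_sq {W : Type} [CommRing W] [Algebra R W] (d : Derivation R W W) (Q : Ideal W) {w : W}
    (hw : w ∈ Q ^ 2) : d w ∈ Q := by
  rw [pow_two] at hw
  refine Submodule.mul_induction_on hw ?_ ?_
  · intro x hx y hy
    rw [d.leibniz]
    exact Q.add_mem (Q.mul_mem_right _ hx) (Q.mul_mem_right _ hy)
  · intro x y hx hy
    rw [map_add]
    exact Q.add_mem hx hy

/-- a combination of elements of `Q` -/
theorem der_comb {W κ : Type} [CommRing W] [Algebra R W] (d : Derivation R W W) (Q : Ideal W)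
    (s : Finset κ) (c S : κ → W) (hS : ∀ i ∈ s, S i ∈ Q) (h : ∑ i ∈ s, c i * S i ∈ Q ^ 2) :
    ∑ i ∈ s, c i * d (S i) ∈ Q := by
  have h1 := der_sq d Q h
  rw [map_sum] at h1
  have h2 : ∑ i ∈ s, d (c i * S i) = ∑ i ∈ s, c i * d (S i) + ∑ i ∈ s, S i * d (c i) := by
    rw [← Finset.sum_add_distrib]
    refine Finset.sum_congr rfl fun i _ => ?_
    rw [d.leibniz]
    rfl
  rw [h2] at h1
  have h3 : ∑ i ∈ s, S i * d (c i) ∈ Q := Q.sum_mem fun i hi => Q.mul_mem_right _ (hS i hi)
  have h4 := Q.sub_mem h1 h3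
  rwa [add_sub_cancel_right] at h4

end der

end Pool.Agent.H865.TT
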