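import Pool.Agent.H865.TT.Ext

/-!
# The Galois stable module with regular charts
-/

set_option autoImplicit false
set_option linter.unusedSectionVars false

namespace Pool.Agent.H865.TT

open IsDedekindDomain Module Pool.Agent.H918R2.Quad

section fin

variable {G O k F : Type} [Group G] [Finite G] [CommRing O] [IsDedekindDomain O] [Field k]
  [Algebra O k] [IsFractionRing O k] [MulSemiringAction G O] [MulSemiringAction G k] [Field F]
  [Algebra k F] [Algebra O F] [IsScalarTower O k F] {n s : ℕ}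

theorem MonA.cc_supp {κ : Type} [Fintype κ] {ρ : G →* (F ≃+* F)} {y : κ → F}
    (D : MonA (k := k) G ρ y) {v : HeightOneSpectrum O}
    (hv : ∀ g i, vd v (D.c0 g i) = 0) (g : G) (a : κ → ℤ) : vd v (D.cc g a) = 0 := by
  unfold MonA.cc
  rw [vd_chr v (D.hc0 g)]
  exact Finset.sum_eq_zero fun i _ => by rw [hv, mul_zero]

/-- **The module.** -/
theorem exists_MM (hOk : ∀ (g : G) (a : O), algebraMap O k (g • a) = g • algebraMap O k a)
    (ρ : G →* (F ≃+* F)) (hρ : ∀ g c, ρ g (algebraMap k F c) = algebraMap k F (g • c))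
    (t : Fin n → F) (u : Fin s → F) (ht : ∀ g i, ρ g (t i) = t i)
    (hind : AlgebraicIndependent k (Sum.elim t u))
    (hmon : ∀ g j, ∃ y ∈ mgrp k t u, (y : F) = ρ g (u j)) :
    ∃ M : Submodule O F, M.FG ∧ (∀ g, ∀ z ∈ M, ρ g z ∈ M) ∧
      (∀ f ∈ M, f ≠ 0 → ∀ (q : Ideal (chart O M f)) [q.IsPrime],
        IsRegularLocalRing (Localization.AtPrime q)) ∧ (∃ z ∈ M, z ≠ 0) ∧
      ∀ (L : Subfield F) (f : F), (∀ c : k, algebraMap k F c ∈ L) → (∀ z ∈ M, z / f ∈ L) →
        f ≠ 0 → (∀ i, t i ∈ L) ∧ ∀ j, u j ∈ L := by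
  classical
  have hOkinj : Function.Injective (algebraMap O k) := IsFractionRing.injective O k
  obtain ⟨Ls, hLn, hLt, ⟨D⟩⟩ := exists_arr ρ hρ t u ht hind hmon
  set l : {v // v ∈ Ls} → Option (Fin n) → k := fun v => v with hl
  have hyv : ∀ i, yv l t u i ≠ 0 := D.hy
  -- the primes
  let T0 : Set (HeightOneSpectrum O) :=
    (⋃ g, ⋃ i, {v | vd v (D.c0 g i) ≠ 0}) ∪
      ⋃ β : Option (Fin n) → Option {v // v ∈ Ls},
        {v | vd v (Matrix.of fun a m => wfn l (β a) m).det ≠ 0}
  have hT0 : T0.Finite :=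
    (Set.finite_iUnion fun g => Set.finite_iUnion fun i => vd_support _).union
      (Set.finite_iUnion fun β => vd_support _)
  let T1 : Set (HeightOneSpectrum O) := ⋃ g : G, sv g '' T0
  have hT1 : T1.Finite := Set.finite_iUnion fun g => hT0.image _
  set T : Finset (HeightOneSpectrum O) := hT1.toFinset with hTdef
  have hTmem : ∀ v, v ∈ T ↔ v ∈ T1 := fun v => hT1.mem_toFinset
  have hT01 : ∀ v ∈ T0, v ∈ T := fun v hv =>
    (hTmem v).2 (Set.mem_iUnion.2 ⟨1, v, hv, sv_one v⟩)
  have hTst : ∀ (g : G), ∀ v ∈ T, sv g v ∈ T := by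
    intro g v hv
    obtain ⟨h, v', hv', rfl⟩ := Set.mem_iUnion.1 ((hTmem v).1 hv)
    exact (hTmem _).2 (Set.mem_iUnion.2 ⟨g * h, v', hv', sv_mul g h v'⟩)
  have hTc : ∀ v, v ∉ T → ∀ g a, vd v (D.cc g a) = 0 := by
    intro v hv g a
    refine D.cc_supp (fun g i => ?_) g a
    by_contra h
    exact hv (hT01 v (Or.inl (Set.mem_iUnion.2 ⟨g, Set.mem_iUnion.2 ⟨i, h⟩⟩)))
  have hdet : ∀ β : Option (Fin n) → Option {v // v ∈ Ls},
      (Matrix.of fun a m => wfn l (β a) m).det ≠ 0 →
      ∀ v : HeightOneSpectrum O, v ∉ T →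
        vd v (Matrix.of fun a m => wfn l (β a) m).det = 0 := by
    intro β _ v hv
    by_contra h
    exact hv (hT01 v (Or.inr (Set.mem_iUnion.2 ⟨β, h⟩)))
  have hfull : ∃ β : Option (Fin n) → Option {v // v ∈ Ls},
      (Matrix.of fun a m => wfn l (β a) m).det ≠ 0 := by
    refine ⟨fun a => a.elim none fun m => some ⟨_, hLt m⟩, ?_⟩
    have h1 : (Matrix.of fun a m => wfn l (a.elim none fun m => some ⟨_, hLt m⟩) m :
        Matrix (Option (Fin n)) (Option (Fin n)) k) = 1 := by
      ext a m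
      rw [Matrix.of_apply, Matrix.one_apply]
      cases a with
      | none =>
        show (Pi.single none 1 : Option (Fin n) → k) m = _
        rw [Pi.single_apply]
        simp [eq_comm]
      | some a =>
        show (Pi.single (some a) 1 : Option (Fin n) → k) m = _
        rw [Pi.single_apply]
        simp [eq_comm]
    rw [h1, Matrix.det_one]
    exact one_ne_zero
  set A := mkArr T s l hfull with hA
  -- the polytope
  let _ : DistribMulAction G (Lat {v // v ∈ Ls} s T) := D.latAct hOk T hTst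
  let H : Set (Lat {v // v ∈ Ls} s T) := Set.range A.ε ∪
    Set.range fun p : (Option (Fin n) → Option {v // v ∈ Ls}) × Option (Fin n) ×
      Option {v // v ∈ Ls} => A.dlt p.1 p.2.1 p.2.2
  have hH : H.Finite := (Set.finite_range _).union (Set.finite_range _)
  obtain ⟨P, hP⟩ := exists_cpoly G (Lat {v // v ∈ Ls} s T) H hH
  have hPv : ∀ μ ∈ P, ∃ v ∈ P,
      (∃ s : Multiset (Lat {v // v ∈ Ls} s T), (∀ κ ∈ s, κ ∈ P) ∧
        (s.card + 1) • μ = v + s.sum) ∧
      ∃ (N : ℕ) (b : Basis (Fin N) ℤ (Lat {v // v ∈ Ls} s T)), (∀ i, v + b i ∈ P) ∧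
        (∀ κ ∈ P, ∀ i, 0 ≤ b.repr (κ - v) i) ∧ A.Comp b := by
    intro μ hμ
    obtain ⟨v, hv, hs, N, b, h1, h2, h3⟩ := hP.vx μ hμ
    exact ⟨v, hv, hs, N, b, h1, h2, ⟨fun q => h3 _ (Or.inl ⟨q, rfl⟩),
      fun β a i => h3 _ (Or.inr ⟨(β, a, i), rfl⟩)⟩⟩
  -- nonzero elements of the fractional ideals
  have hfid : ∀ e : {v : HeightOneSpectrum O // v ∈ T} → ℤ, ∃ c ∈ fid k (ex0 T e), c ≠ 0 := by
    intro e
    obtain ⟨y, hy, hyT⟩ := approx (k := k) (ex0_fin T e).toFinset (ex0 T e) (⊥ : Ideal O)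
      fun v _ => v.ne_bot
    have hy0 : algebraMap O k y ≠ 0 := by
      intro h
      exact hy (by rw [hOkinj (h.trans (map_zero _).symm)]; exact Ideal.zero_mem _)
    refine ⟨algebraMap O k y, (mem_fid hy0).2 fun v => ?_, hy0⟩
    by_cases h0 : ex0 T e v = 0
    · rw [h0]
      exact vd_nonneg v y hy0
    · exact hyT v ((ex0_fin T e).mem_toFinset.2 h0)
  refine ⟨MM k T (yv l t u) P, MM_fg T _ P, ?_, ?_, ?_, ?_⟩
  · -- stability
    intro g z hz
    have key : ∀ z ∈ MM k T (yv l t u) P, ρ g z ∈ MM k T (yv l t u) P := by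
      intro z hz
      unfold MM at hz
      induction hz using Submodule.span_induction with
      | mem z hz =>
        obtain ⟨κ, hκ, c, hc, rfl⟩ := hz
        rw [map_mul, hρ, D.eq, ← mul_assoc, ← map_mul]
        have h1 : (g • κ).1 = D.act g κ.1 := rfl
        rw [← h1]
        apply mem_MM T (hP.st g κ hκ)
        by_cases hc0 : c = 0
        · rw [hc0, smul_zero, zero_mul]
          exact Submodule.zero_mem _
        · have hgc0 : g • c ≠ 0 := (smul_ne_zero_iff_ne g).2 hc0
          rw [mem_fid (mul_ne_zero hgc0 (D.cc_ne _ _))]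
          intro v
          rw [vd_mul v hgc0 (D.cc_ne _ _)]
          have h2 : vd v (g • c) = vd (sv g⁻¹ v) c := by
            have h3 := vd_smul hOk g (sv g⁻¹ v) c
            rwa [← sv_mul, mul_inv_cancel, sv_one] at h3
          have h3 := (mem_fid hc0).1 hc (sv g⁻¹ v)
          rw [h2]
          by_cases hv : v ∈ T
          · rw [ex0_of_mem T _ v hv]
            show ex0 T κ.2 (sv g⁻¹ v) + vd v (D.cc g κ.1) ≤ _
            linarith
          · rw [ex0_of_notMem T _ v hv, hTc v hv]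
            have h4 : sv g⁻¹ v ∉ T := by
              intro h4
              have h5 := hTst g _ h4
              rw [← sv_mul, mul_inv_cancel, sv_one] at h5
              exact hv h5
            rw [ex0_of_notMem T _ _ h4] at h3
            linarith
      | zero => rw [map_zero]; exact Submodule.zero_mem _
      | add x y _ _ hx hy => rw [map_add]; exact Submodule.add_mem _ hx hy
      | smul r x _ hx =>
        rw [Algebra.smul_def, map_mul, IsScalarTower.algebraMap_apply O k F, hρ, ← hOk,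
          ← IsScalarTower.algebraMap_apply, ← Algebra.smul_def]
        exact Submodule.smul_mem _ _ hx
    exact key z hz
  · intro f hfM hf0 q hq
    exact MM_reg T l hfull hdet t u hind hyv P hPv (q.comap (algebraMap O _)) f hfM hf0 q rfl
  · obtain ⟨κ, hκ⟩ := hP.ne
    obtain ⟨c, hc, hc0⟩ := hfid κ.2
    exact ⟨_, mem_MM T hκ hc, mul_ne_zero (by rwa [Ne, map_eq_zero]) (chr_ne_zero hyv _)⟩
  · intro L f hkL hML hf0
    have h1 : ∀ κ ∈ P, chr (yv l t u) κ.1 / f ∈ L := by
      intro κ hκ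
      obtain ⟨c, hc, hc0⟩ := hfid κ.2
      have h2 := hML _ (mem_MM (y := yv l t u) T hκ hc)
      have h3 : chr (yv l t u) κ.1 / f =
          algebraMap k F c⁻¹ * (algebraMap k F c * chr (yv l t u) κ.1 / f) := by
        have hcF : algebraMap k F c ≠ 0 := by rwa [Ne, map_eq_zero]
        rw [map_inv₀]
        field_simp
      rw [h3]
      exact L.mul_mem (hkL _) h2
    obtain ⟨μ, hμ⟩ := hP.ne
    obtain ⟨v, hv, -, N, b, hb1, -, -⟩ := hPv μ hμ
    have h2 : ∀ i, chr (yv l t u) (b i).1 ∈ L := by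
      intro i
      have h3 : chr (yv l t u) (b i).1 =
          (chr (yv l t u) (v + b i).1 / f) / (chr (yv l t u) v.1 / f) := by
        have h4 : (v + b i).1 = v.1 + (b i).1 := rfl
        rw [h4, chr_add hyv]
        have := chr_ne_zero hyv v.1
        field_simp
      rw [h3]
      exact L.div_mem (h1 _ (hb1 i)) (h1 _ hv)
    have h3 : ∀ κ : Lat {v // v ∈ Ls} s T, chr (yv l t u) κ.1 ∈ L := by
      intro κ
      have h4 : κ.1 = ∑ i, b.repr κ i • (b i).1 := by
        conv_lhs => rw [← b.sum_repr κ]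
        rw [Prod.fst_sum]
        rfl
      rw [h4, chr_sum hyv]
      refine Subfield.prod_mem L fun i _ => ?_
      rw [chr_zsmul]
      exact L.zpow_mem (h2 i) _
    have h4 : ∀ i, yv l t u i ∈ L := by
      intro i
      have h5 := h3 (Pi.single i 1, 0)
      rwa [chr_single] at h5
    refine ⟨fun m => ?_, fun j => h4 (Sum.inr j)⟩
    have h5 := h4 (Sum.inl ⟨_, hLt m⟩)
    have h6 : yv l t u (Sum.inl ⟨_, hLt m⟩) = t m := by
      show val t (Pi.single (some m) (1 : k)) = t m
      unfold val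
      rw [Pi.single_eq_of_ne (by simp), map_zero, zero_add, Finset.sum_eq_single m]
      · rw [Pi.single_eq_same, map_one, one_mul]
      · intro m' _ hm
        rw [Pi.single_eq_of_ne (fun h => hm (Option.some_injective _ h)), map_zero, zero_mul]
      · intro h
        exact absurd (Finset.mem_univ _) h
    rwa [h6] at h5

end fin

end Pool.Agent.H865.TT
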