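import Pool.Graph.R_seed8.H945R2.E.REGQ
import Pool.Graph.R_seed8.H945R2.E.PIN

/-!
# Regularity of a local subring from independent relations which generate the kernel up to powers
of a nonzero element
-/

set_option autoImplicit false

namespace Pool.Agent.H865.TT

open Pool.Agent.H918R2.Quad

theorem RG {W F : Type} [CommRing W] [IsRegularRing W] [Field F] (𝒪 : Subring F)
    (hloc : IsLoc 𝒪) (e : W →+* F) (he : ∀ w, e w ∈ 𝒪)
    (hfrac : ∀ x ∈ 𝒪, ∃ a b : W, U 𝒪 (e b) ∧ x = e a / e b)
    (n : ℕ) (S : Fin n → W) (hS : ∀ i, e (S i) = 0)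
    (hind : ∀ c : Fin n → W, ∑ i, c i * S i ∈ (primeOf hloc e he) ^ 2 →
      ∀ i, c i ∈ primeOf hloc e he)
    (t : W) (ht : e t ≠ 0)
    (hker : ∀ w, e w = 0 → ∃ N : ℕ, t ^ N * w ∈ Ideal.span (Set.range S)) :
    IsRegularLocalRing 𝒪 := by
  classical
  set J : Ideal W := Ideal.span (Set.range S) with hJ
  have hJe : ∀ w ∈ J, e w = 0 := by
    intro w hw
    have : J ≤ RingHom.ker e := by
      rw [hJ, Ideal.span_le]
      rintro _ ⟨i, rfl⟩
      exact hS i
    exact this hw
  let eb : W ⧸ J →+* F := Ideal.Quotient.lift J e hJe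
  have heb : ∀ w, eb (Ideal.Quotient.mk J w) = e w := fun w => Ideal.Quotient.lift_mk _ _ _
  have hebO : ∀ a, eb a ∈ 𝒪 := by
    intro a
    obtain ⟨w, rfl⟩ := Ideal.Quotient.mk_surjective a
    rw [heb]
    exact he w
  set q : Ideal (W ⧸ J) := primeOf hloc eb hebO with hq
  have hcomap : q.comap (Ideal.Quotient.mk J) = primeOf hloc e he := by
    ext w
    rw [Ideal.mem_comap, mem_primeOf, mem_primeOf, heb]
  have hreg : IsRegularLocalRing (Localization.AtPrime q) := by
    refine Pool.Agent.H945R2.E.REGQ_ok (Ideal.Quotient.mk J) Ideal.Quotient.mk_surjective n S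
      (Ideal.mk_ker) q ?_
    rw [hcomap]
    exact hind
  have hdom : IsDomain (Localization.AtPrime q) := regular_isDomain _
  have hqU : ∀ b : q.primeCompl, U 𝒪 (eb b) := fun b =>
    by_contra fun h => b.2 ((mem_primeOf hloc eb hebO b).2 h)
  have hne : ∀ b : q.primeCompl, IsUnit (eb b) := fun b => IsUnit.mk0 _ (hqU b).1
  let ψ : Localization.AtPrime q →+* F := IsLocalization.lift (M := q.primeCompl) (g := eb) hne
  have hψ : ∀ (a : W ⧸ J) (b : q.primeCompl), ψ (IsLocalization.mk' _ a b) = eb a / eb b := by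
    intro a b
    rw [IsLocalization.lift_mk'_spec, mul_div_cancel₀]
    exact (hne b).ne_zero
  have hψa : ∀ a : W ⧸ J, ψ (algebraMap _ _ a) = eb a := fun a => IsLocalization.lift_eq _ a
  have hψinj : Function.Injective ψ := by
    rw [injective_iff_map_eq_zero]
    intro x hx
    obtain ⟨a, b, rfl⟩ := IsLocalization.exists_mk'_eq q.primeCompl x
    rw [hψ, div_eq_zero_iff] at hx
    have h1 : eb a = 0 := hx.resolve_right (hne b).ne_zero
    obtain ⟨w, rfl⟩ := Ideal.Quotient.mk_surjective a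
    rw [heb] at h1
    obtain ⟨N, hN⟩ := hker w h1
    have h2 : (algebraMap (W ⧸ J) (Localization.AtPrime q) (Ideal.Quotient.mk J t)) ^ N *
        algebraMap (W ⧸ J) (Localization.AtPrime q) (Ideal.Quotient.mk J w) = 0 := by
      rw [← map_pow, ← map_mul, ← map_pow, ← map_mul, Ideal.Quotient.eq_zero_iff_mem.2 hN, map_zero]
    have h3 : algebraMap (W ⧸ J) (Localization.AtPrime q) (Ideal.Quotient.mk J t) ≠ 0 := by
      intro h
      have h4 := hψa (Ideal.Quotient.mk J t)
      rw [h, map_zero, heb] at h4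
      exact ht h4.symm
    rcases mul_eq_zero.1 h2 with h4 | h4
    · exact absurd h4 (pow_ne_zero _ h3)
    · rw [IsLocalization.mk'_eq_mul_mk'_one, h4, zero_mul]
  have hrange : ψ.range = 𝒪 := by
    ext x
    constructor
    · rintro ⟨y, rfl⟩
      obtain ⟨a, b, rfl⟩ := IsLocalization.exists_mk'_eq q.primeCompl y
      rw [hψ, div_eq_mul_inv]
      exact 𝒪.mul_mem (hebO a) (hqU b).2.2
    · intro hx
      obtain ⟨a, b, hb, rfl⟩ := hfrac x hx
      have h1 : Ideal.Quotient.mk J b ∈ q.primeCompl := by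
        intro h2
        have h3 := (mem_primeOf hloc eb hebO _).1 h2
        rw [heb] at h3
        exact h3 hb
      refine ⟨IsLocalization.mk' _ (Ideal.Quotient.mk J a) (⟨_, h1⟩ : q.primeCompl), ?_⟩
      rw [hψ, heb, heb]
  have h1 : IsRegularLocalRing ψ.range :=
    IsRegularLocalRing.of_ringEquiv (RingEquiv.ofBijective ψ.rangeRestrict
      ⟨fun x y h => hψinj (congrArg Subtype.val h), ψ.rangeRestrict_surjective⟩)
  rw [hrange] at h1
  exact h1

end Pool.Agent.H865.TT
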