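import Pool.Agent.H865.TT.Ker2

/-!
# Arrangements of linear forms: the kernel at a vertex, part 3
-/

set_option autoImplicit false
set_option linter.unusedSectionVars false

namespace Pool.Agent.H865.TT

open MvPolynomial Module Pool.Agent.K3h75.TO Pool.Agent.H918R2.Quad

theorem exists_quot_loc {W : Type} [CommRing W] (J : Ideal W) (τ : W) :
    ∃ (L : Type) (_ : CommRing L) (can : W →+* L), (∀ y ∈ J, can y = 0) ∧
      (∀ y, can y = 0 → ∃ m : ℕ, τ ^ m * y ∈ J) ∧ IsUnit (can τ) := by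
  refine ⟨Localization.Away (Ideal.Quotient.mk J τ), inferInstance,
    (algebraMap (W ⧸ J) (Localization.Away (Ideal.Quotient.mk J τ))).comp (Ideal.Quotient.mk J),
    ?_, ?_, ?_⟩
  · intro y hy
    rw [RingHom.comp_apply, Ideal.Quotient.eq_zero_iff_mem.2 hy, map_zero]
  · intro y hy
    have h1 : algebraMap (W ⧸ J) (Localization.Away (Ideal.Quotient.mk J τ))
        (Ideal.Quotient.mk J y) =
        algebraMap (W ⧸ J) (Localization.Away (Ideal.Quotient.mk J τ)) 0 := by
      rw [map_zero]; exact hy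
    obtain ⟨⟨_, m, rfl⟩, hm⟩ :=
      (IsLocalization.eq_iff_exists (Submonoid.powers (Ideal.Quotient.mk J τ)) _).1 h1
    refine ⟨m, ?_⟩
    rw [← Ideal.Quotient.eq_zero_iff_mem, map_mul, map_pow]
    simpa using hm
  · exact IsLocalization.Away.algebraMap_isUnit
      (S := Localization.Away (Ideal.Quotient.mk J τ)) (Ideal.Quotient.mk J τ)

section ker

variable {k : Type} [Field k] {n s : ℕ} {ι 𝔖 Λ : Type} [AddCommGroup Λ] [Fintype 𝔖]
  (A : Arr k n s ι 𝔖 Λ) {R F : Type} [CommRing R] [IsDomain R] [Algebra R k]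
  [IsFractionRing R k] [Field F] [Algebra R F] [Algebra k F] [IsScalarTower R k F]

/-- The kernel at a vertex is generated by the relations, up to powers of the product of the
variables and of the uniformizer. -/
theorem Arr.ker [Fintype ι] {t : Fin n → F} {u : Fin s → F} {Y : Λ → F} {ϖ : 𝔖 → R} {c₀ : R}
    (h : LocD A t u Y ϖ c₀) {N : ℕ} (b : Basis (Fin N) ℤ Λ)
    {β : Option (Fin n) → ι} (hβ : (A.mat β).det ≠ 0)
    (hdl : ∀ a i, A.cf β (A.w i) a ≠ 0 → ∀ l, 0 ≤ b.repr (A.dlt β a i) l)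
    {uu : ι → Option (Fin n) → R} (huu : A.IsUU β ϖ uu) {sg : 𝔖 → ℤ} (hsg : A.IsSg b ϖ sg)
    (x : MvPolynomial (Fin N) R) (hx : aeval (fun l => Y (b l)) x = 0) :
    ∃ m : ℕ, ((∏ l, X l) * C c₀) ^ m * x ∈ Ideal.span (Set.range (A.rel b β uu ϖ sg)) := by
  classical
  obtain ⟨L, _, can, hcanJ, hcan0, hτu⟩ :=
    exists_quot_loc (Ideal.span (Set.range (A.rel b β uu ϖ sg))) ((∏ l, X l) * C c₀)
  rw [map_mul, map_prod] at hτu
  have hcu : IsUnit (can (C c₀)) := isUnit_of_mul_isUnit_right hτu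
  have hXu : ∀ l, IsUnit (can (X l)) := by
    intro l
    have h1 := isUnit_of_mul_isUnit_left hτu
    rw [IsUnit.prod_iff] at h1
    exact h1 l (Finset.mem_univ l)
  have hRu : ∀ r : nonZeroDivisors R, IsUnit ((can.comp C) r) := by
    intro r
    obtain ⟨M, d, hd⟩ := h.cdiv r (nonZeroDivisors.ne_zero r.2)
    have h1 : IsUnit (can (C (c₀ ^ M))) := by rw [C_pow, map_pow]; exact hcu.pow M
    rw [hd, C_mul, map_mul] at h1
    exact isUnit_of_mul_isUnit_left h1
  let ρ : k →+* L := IsLocalization.lift (M := nonZeroDivisors R) (g := can.comp C) hRu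
  have hρ : ∀ r, can (C r) = ρ (algebraMap R k r) := fun r =>
    (IsLocalization.lift_eq (M := nonZeroDivisors R) (g := can.comp C) hRu r).symm
  -- the character of the localization
  let yu : Fin N → Lˣ := fun l => (hXu l).unit
  let y : Λ → L := fun κ => ((∏ l, (yu l) ^ (b.repr κ l) : Lˣ) : L)
  have hy : IsChar y := by
    constructor
    · show ((∏ l, (yu l) ^ (b.repr 0 l) : Lˣ) : L) = 1
      simp
    · intro κ κ'
      show ((∏ l, (yu l) ^ (b.repr (κ + κ') l) : Lˣ) : L) =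
        ((∏ l, (yu l) ^ (b.repr κ l) : Lˣ) : L) * ((∏ l, (yu l) ^ (b.repr κ' l) : Lˣ) : L)
      rw [← Units.val_mul, ← Finset.prod_mul_distrib]
      congr 1
      refine Finset.prod_congr rfl fun l _ => ?_
      rw [map_add, Finsupp.add_apply, zpow_add]
  have hyb : ∀ l, can (X l) = y (b l) := by
    intro l
    show can (X l) = ((∏ l', (yu l') ^ (b.repr (b l) l') : Lˣ) : L)
    rw [Finset.prod_eq_single l]
    · rw [b.repr_self, Finsupp.single_eq_same, zpow_one]
      rfl
    · intro l' _ hl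
      rw [b.repr_self, Finsupp.single_eq_of_ne hl, zpow_zero]
    · intro hh
      exact absurd (Finset.mem_univ l) hh
  have hRk : Function.Injective (algebraMap R k) := IsFractionRing.injective R k
  have hϖ0 : ∀ q, ϖ q ≠ 0 := by
    intro q
    rcases h.ϖ1 q with h1 | ⟨_, h1⟩
    · rw [h1]; exact one_ne_zero
    · exact h1.ne_zero
  have hϖ : ∀ q, algebraMap R k (ϖ q) ≠ 0 := fun q h1 =>
    hϖ0 q (hRk (by rw [h1, map_zero]))
  have hyε : ∀ q, y (A.ε q) = ρ (algebraMap R k (ϖ q)) := by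
    intro q
    have h1 : A.rG b ϖ sg q ∈ Ideal.span (Set.range (A.rel b β uu ϖ sg)) :=
      Ideal.subset_span ⟨Sum.inr q, rfl⟩
    have h2 := hcanJ _ h1
    unfold Arr.rG at h2
    rw [map_sub, sub_eq_zero, eval_mon b can hy hyb (hsg q).2, hρ] at h2
    rcases (hsg q).1 with h3 | ⟨h3, h4⟩
    · rwa [h3, one_zsmul] at h2
    · rw [h3, neg_one_zsmul, h4, map_one, map_one] at h2
      have h5 := hy.neg_mul (A.ε q)
      rw [h2, one_mul] at h5
      rw [h5, h4, map_one, map_one]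
  have hrel : ∀ i, i ∉ Set.range β → y (A.ω i) = ∑ a, ρ (A.cf β (A.w i) a) * y (A.ω (β a)) := by
    intro i hi
    have h1 : A.rF b β uu i ∈ Ideal.span (Set.range (A.rel b β uu ϖ sg)) :=
      Ideal.subset_span ⟨Sum.inl ⟨i, hi⟩, rfl⟩
    have h2 := A.char_rF hy ρ hϖ hyε b hdl huu can hρ hyb i
    rw [hcanJ _ h1, zero_mul] at h2
    exact (sub_eq_zero.1 h2.symm)
  exact hcan0 x (A.compare ρ hy hβ hrel h hyε hϖ b can hρ hyb x hx)

end ker

end Pool.Agent.H865.TT
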