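import Pool.Graph.R_seed8.R383.TM.NumF
import Pool.Graph.R_seed8.Y223.G.AllW
import Pool.Graph.R_seed8.Y223.G.AllP
import Pool.Graph.R_seed8.Y901.G.Wreg
import Pool.Graph.R_pool_sql_team_seeded_5cf16337.K3h21.TO.Num
import Pool.Agent.H865.TT.Fin

/-!
# Torsors of tori over complements of hyperplane arrangements over number fields
-/

set_option autoImplicit false
set_option linter.unusedSectionVars false

open AlgebraicGeometry CategoryTheory CategoryTheory.Limits NumberField

namespace Pool.Agent.H865.TT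

open Module Pool.Agent.H918R2.Quad Pool.Agent.Y223.G Pool.Agent.R383.TM

/-- No wild elements if the orders of the inertia groups are prime to the residue characteristic. -/
theorem not_isW {E M : Type} [Field E] [NumberField E] [Field M] [NumberField M] [Algebra E M]
    (hin : ∀ 𝔓 : Ideal (𝓞 M), 𝔓.IsMaximal → ∀ p : ℕ, p.Prime → (p : 𝓞 M) ∈ 𝔓 →
      ¬ p ∣ Nat.card (inert E 𝔓))
    (𝔓 : Ideal (𝓞 M)) (h𝔓 : 𝔓.IsMaximal) (g : M ≃ₐ[E] M) : ¬ IsW E 𝔓 g := by
  intro hg
  obtain ⟨hg1, hgw⟩ := (Pool.Agent.K3h75.TO.Num.isW_iff 𝔓 g).1 hg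
  have hI : ∀ o, TT E M g o - o ∈ 𝔓 := hgw.1
  have h0 : 𝔓 ≠ ⊥ := by
    intro h
    apply hg1
    apply TT_faithful
    intro o
    have := hI o
    rw [h, Ideal.mem_bot, sub_eq_zero] at this
    exact this
  obtain ⟨p, hp, hp𝔓⟩ := exists_resChar 𝔓 h𝔓 h0
  have h1 := hin 𝔓 h𝔓 p hp hp𝔓
  rcases winert_card all_TAMC 𝔓 h𝔓 h0 hp hp𝔓
    (fun h => h1 ((dvd_pow_self p two_ne_zero).trans h)) with h2 | h2
  · have h3 : winert E 𝔓 = ⊥ := Subgroup.card_eq_one.1 h2
    rw [h3, Subgroup.mem_bot] at hgw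
    exact hg1 hgw
  · apply h1
    rw [← h2]
    exact Subgroup.card_dvd_of_le (winert_le 𝔓)

theorem main {E M F K : Type} [Field E] [NumberField E] [Field M] [NumberField M] [Algebra E M]
    [IsGalois E M] [Field F] [Algebra E F] [Field K] [Algebra M K] [Algebra E K]
    [IsScalarTower E M K] [Algebra F K] [IsScalarTower E F K]
    (hin : ∀ 𝔓 : Ideal (𝓞 M), 𝔓.IsMaximal → ∀ p : ℕ, p.Prime → (p : 𝓞 M) ∈ 𝔓 →
      ¬ p ∣ Nat.card (inert E 𝔓))
    (ρ : (M ≃ₐ[E] M) →* (K ≃ₐ[E] K))
    (hρ : ∀ g c, ρ g (algebraMap M K c) = algebraMap M K (g c))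
    (hfix : ∀ x, (∀ g, ρ g x = x) ↔ ∃ y : F, algebraMap F K y = x)
    {n s : ℕ} (t : Fin n → K) (u : Fin s → K) (ht : ∀ g i, ρ g (t i) = t i)
    (hind : AlgebraicIndependent M (Sum.elim t u))
    (hgen : IntermediateField.adjoin M (Set.range (Sum.elim t u)) = ⊤)
    (hmon : ∀ g j, ∃ y ∈ mgrp M t u, (y : K) = ρ g (u j)) {Y : Type} [Field Y] (i : Y ≃+* F) :
    ∃ (X' : Scheme.{0}) (_ : IsIntegral X') (g : X' ⟶ Spec (CommRingCat.of ℤ)),
      IsProper g ∧
      (∀ x : X',
        (((Module.finrank (IsLocalRing.ResidueField (X'.presheaf.stalk x))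
            (IsLocalRing.CotangentSpace (X'.presheaf.stalk x)) : ℕ∞)) : WithBot ℕ∞)
          = ringKrullDim (X'.presheaf.stalk x)) ∧
      Nonempty (X'.functionField ≃+* Y) := by
  classical
  let ρ' : (M ≃ₐ[E] M) →* (K ≃+* K) :=
    { toFun := fun g => (ρ g).toRingEquiv
      map_one' := by
        ext x
        show ρ 1 x = x
        rw [map_one]
        rfl
      map_mul' := fun g h => by
        ext x
        show ρ (g * h) x = ρ g (ρ h x)
        rw [map_mul]
        rfl }
  have hρ'a : ∀ g x, ρ' g x = ρ g x := fun g x => rfl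
  obtain ⟨MM, hFG, hst, hreg, ⟨z₀, hz₀, hz₀0⟩, hL⟩ := exists_MM (G := M ≃ₐ[E] M) (O := 𝓞 M)
    (k := M) (F := K) (fun g a => rfl) ρ' hρ t u ht hind hmon
  obtain ⟨S, hS⟩ := hFG
  -- the nonzero generators
  let S' : Finset K := S.filter fun x => x ≠ 0
  have hS' : Submodule.span (𝓞 M) (S' : Set K) = MM := by
    rw [← hS]
    apply le_antisymm
    · exact Submodule.span_mono fun x hx => (Finset.mem_filter.1 hx).1
    · rw [Submodule.span_le]
      intro x hx
      by_cases h0 : x = 0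
      · rw [h0]
        exact Submodule.zero_mem _
      · exact Submodule.subset_span (Finset.mem_filter.2 ⟨hx, h0⟩)
  have hS'ne : S'.card ≠ 0 := by
    intro h
    rw [Finset.card_eq_zero] at h
    rw [h, Finset.coe_empty, Submodule.span_empty] at hS'
    rw [← hS', Submodule.mem_bot] at hz₀
    exact hz₀0 hz₀
  obtain ⟨m, hm⟩ := Nat.exists_eq_succ_of_ne_zero hS'ne
  let e : Fin (m + 1) ≃ S' := (finCongr hm.symm).trans S'.equivFin.symm
  let z : Fin (m + 1) → K := fun j => e j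
  have hzr : Set.range z = (S' : Set K) := by
    ext x
    constructor
    · rintro ⟨j, rfl⟩
      exact (e j).2
    · intro hx
      exact ⟨e.symm ⟨x, hx⟩, by
        show ((e (e.symm ⟨x, hx⟩) : S') : K) = x
        rw [Equiv.apply_symm_apply]⟩
  have hz : ∀ j, z j ≠ 0 := fun j => (Finset.mem_filter.1 (e j).2).2
  have hspan : Submodule.span (𝓞 M) (Set.range z) = MM := by rw [hzr, hS']
  have hzM : ∀ j, z j ∈ MM := fun j => by
    rw [← hspan]
    exact Submodule.subset_span ⟨j, rfl⟩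
  have hchart : ∀ j, chart (𝓞 M) MM (z j) = Algebra.adjoin (𝓞 M) (Set.range fun i => z i / z j) := by
    intro j
    apply le_antisymm
    · unfold chart
      rw [Algebra.adjoin_le_iff]
      rintro _ ⟨x, hx, rfl⟩
      rw [← hspan] at hx
      induction hx using Submodule.span_induction with
      | mem x hx =>
        obtain ⟨i, rfl⟩ := hx
        exact Algebra.subset_adjoin ⟨i, rfl⟩
      | zero => rw [zero_div]; exact Subalgebra.zero_mem _
      | add x y _ _ hx hy => rw [add_div]; exact Subalgebra.add_mem _ hx hy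
      | smul r x _ hx => rw [smul_div_assoc]; exact Subalgebra.smul_mem _ hx r
    · rw [Algebra.adjoin_le_iff]
      rintro _ ⟨i, rfl⟩
      exact Algebra.subset_adjoin ⟨z i, hzM i, rfl⟩
  have hgen' : IntermediateField.adjoin M (Set.range fun j => z j / z 0) = ⊤ := by
    rw [eq_top_iff, ← hgen, IntermediateField.adjoin_le_iff]
    set L := IntermediateField.adjoin M (Set.range fun j => z j / z 0) with hLdef
    have h1 : ∀ x ∈ MM, x / z 0 ∈ L.toSubfield := by
      intro x hx
      rw [← hspan] at hx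
      induction hx using Submodule.span_induction with
      | mem x hx =>
        obtain ⟨i, rfl⟩ := hx
        exact IntermediateField.subset_adjoin M _ ⟨i, rfl⟩
      | zero => rw [zero_div]; exact L.toSubfield.zero_mem
      | add x y _ _ hx hy => rw [add_div]; exact L.toSubfield.add_mem hx hy
      | smul r x _ hx =>
        rw [Algebra.smul_def, mul_div_assoc, IsScalarTower.algebraMap_apply (𝓞 M) M K]
        exact L.toSubfield.mul_mem (L.algebraMap_mem _) hx
    obtain ⟨h2, h3⟩ := hL L.toSubfield (z 0) (fun c => L.algebraMap_mem c) h1 (hz 0)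
    rintro _ ⟨a | b, rfl⟩
    · exact h2 a
    · exact h3 b
  have hlin : ∀ g j, ρ g (z j) ∈ Submodule.span (𝓞 M) (Set.range z) := by
    intro g j
    rw [hspan]
    exact hst g _ (hzM j)
  have hrg : ∀ j, IsRegularRing (Algebra.adjoin (𝓞 M) (Set.range fun i => z i / z j)) := by
    intro j
    rw [← hchart]
    have hN : IsNoetherianRing (chart (𝓞 M) MM (z j)) := by
      rw [hchart]
      have h1 : (Algebra.adjoin (𝓞 M) (Set.range fun i => z i / z j)).FG :=
        ⟨Set.toFinset (Set.range fun i => z i / z j), by rw [Set.coe_toFinset]⟩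
      have h2 : Algebra.FiniteType (𝓞 M)
          (Algebra.adjoin (𝓞 M) (Set.range fun i => z i / z j)) :=
        (Subalgebra.fg_iff_finiteType _).1 h1
      exact Algebra.FiniteType.isNoetherianRing (𝓞 M) _
    exact ⟨fun q hq => hreg (z j) (hzM j) (hz j) q⟩
  have hW : WWD E M F K ρ z := by
    refine wwd_of all_TAMC ρ hρ hfix (fun 𝔓 h𝔓 p hp hp𝔓 h => hin 𝔓 h𝔓 p hp hp𝔓
      ((dvd_pow_self p two_ne_zero).trans h)) z hz hgen' hlin hrg (fun _ => 1) (fun _ _ => 0) ?_
    exact ⟨fun _ => Nat.one_pos, fun 𝔓 g h𝔓 hg => absurd hg (not_isW hin 𝔓 h𝔓 g),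
      fun 𝔓 g h𝔓 hg => absurd hg (not_isW hin 𝔓 h𝔓 g),
      fun 𝔓 g h𝔓 hg => absurd hg (not_isW hin 𝔓 h𝔓 g)⟩
  exact tm_model_F all_LINW all_CHW all_RWB Pool.Agent.Y614.H.RegL.t_REGL hW i

end Pool.Agent.H865.TT
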