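import Pool.Agent.H865.TT.Val

/-!
# Group actions on a Dedekind domain and valuations
-/

set_option autoImplicit false
set_option linter.unusedSectionVars false

namespace Pool.Agent.H865.TT

open IsDedekindDomain

section val

variable {G O k : Type} [Group G] [CommRing O] [IsDedekindDomain O] [Field k] [Algebra O k]
  [IsFractionRing O k] [MulSemiringAction G O] [MulSemiringAction G k]

/-- the image of a prime -/
def sv (g : G) (v : HeightOneSpectrum O) : HeightOneSpectrum O where
  asIdeal := v.asIdeal.comap (MulSemiringAction.toRingHom G O g⁻¹)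
  isPrime := Ideal.IsPrime.comap _
  ne_bot := by
    intro h
    obtain ⟨x, hx, hx0⟩ := Submodule.exists_mem_ne_zero_of_ne_bot v.ne_bot
    have h1 : g • x ∈ v.asIdeal.comap (MulSemiringAction.toRingHom G O g⁻¹) := by
      rw [Ideal.mem_comap]
      show g⁻¹ • g • x ∈ v.asIdeal
      rw [inv_smul_smul]
      exact hx
    rw [h, Ideal.mem_bot] at h1
    apply hx0
    rw [← inv_smul_smul g x, h1, smul_zero]

theorem mem_sv (g : G) (v : HeightOneSpectrum O) (x : O) :
    x ∈ (sv g v).asIdeal ↔ g⁻¹ • x ∈ v.asIdeal := Iff.rfl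

theorem sv_one (v : HeightOneSpectrum O) : sv (1 : G) v = v := by
  apply HeightOneSpectrum.ext
  ext x
  rw [mem_sv, inv_one, one_smul]

theorem sv_mul (g h : G) (v : HeightOneSpectrum O) : sv (g * h) v = sv g (sv h v) := by
  apply HeightOneSpectrum.ext
  ext x
  rw [mem_sv, mem_sv, mem_sv, mul_inv_rev, mul_smul]

theorem smul_mem_pow (g : G) (v : HeightOneSpectrum O) (n : ℕ) {a : O}
    (ha : a ∈ v.asIdeal ^ n) : g • a ∈ (sv g v).asIdeal ^ n := by
  have h1 : (v.asIdeal ^ n).map (MulSemiringAction.toRingHom G O g) ≤ (sv g v).asIdeal ^ n := by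
    rw [Ideal.map_pow]
    apply Ideal.pow_right_mono
    rw [Ideal.map_le_iff_le_comap]
    intro x hx
    rw [Ideal.mem_comap]
    show g • x ∈ (sv g v).asIdeal
    rw [mem_sv, inv_smul_smul]
    exact hx
  exact h1 (Ideal.mem_map_of_mem _ ha)

theorem natCast_le_vd (v : HeightOneSpectrum O) (n : ℕ) (a : O) (ha : algebraMap O k a ≠ 0) :
    (n : ℤ) ≤ vd v (algebraMap O k a) ↔ a ∈ v.asIdeal ^ n := by
  rw [le_vd_iff v ha, ← v.intValuation_le_pow_iff_mem]
  rw [show v.valuation k (algebraMap O k a) = v.intValuation a from v.valuation_of_algebraMap a]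

variable (hOk : ∀ (g : G) (a : O), algebraMap O k (g • a) = g • algebraMap O k a)

include hOk in
theorem vd_smul (g : G) (v : HeightOneSpectrum O) (c : k) : vd (sv g v) (g • c) = vd v c := by
  have hinj : Function.Injective (algebraMap O k) := IsFractionRing.injective O k
  have key : ∀ (g : G) (v : HeightOneSpectrum O) (a : O), algebraMap O k a ≠ 0 →
      vd v (algebraMap O k a) ≤ vd (sv g v) (g • algebraMap O k a) := by
    intro g v a ha
    have h0 : algebraMap O k (g • a) ≠ 0 := by
      rw [hOk]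
      exact (smul_ne_zero_iff_ne g).2 ha
    obtain ⟨m, hm⟩ := Int.eq_ofNat_of_zero_le (vd_nonneg v a ha)
    have h1 : a ∈ v.asIdeal ^ m := (natCast_le_vd v m a ha).1 hm.ge
    rw [hm, ← hOk]
    exact (natCast_le_vd _ m _ h0).2 (smul_mem_pow g v m h1)
  have key2 : ∀ (a : O), algebraMap O k a ≠ 0 →
      vd (sv g v) (g • algebraMap O k a) = vd v (algebraMap O k a) := by
    intro a ha
    apply le_antisymm _ (key g v a ha)
    have h0 : algebraMap O k (g • a) ≠ 0 := by
      rw [hOk]
      exact (smul_ne_zero_iff_ne g).2 ha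
    have h1 := key g⁻¹ (sv g v) (g • a) h0
    rw [← sv_mul, inv_mul_cancel, sv_one, hOk, inv_smul_smul] at h1
    exact h1
  by_cases hc : c = 0
  · rw [hc, smul_zero]
    simp [vd]
  obtain ⟨a, b, hb, rfl⟩ := IsFractionRing.div_surjective (A := O) c
  have hb0 : algebraMap O k b ≠ 0 := fun h =>
    nonZeroDivisors.ne_zero hb (hinj (by rw [h, map_zero]))
  have ha0 : algebraMap O k a ≠ 0 := fun h => hc (by rw [h, zero_div])
  have h1 : g • (algebraMap O k a / algebraMap O k b) =
      (g • algebraMap O k a) * (g • algebraMap O k b)⁻¹ := by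
    rw [div_eq_mul_inv, smul_mul', smul_inv'']
  rw [h1, vd_mul _ ((smul_ne_zero_iff_ne g).2 ha0) (inv_ne_zero ((smul_ne_zero_iff_ne g).2 hb0)),
    vd_inv, key2 a ha0, key2 b hb0, div_eq_mul_inv, vd_mul _ ha0 (inv_ne_zero hb0), vd_inv]

end val

end Pool.Agent.H865.TT
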