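import Pool.Agent.H865.TT.Glo4
import Pool.Agent.H865.TT.Val2

/-!
# The action of the group on the lattice
-/

set_option autoImplicit false
set_option linter.unusedSectionVars false

namespace Pool.Agent.H865.TT

open IsDedekindDomain Module

section chr

variable {κ F : Type} [Fintype κ] [Field F]

theorem chr_nsmul (y : κ → F) (n : ℕ) (a : κ → ℤ) : chr y (n • a) = chr y a ^ n := by
  unfold chr
  rw [← Finset.prod_pow]
  refine Finset.prod_congr rfl fun i _ => ?_
  rw [Pi.smul_apply, nsmul_eq_mul, mul_comm, zpow_mul, zpow_natCast]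

theorem chr_neg (y : κ → F) (a : κ → ℤ) : chr y (-a) = (chr y a)⁻¹ := by
  unfold chr
  rw [← Finset.prod_inv_distrib]
  refine Finset.prod_congr rfl fun i _ => ?_
  rw [Pi.neg_apply, zpow_neg]

theorem chr_zsmul (y : κ → F) (z : ℤ) (a : κ → ℤ) : chr y (z • a) = chr y a ^ z := by
  cases z with
  | ofNat n => rw [Int.ofNat_eq_natCast, natCast_zsmul, zpow_natCast, chr_nsmul]
  | negSucc n => rw [negSucc_zsmul, zpow_negSucc, chr_neg, chr_nsmul]

theorem chr_sum {ι : Type} {y : κ → F} (hy : ∀ i, y i ≠ 0) (s : Finset ι) (f : ι → κ → ℤ) :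
    chr y (∑ i ∈ s, f i) = ∏ i ∈ s, chr y (f i) := by
  classical
  induction s using Finset.induction_on with
  | empty => rw [Finset.sum_empty, Finset.prod_empty, chr_zero]
  | insert i s hi ih => rw [Finset.sum_insert hi, Finset.prod_insert hi, chr_add hy, ih]

end chr

section act

variable {G O k F κ : Type} [Group G] [CommRing O] [IsDedekindDomain O] [Field k] [Algebra O k]
  [IsFractionRing O k] [MulSemiringAction G O] [MulSemiringAction G k] [Field F] [Algebra k F]
  [Fintype κ]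

/-- The data of a monomial action up to constants. -/
structure MonA (G : Type) {k F κ : Type} [Group G] [Field k] [MulSemiringAction G k] [Field F]
    [Algebra k F] [Fintype κ] (ρ : G →* (F ≃+* F)) (y : κ → F) where
  hρ : ∀ g c, ρ g (algebraMap k F c) = algebraMap k F (g • c)
  hy : ∀ i, y i ≠ 0
  uq : ∀ (a : κ → ℤ) (c : k), c ≠ 0 → chr y a = algebraMap k F c → a = 0
  c0 : G → κ → k
  A0 : G → κ → κ → ℤ
  hc0 : ∀ g i, c0 g i ≠ 0
  hA0 : ∀ g i, ρ g (y i) = algebraMap k F (c0 g i) * chr y (A0 g i)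

variable {ρ : G →* (F ≃+* F)} {y : κ → F} (D : MonA (k := k) G ρ y)

/-- the action on the exponents -/
def MonA.act (g : G) (a : κ → ℤ) : κ → ℤ := ∑ i, a i • D.A0 g i

/-- the cocycle -/
noncomputable def MonA.cc (g : G) (a : κ → ℤ) : k := chr (D.c0 g) a

theorem MonA.cc_ne (g : G) (a : κ → ℤ) : D.cc g a ≠ 0 := chr_ne_zero (D.hc0 g) a

theorem MonA.eq (g : G) (a : κ → ℤ) :
    ρ g (chr y a) = algebraMap k F (D.cc g a) * chr y (D.act g a) := by
  have h1 : ρ g (chr y a) = ∏ i, (ρ g (y i)) ^ a i := by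
    unfold chr
    rw [map_prod]
    exact Finset.prod_congr rfl fun i _ => map_zpow₀ _ _ _
  have h2 : algebraMap k F (D.cc g a) = ∏ i, (algebraMap k F (D.c0 g i)) ^ a i := by
    unfold MonA.cc
    rw [chr_map]
    rfl
  have h3 : chr y (D.act g a) = ∏ i, (chr y (D.A0 g i)) ^ a i := by
    unfold MonA.act
    rw [chr_sum D.hy]
    exact Finset.prod_congr rfl fun i _ => chr_zsmul _ _ _
  rw [h1, h2, h3, ← Finset.prod_mul_distrib]
  refine Finset.prod_congr rfl fun i _ => ?_
  rw [D.hA0, mul_zpow]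

include D in
theorem MonA.uniq {c c' : k} {a a' : κ → ℤ} (hc : c ≠ 0) (hc' : c' ≠ 0)
    (h : algebraMap k F c * chr y a = algebraMap k F c' * chr y a') : a = a' ∧ c = c' := by
  have hF : Function.Injective (algebraMap k F) := (algebraMap k F).injective
  have hne := chr_ne_zero D.hy a'
  have hcF : algebraMap k F c ≠ 0 := fun h0 => hc (hF (by rw [h0, map_zero]))
  have h1 : chr y (a - a') = algebraMap k F (c' * c⁻¹) := by
    rw [sub_eq_add_neg, chr_add D.hy, chr_neg, map_mul, map_inv₀]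
    field_simp
    rw [mul_comm (algebraMap k F c), mul_comm (algebraMap k F c')] at h
    exact h
  have h2 := D.uq _ _ (mul_ne_zero hc' (inv_ne_zero hc)) h1
  have h3 : a = a' := sub_eq_zero.1 h2
  refine ⟨h3, hF ?_⟩
  rw [h3] at h
  exact mul_right_cancel₀ hne h

theorem MonA.act_mul (g h : G) (a : κ → ℤ) : D.act (g * h) a = D.act g (D.act h a) ∧
    D.cc (g * h) a = (g • D.cc h a) * D.cc g (D.act h a) := by
  apply D.uniq (D.cc_ne _ _) (mul_ne_zero ((smul_ne_zero_iff_ne g).2 (D.cc_ne _ _)) (D.cc_ne _ _))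
  rw [← D.eq, map_mul, map_mul]
  show ρ g (ρ h (chr y a)) = _
  rw [D.eq h, map_mul, D.hρ, D.eq g]
  ring

theorem MonA.act_one (a : κ → ℤ) : D.act 1 a = a ∧ D.cc 1 a = 1 := by
  apply D.uniq (D.cc_ne _ _) one_ne_zero
  rw [← D.eq, map_one, map_one, one_mul]
  rfl

theorem MonA.act_add (g : G) (a b : κ → ℤ) : D.act g (a + b) = D.act g a + D.act g b := by
  unfold MonA.act
  rw [← Finset.sum_add_distrib]
  exact Finset.sum_congr rfl fun i _ => by rw [Pi.add_apply, add_smul]

theorem MonA.act_zero (g : G) : D.act g 0 = 0 := by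
  unfold MonA.act
  simp

theorem MonA.cc_add (g : G) (a b : κ → ℤ) : D.cc g (a + b) = D.cc g a * D.cc g b :=
  chr_add (D.hc0 g) a b

theorem MonA.cc_zero (g : G) : D.cc g 0 = 1 := chr_zero _

variable (hOk : ∀ (g : G) (a : O), algebraMap O k (g • a) = g • algebraMap O k a)
  (T : Finset (HeightOneSpectrum O)) (hT : ∀ (g : G), ∀ v ∈ T, sv g v ∈ T)

theorem ex0_add (e e' : {v : HeightOneSpectrum O // v ∈ T} → ℤ) (v : HeightOneSpectrum O) :
    ex0 T (e + e') v = ex0 T e v + ex0 T e' v := by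
  unfold ex0
  split_ifs
  · rfl
  · rfl

theorem ex0_zero (v : HeightOneSpectrum O) :
    ex0 T (0 : {v : HeightOneSpectrum O // v ∈ T} → ℤ) v = 0 := by
  unfold ex0
  split_ifs <;> rfl

theorem ex0_of_mem (e : {v : HeightOneSpectrum O // v ∈ T} → ℤ) (v : HeightOneSpectrum O)
    (hv : v ∈ T) : ex0 T e v = e ⟨v, hv⟩ := dif_pos hv

theorem ex0_of_notMem (e : {v : HeightOneSpectrum O // v ∈ T} → ℤ) (v : HeightOneSpectrum O)
    (hv : v ∉ T) : ex0 T e v = 0 := dif_neg hv

include hOk hT in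
/-- the twisted action on the lattice -/
@[reducible] noncomputable def MonA.latAct :
    DistribMulAction G ((κ → ℤ) × ({v : HeightOneSpectrum O // v ∈ T} → ℤ)) where
  smul g x := (D.act g x.1, fun q : {v : HeightOneSpectrum O // v ∈ T} =>
      ex0 T x.2 (sv g⁻¹ (q : HeightOneSpectrum O)) +
    vd (q : HeightOneSpectrum O) (D.cc g x.1))
  one_smul x := by
    show (D.act 1 x.1, fun q : {v : HeightOneSpectrum O // v ∈ T} =>
      ex0 T x.2 (sv (1 : G)⁻¹ (q : HeightOneSpectrum O)) +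
      vd (q : HeightOneSpectrum O) (D.cc 1 x.1)) = x
    ext q
    · rw [(D.act_one x.1).1]
    · show ex0 T x.2 (sv (1 : G)⁻¹ (q : HeightOneSpectrum O)) + vd (q : HeightOneSpectrum O) (D.cc 1 x.1) = x.2 q
      rw [(D.act_one x.1).2, inv_one, sv_one, vd_one, add_zero, ex0_of_mem T _ _ q.2]
  mul_smul g h x := by
    show (D.act (g * h) x.1, fun q : {v : HeightOneSpectrum O // v ∈ T} =>
      ex0 T x.2 (sv (g * h)⁻¹ (q : HeightOneSpectrum O)) +
      vd (q : HeightOneSpectrum O) (D.cc (g * h) x.1)) =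
      (D.act g (D.act h x.1), fun q : {v : HeightOneSpectrum O // v ∈ T} =>
      ex0 T (fun q' : {v : HeightOneSpectrum O // v ∈ T} =>
        ex0 T x.2 (sv h⁻¹ (q' : HeightOneSpectrum O)) +
        vd (q' : HeightOneSpectrum O) (D.cc h x.1)) (sv g⁻¹ (q : HeightOneSpectrum O)) +
        vd (q : HeightOneSpectrum O) (D.cc g (D.act h x.1)))
    obtain ⟨h1, h2⟩ := D.act_mul g h x.1
    ext q
    · rw [h1]
    · show ex0 T x.2 (sv (g * h)⁻¹ (q : HeightOneSpectrum O)) + vd (q : HeightOneSpectrum O) (D.cc (g * h) x.1) =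
        ex0 T (fun q' : {v : HeightOneSpectrum O // v ∈ T} =>
          ex0 T x.2 (sv h⁻¹ (q' : HeightOneSpectrum O)) +
        vd (q' : HeightOneSpectrum O) (D.cc h x.1)) (sv g⁻¹ (q : HeightOneSpectrum O)) +
        vd (q : HeightOneSpectrum O) (D.cc g (D.act h x.1))
      have h3 : sv g⁻¹ (q : HeightOneSpectrum O) ∈ T := hT g⁻¹ q q.2
      rw [ex0_of_mem T _ _ h3, h2,
        vd_mul _ ((smul_ne_zero_iff_ne g).2 (D.cc_ne _ _)) (D.cc_ne _ _)]
      have h4 : vd (q : HeightOneSpectrum O) (g • D.cc h x.1) =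
          vd (sv g⁻¹ (q : HeightOneSpectrum O)) (D.cc h x.1) := by
        have h5 := vd_smul hOk g (sv g⁻¹ (q : HeightOneSpectrum O)) (D.cc h x.1)
        rwa [← sv_mul, mul_inv_cancel, sv_one] at h5
      rw [h4, mul_inv_rev, sv_mul]
      ring
  smul_zero g := by
    show (D.act g 0, fun q : {v : HeightOneSpectrum O // v ∈ T} =>
      ex0 T 0 (sv g⁻¹ (q : HeightOneSpectrum O)) +
      vd (q : HeightOneSpectrum O) (D.cc g 0)) = 0
    ext q
    · rw [D.act_zero]
      rfl
    · show ex0 T 0 (sv g⁻¹ (q : HeightOneSpectrum O)) + vd (q : HeightOneSpectrum O) (D.cc g 0) = 0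
      rw [D.cc_zero, vd_one, ex0_zero, add_zero]
  smul_add g x y := by
    show (D.act g (x.1 + y.1), fun q : {v : HeightOneSpectrum O // v ∈ T} =>
      ex0 T (x.2 + y.2) (sv g⁻¹ (q : HeightOneSpectrum O)) +
      vd (q : HeightOneSpectrum O) (D.cc g (x.1 + y.1))) =
      (D.act g x.1, fun q : {v : HeightOneSpectrum O // v ∈ T} =>
      ex0 T x.2 (sv g⁻¹ (q : HeightOneSpectrum O)) +
        vd (q : HeightOneSpectrum O) (D.cc g x.1)) +
      (D.act g y.1, fun q : {v : HeightOneSpectrum O // v ∈ T} =>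
      ex0 T y.2 (sv g⁻¹ (q : HeightOneSpectrum O)) +
        vd (q : HeightOneSpectrum O) (D.cc g y.1))
    ext q
    · rw [D.act_add]
      rfl
    · show ex0 T (x.2 + y.2) (sv g⁻¹ (q : HeightOneSpectrum O)) + vd (q : HeightOneSpectrum O) (D.cc g (x.1 + y.1)) =
        (ex0 T x.2 (sv g⁻¹ (q : HeightOneSpectrum O)) + vd (q : HeightOneSpectrum O) (D.cc g x.1)) +
        (ex0 T y.2 (sv g⁻¹ (q : HeightOneSpectrum O)) + vd (q : HeightOneSpectrum O) (D.cc g y.1))
      rw [D.cc_add, vd_mul _ (D.cc_ne _ _) (D.cc_ne _ _), ex0_add]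
      ring

end act

end Pool.Agent.H865.TT
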