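import Pool.Agent.H865.TT.Exc
import Pool.Graph.R_pool_sql_team_seeded_5cf16337.K3h21.TO.Exd

/-!
# Compatible fans, part 4: the polytope (after `K3h21.TO.Exd`)
-/

set_option autoImplicit false

namespace Pool.Agent.H865.TT

open Module Pool.Agent.K3h75.TO Pool.Agent.K3h75.TO.Exd

theorem exD (G N Λ : Type) [AddCommGroup N] [Module.Free ℤ N] [Module.Finite ℤ N]
    [AddCommGroup Λ] [Group G] [Finite G] [DistribMulAction G N] [DistribMulAction G Λ]
    (B : N →+ Λ →+ ℤ) (hG : ∀ (g : G) u a, B (g • u) (g • a) = B u a)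
    (hB : ∀ f : N →+ ℤ, ∃! a : Λ, ∀ u, B u a = f u)
    (φ : N → ℚ) (S : Finset (Finset N)) (c : N → ℕ) (hD : DatG G φ S c)
    (hU : ∀ σ ∈ S, AddSubgroup.closure (σ : Set N) = ⊤) :
    ∃ P : Finset Λ, P.Nonempty ∧ (∀ (g : G), ∀ μ ∈ P, g • μ ∈ P) ∧ ∀ μ ∈ P, ∃ v ∈ P,
      (∃ s : Multiset Λ, (∀ κ ∈ s, κ ∈ P) ∧ (s.card + 1) • μ = v + s.sum) ∧
      ∃ (n : ℕ) (b : Basis (Fin n) ℤ Λ), (∀ i, v + b i ∈ P) ∧
        (∀ κ ∈ P, ∀ i, 0 ≤ b.repr (κ - v) i) ∧
        ∃ σ ∈ S, ∀ i, ∃ u ∈ σ, ∀ a, b.repr a i = B u a := by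
  classical
  -- scaling
  let T : Finset N := S.biUnion id
  let D : ℕ := ∏ u ∈ T, (φ u).den
  have hDpos : (0 : ℚ) < D := by
    have : 0 < D := Finset.prod_pos (fun u _ => (φ u).den_pos)
    exact_mod_cast this
  let ψ : N → ℤ := fun u => ((D : ℚ) * φ u).num
  have hψ : ∀ σ ∈ S, ∀ u ∈ σ, ((ψ u : ℤ) : ℚ) = D * φ u := by
    intro σ hσ u hu
    have huT : u ∈ T := Finset.mem_biUnion.2 ⟨σ, hσ, hu⟩
    obtain ⟨m, hm⟩ := Finset.dvd_prod_of_mem (fun u => (φ u).den) huT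
    have hDm : (D : ℚ) = (φ u).den * m := by
      have : D = (φ u).den * m := hm
      rw [this]; push_cast; ring
    have : (D : ℚ) * φ u = (((m : ℤ) * (φ u).num : ℤ) : ℚ) := by
      rw [hDm]
      have h2 := Rat.den_mul_eq_num (φ u)
      push_cast
      linear_combination (m : ℚ) * h2
    show ((((D : ℚ) * φ u).num : ℤ) : ℚ) = D * φ u
    rw [this, Rat.num_intCast]
  have hex : ∀ σ ∈ S, ∀ h : N → ℤ, ∃ a : Λ, ∀ u ∈ σ, B u a = h u := fun σ hσ h =>
    exists_unique_val B hB (hD.ind σ hσ) (hU σ hσ) h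
  have hext : ∀ σ ∈ S, ∀ a a' : Λ, (∀ u ∈ σ, B u a = B u a') → a = a' := fun σ hσ a a' h =>
    ext_val B hB (hU σ hσ) h
  -- vertices
  have hV : ∀ σ : Finset N, ∃ V : Λ, σ ∈ S → ∀ u ∈ σ, B u V = ψ u := by
    intro σ
    by_cases hσ : σ ∈ S
    · obtain ⟨V, h⟩ := hex σ hσ ψ
      exact ⟨V, fun _ => h⟩
    · exact ⟨0, fun h => absurd h hσ⟩
  choose V hV using hV
  have hE : ∀ (σ : Finset N) (u : N), ∃ b : Λ, σ ∈ S → ∀ w ∈ σ, B w b = if w = u then 1 else 0 := by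
    intro σ u
    by_cases hσ : σ ∈ S
    · obtain ⟨V, h⟩ := hex σ hσ (fun w => if w = u then 1 else 0)
      exact ⟨V, fun _ => h⟩
    · exact ⟨0, fun h => absurd h hσ⟩
  choose E hE using hE
  -- inequalities
  have hcvx : ∀ σ ∈ S, ∀ σ' ∈ S, ∀ u ∈ σ', ψ u ≤ B u (V σ) ∧ (u ∉ σ → ψ u < B u (V σ)) := by
    intro σ hσ σ' hσ' u hu
    obtain ⟨v, hv1, hv2⟩ := hD.cvx σ hσ
    have key : ((Int.castAddHom ℚ).comp (AddMonoidHom.flip B (V σ)))
        = (AddMonoidHom.mulLeft (D : ℚ)).comp v := by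
      refine hom_ext_of_closure (hU σ hσ) (fun w hw => ?_)
      show ((B w (V σ) : ℤ) : ℚ) = D * v w
      rw [hV σ hσ w hw, hψ σ hσ w hw, hv1 w hw]
    have hBu : ((B u (V σ) : ℤ) : ℚ) = D * v u := DFunLike.congr_fun key u
    by_cases hus : u ∈ σ
    · exact ⟨le_of_eq (hV σ hσ u hus).symm, fun h => absurd hus h⟩
    · have h1 := hv2 σ' hσ' u hu hus
      have h2 : ((ψ u : ℤ) : ℚ) < ((B u (V σ) : ℤ) : ℚ) := by
        rw [hψ σ' hσ' u hu, hBu]
        exact mul_lt_mul_of_pos_left h1 hDpos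
      have h3 : ψ u < B u (V σ) := by exact_mod_cast h2
      exact ⟨h3.le, fun _ => h3⟩
  -- neighbours
  have hnb : ∀ σ ∈ S, ∀ u ∈ σ, ∃ s ∈ S, ∃ k : ℕ,
      ((k + 1 : ℕ)) • (V σ + E σ u) = V s + k • V σ := by
    intro σ hσ u hu
    obtain ⟨s, hs, hus, hsub⟩ := hD.adj σ hσ u hu
    have h1 := (hcvx s hs σ hσ u hu).2 hus
    obtain ⟨k, hk⟩ : ∃ k : ℕ, B u (V s) - ψ u = k + 1 := by
      obtain ⟨k, hk⟩ := Int.eq_ofNat_of_zero_le (a := B u (V s) - ψ u - 1) (by omega)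
      exact ⟨k, by omega⟩
    refine ⟨s, hs, k, ?_⟩
    refine hext σ hσ _ _ (fun w hw => ?_)
    rw [map_nsmul, map_add, map_add, map_nsmul, hE σ u hσ w hw, hV σ hσ w hw]
    by_cases hwu : w = u
    · subst hwu
      simp only [if_true, nsmul_eq_mul]
      push_cast
      linarith
    · rw [if_neg hwu, hV s hs w (hsub w hw hwu)]
      simp only [nsmul_eq_mul]
      push_cast
      ring
  -- the polytope
  let P : Finset Λ := S.biUnion (fun σ => insert (V σ) (σ.image (fun u => V σ + E σ u)))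
  have hmemV : ∀ σ ∈ S, V σ ∈ P := fun σ hσ =>
    Finset.mem_biUnion.2 ⟨σ, hσ, Finset.mem_insert_self _ _⟩
  have hmemE : ∀ σ ∈ S, ∀ u ∈ σ, V σ + E σ u ∈ P := fun σ hσ u hu =>
    Finset.mem_biUnion.2 ⟨σ, hσ, Finset.mem_insert_of_mem (Finset.mem_image.2 ⟨u, hu, rfl⟩)⟩
  have hmem : ∀ μ ∈ P, ∃ σ ∈ S, μ = V σ ∨ ∃ u ∈ σ, μ = V σ + E σ u := by
    intro μ hμ
    obtain ⟨σ, hσ, h⟩ := Finset.mem_biUnion.1 hμ
    refine ⟨σ, hσ, ?_⟩
    rcases Finset.mem_insert.1 h with h | h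
    · exact Or.inl h
    · obtain ⟨u, hu, rfl⟩ := Finset.mem_image.1 h
      exact Or.inr ⟨u, hu, rfl⟩
  -- all points are in the polytope
  have hge : ∀ κ ∈ P, ∀ σ ∈ S, ∀ u ∈ σ, ψ u ≤ B u κ := by
    intro κ hκ σ hσ u hu
    obtain ⟨σ', hσ', h | ⟨u', hu', h⟩⟩ := hmem κ hκ
    · rw [h]; exact (hcvx σ' hσ' σ hσ u hu).1
    · obtain ⟨s, hs, k, hk⟩ := hnb σ' hσ' u' hu'
      rw [← h] at hk
      have h1 := congrArg (B u) hk
      rw [map_nsmul, map_add, map_nsmul] at h1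
      simp only [nsmul_eq_mul] at h1
      push_cast at h1
      have h2 := (hcvx σ' hσ' σ hσ u hu).1
      have h3 := (hcvx s hs σ hσ u hu).1
      have h4 : ((k : ℤ) + 1) * ψ u ≤ ((k : ℤ) + 1) * B u κ := by
        rw [h1]
        have : (k : ℤ) * ψ u ≤ (k : ℤ) * B u (V σ') :=
          mul_le_mul_of_nonneg_left h2 (by positivity)
        linarith
      exact le_of_mul_le_mul_left h4 (by positivity)
  -- local condition at vertices
  have hloc : ∀ σ ∈ S, ∃ (n : ℕ) (b : Basis (Fin n) ℤ Λ), (∀ i, V σ + b i ∈ P) ∧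
      (∀ κ ∈ P, ∀ i, 0 ≤ b.repr (κ - V σ) i) ∧
      ∃ σ ∈ S, ∀ i, ∃ u ∈ σ, ∀ a, b.repr a i = B u a := by
    intro σ hσ
    obtain ⟨n, e, b, hb⟩ := exists_dual_basis B hB (hD.ind σ hσ) (hU σ hσ)
    refine ⟨n, b, fun i => ?_, fun κ hκ i => ?_, σ, hσ, fun i => ⟨e i, (e i).2, fun a => hb a i⟩⟩
    · have : b i = E σ (e i) := by
        refine hext σ hσ _ _ (fun w hw => ?_)
        rw [hE σ _ hσ w hw]
        have h1 := hb (b i) (e.symm ⟨w, hw⟩)
        rw [Equiv.apply_symm_apply, Basis.repr_self] at h1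
        rw [← h1, Finsupp.single_apply]
        by_cases hwe : w = e i
        · rw [if_pos hwe, if_pos]
          rw [Equiv.eq_symm_apply]
          exact Subtype.ext hwe.symm
        · rw [if_neg hwe, if_neg]
          intro h
          rw [Equiv.eq_symm_apply] at h
          exact hwe (by rw [h])
      rw [this]
      exact hmemE σ hσ _ (e i).2
    · rw [hb, map_sub, hV σ hσ _ (e i).2]
      have := hge κ hκ σ hσ _ (e i).2
      linarith
  refine ⟨P, ?_, ?_, ?_⟩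
  · obtain ⟨σ, hσ⟩ := hD.ne
    exact ⟨V σ, hmemV σ hσ⟩
  rotate_left
  · intro μ hμ
    obtain ⟨σ, hσ, h | ⟨u, hu, h⟩⟩ := hmem μ hμ
    · refine ⟨V σ, hmemV σ hσ, ⟨0, by simp, ?_⟩, hloc σ hσ⟩
      simp [h]
    · obtain ⟨s, hs, k, hk⟩ := hnb σ hσ u hu
      rw [← h] at hk
      refine ⟨V s, hmemV s hs, ⟨Multiset.replicate k (V σ), ?_, ?_⟩, hloc s hs⟩
      · intro κ hκ
        rw [Multiset.eq_of_mem_replicate hκ]
        exact hmemV σ hσ
      · rw [Multiset.card_replicate, Multiset.sum_replicate]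
        exact hk
  · intro g μ hμ
    obtain ⟨σ, hσ, h⟩ := hmem μ hμ
    obtain ⟨σ', hσ', hw⟩ := hD.st g σ hσ
    have hψg : ∀ w ∈ σ', ψ (g⁻¹ • w) = ψ w := by
      intro w hw'
      have h1 := hD.φ_st g σ hσ (g⁻¹ • w) ((hw w).1 hw')
      rw [smul_inv_smul] at h1
      show ((D : ℚ) * φ (g⁻¹ • w)).num = ((D : ℚ) * φ w).num
      rw [h1]
    have hVg : g • V σ = V σ' := by
      refine hext σ' hσ' _ _ (fun w hw' => ?_)
      rw [hV σ' hσ' w hw']
      have h1 := hG g (g⁻¹ • w) (V σ)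
      rw [smul_inv_smul] at h1
      rw [h1, hV σ hσ _ ((hw w).1 hw'), hψg w hw']
    rcases h with h | ⟨u, hu, h⟩
    · rw [h, hVg]; exact hmemV σ' hσ'
    · have hu' : g • u ∈ σ' := by rw [hw, inv_smul_smul]; exact hu
      have hEg : g • E σ u = E σ' (g • u) := by
        refine hext σ' hσ' _ _ (fun w hw' => ?_)
        rw [hE σ' _ hσ' w hw']
        have h1 := hG g (g⁻¹ • w) (E σ u)
        rw [smul_inv_smul] at h1
        rw [h1, hE σ _ hσ _ ((hw w).1 hw')]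
        simp only [inv_smul_eq_iff]
      rw [h, smul_add, hVg, hEg]
      exact hmemE σ' hσ' _ hu'


section final

variable (G Λ : Type) [AddCommGroup Λ] [Module.Free ℤ Λ] [Module.Finite ℤ Λ]
  [Group G] [Finite G] [DistribMulAction G Λ]

/-- The vertices of a stable smooth polytope, compatible with the finite set `H`: the coordinates
of an element of `H` at a vertex have the same sign. -/
structure CPoly (P : Finset Λ) (H : Set Λ) : Prop where
  ne : P.Nonempty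
  st : ∀ (g : G), ∀ μ ∈ P, g • μ ∈ P
  vx : ∀ μ ∈ P, ∃ v ∈ P,
    (∃ s : Multiset Λ, (∀ κ ∈ s, κ ∈ P) ∧ (s.card + 1) • μ = v + s.sum) ∧
    ∃ (n : ℕ) (b : Basis (Fin n) ℤ Λ), (∀ i, v + b i ∈ P) ∧
      (∀ κ ∈ P, ∀ i, 0 ≤ b.repr (κ - v) i) ∧
      ∀ δ ∈ H, (∀ i, 0 ≤ b.repr δ i) ∨ (∀ i, b.repr δ i ≤ 0)

/-- **P1.** Existence of a compatible stable smooth polytope. -/
theorem exists_cpoly (H : Set Λ) (hH : H.Finite) : ∃ P : Finset Λ, CPoly G Λ P H := by
  classical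
  let _ : DistribMulAction G (Λ →+ ℤ) := Exd.dualAction G Λ
  let L : (Λ →+ ℤ) ≃ₗ[ℤ] (Λ →ₗ[ℤ] ℤ) := addMonoidHomLequivInt ℤ
  have : Module.Free ℤ (Λ →+ ℤ) := Module.Free.of_equiv L.symm
  have : Module.Finite ℤ (Λ →+ ℤ) := Module.Finite.equiv L.symm
  -- the family of functionals
  set b₀ : Basis (Fin (finrank ℤ Λ)) ℤ Λ := finBasis ℤ Λ with hb₀
  set H' : Set Λ := {x | x ≠ 0 ∧ ∃ g : G, g • x ∈ H ∪ Set.range b₀} with hH'
  have hfin : H'.Finite := by
    have h1 : H' ⊆ ⋃ g : G, (fun y => g⁻¹ • y) '' (H ∪ Set.range b₀) := by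
      rintro x ⟨-, g, hx⟩
      exact Set.mem_iUnion.2 ⟨g, g • x, hx, inv_smul_smul g x⟩
    refine Set.Finite.subset (Set.finite_iUnion fun g => ?_) h1
    exact (hH.union (Set.finite_range _)).image _
  have : Finite H' := hfin
  let actH : MulAction G H' :=
    { smul := fun g x => ⟨g • (x : Λ), by
        obtain ⟨h0, h, hx⟩ := x.2
        refine ⟨fun h1 => h0 ?_, h * g⁻¹, ?_⟩
        · rw [← inv_smul_smul g (x : Λ), h1, smul_zero]
        · rw [mul_smul, inv_smul_smul]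
          exact hx⟩
      one_smul := fun x => Subtype.ext (one_smul G (x : Λ))
      mul_smul := fun g h x => Subtype.ext (mul_smul g h (x : Λ)) }
  let F : H' → ((Λ →+ ℤ) →+ ℤ) := fun x => AddMonoidHom.eval (x : Λ)
  have hFa : ∀ (x : H') (f : Λ →+ ℤ), F x f = f x := fun x f => rfl
  have hF : Eqv G F := by
    intro g i x
    rfl
  obtain ⟨φ, S, c, h, hs⟩ := exA G (Λ →+ ℤ) H' F hF (by
      intro f hf
      have h1 : ∀ i, f (b₀ i) = 0 := by
        intro i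
        have h2 : b₀ i ∈ H' := ⟨b₀.ne_zero i, 1, by rw [one_smul]; exact Or.inr ⟨i, rfl⟩⟩
        exact hf ⟨b₀ i, h2⟩
      have h2 : f.toIntLinearMap = 0 := b₀.ext fun i => by simpa using h1 i
      ext x
      exact LinearMap.congr_fun h2 x) (by
      intro x hx
      obtain ⟨i, hi⟩ : ∃ i, b₀.repr (x : Λ) i ≠ 0 := by
        by_contra hcon
        push Not at hcon
        apply x.2.1
        apply b₀.repr.injective
        ext i
        simpa using hcon i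
      have h1 := DFunLike.congr_fun hx (b₀.coord i).toAddMonoidHom
      exact hi h1)
  obtain ⟨φ', S', c', h', hU⟩ := exC G (Λ →+ ℤ)
    (fun σ => ∀ i : H', (∀ u ∈ σ, 0 ≤ F i u) ∨ (∀ u ∈ σ, F i u ≤ 0)) (by
      intro s t hst ht i
      rcases ht i with h1 | h1
      · left
        intro u hu
        have h2 := hst ((Int.castAddHom ℚ).comp (F i)) (fun w hw => by
          show (0 : ℚ) ≤ ((F i w : ℤ) : ℚ)
          exact_mod_cast h1 w hw) u hu
        have h3 : (0 : ℚ) ≤ ((F i u : ℤ) : ℚ) := h2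
        exact_mod_cast h3
      · right
        intro u hu
        have h2 := hst (-((Int.castAddHom ℚ).comp (F i))) (fun w hw => by
          show (0 : ℚ) ≤ -((F i w : ℤ) : ℚ)
          have h4 : ((F i w : ℤ) : ℚ) ≤ 0 := by exact_mod_cast h1 w hw
          linarith) u hu
        have h3 : (0 : ℚ) ≤ -((F i u : ℤ) : ℚ) := h2
        have h4 : ((F i u : ℤ) : ℚ) ≤ 0 := by linarith
        exact_mod_cast h4) φ S c h hs
  obtain ⟨P, hP0, hPst, hPv⟩ := exD G (Λ →+ ℤ) Λ (AddMonoidHom.id (Λ →+ ℤ)) (by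
      intro g u a
      show u (g⁻¹ • g • a) = u a
      rw [inv_smul_smul]) (by
      intro f
      let F : Module.Dual ℤ (Module.Dual ℤ Λ) := (f.toIntLinearMap).comp L.symm.toLinearMap
      refine ⟨(Module.evalEquiv ℤ Λ).symm F, ?_, ?_⟩
      · intro u
        have h1 : Module.evalEquiv ℤ Λ ((Module.evalEquiv ℤ Λ).symm F) (L u) = F (L u) := by
          rw [LinearEquiv.apply_symm_apply]
        have h2 : F (L u) = f u := by
          show f (L.symm (L u)) = f u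
          rw [LinearEquiv.symm_apply_apply]
        rw [h2] at h1
        exact h1
      · intro a ha
        rw [LinearEquiv.eq_symm_apply]
        ext l
        have h1 := ha (L.symm l)
        exact h1) φ' S' c' h' (fun σ hσ => (hU σ hσ).1)
  refine ⟨P, hP0, hPst, fun μ hμ => ?_⟩
  obtain ⟨v, hv, hs', n, b, hb1, hb2, σ, hσ, hb3⟩ := hPv μ hμ
  refine ⟨v, hv, hs', n, b, hb1, hb2, fun δ hδ => ?_⟩
  by_cases hδ0 : δ = 0
  · left
    intro i
    rw [hδ0, map_zero]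
    rfl
  · have hδ' : δ ∈ H' := ⟨hδ0, 1, by rw [one_smul]; exact Or.inl hδ⟩
    rcases (hU σ hσ).2 ⟨δ, hδ'⟩ with h1 | h1
    · left
      intro i
      obtain ⟨u, hu, hui⟩ := hb3 i
      rw [hui]
      exact h1 u hu
    · right
      intro i
      obtain ⟨u, hu, hui⟩ := hb3 i
      rw [hui]
      exact h1 u hu

end final

end Pool.Agent.H865.TT
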