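import Pool.Agent.H865.TT.Reg2
import Pool.Agent.H865.TT.Exd
import Pool.Graph.R_seed8.H918R2.Quad.Local

/-!
# Arrangements of linear forms: regularity of the charts at a prime
-/

set_option autoImplicit false
set_option linter.unusedSectionVars false

namespace Pool.Agent.H865.TT

open MvPolynomial Module Pool.Agent.K3h75.TO Pool.Agent.H918R2.Quad

section cht

variable {k : Type} [Field k] {n s : ℕ} {ι 𝔖 Λ : Type} [AddCommGroup Λ] [Fintype 𝔖]
  (A : Arr k n s ι 𝔖 Λ) {O R F : Type} [CommRing O] [CommRing R] [IsDomain R] [Algebra R k]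
  [IsFractionRing R k] [Field F] [Algebra R F] [Algebra k F] [IsScalarTower R k F]
  [Algebra O R] [Algebra O F] [IsScalarTower O R F]

/-- **Regularity of the charts over a prime.** -/
theorem Arr.cht [IsRegularRing R] [Fintype ι] {t : Fin n → F} {u : Fin s → F} {Y : Λ → F}
    {ϖ : 𝔖 → R} {c₀ : R} (h : LocD A t u Y ϖ c₀) (P : Finset Λ)
    (hP : ∀ μ ∈ P, ∃ v ∈ P,
      (∃ s : Multiset Λ, (∀ κ ∈ s, κ ∈ P) ∧ (s.card + 1) • μ = v + s.sum) ∧
      ∃ (N : ℕ) (b : Basis (Fin N) ℤ Λ), (∀ i, v + b i ∈ P) ∧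
        (∀ κ ∈ P, ∀ i, 0 ≤ b.repr (κ - v) i) ∧ A.Comp b)
    (𝔭 : Ideal O) [𝔭.IsPrime] [IsLocalization.AtPrime R 𝔭] (M : Submodule O F)
    (hMG : ∀ x ∈ M, x ∈ Submodule.span R (Y '' (P : Set Λ)))
    (hGM : ∀ κ ∈ P, ∃ s, s ∉ 𝔭 ∧ s • Y κ ∈ M) : RegAt 𝔭 M := by
  intro f hfM hf q hqp hq
  have hGM' : ∀ y ∈ Submodule.span R (Y '' (P : Set Λ)), ∃ s, s ∉ 𝔭 ∧ s • y ∈ M := by
    intro y hy
    obtain ⟨s, hs, hsy⟩ := clear_denom 𝔭 _ y hy
    have key : ∀ z ∈ Submodule.span O (Y '' (P : Set Λ)), ∃ s, s ∉ 𝔭 ∧ s • z ∈ M := by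
      intro z hz
      induction hz using Submodule.span_induction with
      | mem z hz =>
        obtain ⟨κ, hκ, rfl⟩ := hz
        exact hGM κ hκ
      | zero =>
        exact ⟨1, (Ideal.ne_top_iff_one 𝔭).1 Ideal.IsPrime.ne_top', by
          rw [one_smul]; exact M.zero_mem⟩
      | add z z' _ _ hz hz' =>
        obtain ⟨s, hs, hsz⟩ := hz
        obtain ⟨s', hs', hsz'⟩ := hz'
        refine ⟨s * s', fun h => (Ideal.IsPrime.mem_or_mem ‹𝔭.IsPrime› h).elim hs hs', ?_⟩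
        rw [smul_add]
        apply M.add_mem
        · rw [mul_comm, mul_smul]
          exact M.smul_mem _ hsz
        · rw [mul_smul]
          exact M.smul_mem _ hsz'
      | smul r z _ hz =>
        obtain ⟨s, hs, hsz⟩ := hz
        refine ⟨s, hs, ?_⟩
        rw [smul_comm]
        exact M.smul_mem _ hsz
    obtain ⟨s', hs', hsy'⟩ := key _ hsy
    refine ⟨s' * s, fun h => (Ideal.IsPrime.mem_or_mem ‹𝔭.IsPrime› h).elim hs' hs, ?_⟩
    rw [mul_smul]
    exact hsy'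
  obtain ⟨𝒪, hloc, hR, hRu, hloc2, hG, hreg⟩ := transfer (R := R) 𝔭 M _ hMG hGM' f q hq
  apply hreg
  obtain ⟨g, ⟨μ, hμ, rfl⟩, hgU⟩ := exists_U_gen hloc hR _ f hf hG (hMG f hfM)
  obtain ⟨v, hv, ⟨ms, hms, hsum⟩, N, b, hb1, hb2, hcomp⟩ := hP μ hμ
  have hYf : ∀ κ ∈ P, Y κ / f ∈ 𝒪 := fun κ hκ => hG _ ⟨κ, hκ, rfl⟩
  have hYne : ∀ κ, Y κ ≠ 0 := fun κ => (h.ch.isUnit κ).ne_zero
  -- the vertex
  have hvU : U 𝒪 (Y v / f) := by
    have hprod : ∀ ms : Multiset Λ, Y ms.sum = (ms.map Y).prod := by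
      intro ms
      induction ms using Multiset.induction_on with
      | empty => rw [Multiset.sum_zero, Multiset.map_zero, Multiset.prod_zero, h.ch.zero]
      | cons a ms ih => rw [Multiset.sum_cons, Multiset.map_cons, Multiset.prod_cons, h.ch.add, ih]
    have h1 : ∀ ms : Multiset Λ, (∀ κ ∈ ms, κ ∈ P) → Y ms.sum / f ^ ms.card ∈ 𝒪 := by
      intro ms
      induction ms using Multiset.induction_on with
      | empty =>
        intro _
        rw [Multiset.sum_zero, Multiset.card_zero, pow_zero, h.ch.zero, div_one]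
        exact 𝒪.one_mem
      | cons a ms ih =>
        intro hms
        rw [Multiset.sum_cons, Multiset.card_cons, pow_succ', h.ch.add, mul_div_mul_comm]
        exact 𝒪.mul_mem (hYf a (hms a (Multiset.mem_cons_self a ms)))
          (ih fun κ hκ => hms κ (Multiset.mem_cons_of_mem hκ))
    have h2 : (Y μ / f) ^ (ms.card + 1) = (Y v / f) * (Y ms.sum / f ^ ms.card) := by
      rw [div_pow, ← h.ch.nsmul, hsum, h.ch.add, pow_succ', mul_div_mul_comm]
    have h3 : U 𝒪 ((Y v / f) * (Y ms.sum / f ^ ms.card)) := by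
      rw [← h2]
      exact hgU.pow _
    exact h3.of_mul_left (hYf v hv) (h1 ms hms)
  have hfv : U 𝒪 (f / Y v) := by
    have := hvU.inv
    rwa [inv_div] at this
  have hb : ∀ l, Y (b l) ∈ 𝒪 := by
    intro l
    have h1 : Y (b l) = (Y (v + b l) / f) * (f / Y v) := by
      rw [h.ch.add]
      have := hYne v
      field_simp
    rw [h1]
    exact 𝒪.mul_mem (hYf _ (hb1 l)) hfv.2.1
  have he : ∀ w : MvPolynomial (Fin N) R, aeval (fun l => Y (b l)) w ∈ 𝒪 := by
    intro w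
    induction w using MvPolynomial.induction_on with
    | C r => rw [algHom_C]; exact hR r
    | add p q hp hq => rw [map_add]; exact 𝒪.add_mem hp hq
    | mul_X p l hp => rw [map_mul, aeval_X]; exact 𝒪.mul_mem hp (hb l)
  have hfrac := frac_of_chart (aeval (fun l => Y (b l)) : MvPolynomial (Fin N) R →ₐ[R] F) he
    (Y '' (P : Set Λ)) f (Y v) (hYne v) (by
      rintro _ ⟨κ, hκ, rfl⟩
      refine ⟨mon R b (κ - v), ?_⟩
      have h1 : aeval (fun l => Y (b l)) (mon R b (κ - v)) = Y (κ - v) :=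
        eval_mon b (aeval (fun l => Y (b l)) : MvPolynomial (Fin N) R →ₐ[R] F).toRingHom h.ch
          (fun l => aeval_X _ l) (hb2 κ hκ)
      rw [h1, ← h.ch.add, add_sub_cancel]) (hMG f hfM) hfv hloc2
  refine A.vreg h b hcomp 𝒪 hloc hR ?_ hb ?_
  · intro q' hq' hU
    rcases h.ϖ1 q' with h1 | ⟨_, h1⟩
    · exact hq' h1
    · exact h1.not_isUnit (hRu _ hU)
  · intro x hx
    obtain ⟨a, w, h1, h2, h3⟩ := hfrac x hx
    exact ⟨a, w, ⟨h1, he w, h2⟩, h3⟩

end cht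

end Pool.Agent.H865.TT
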