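import Pool.Graph.R_pool_sql_team_seeded_5cf16337.K3h77.EXA

/-!
# Compatible fans, part 1: the flags of the cells of the arrangement of a stable finite family of
functionals (after `K3h77.EXA`, with an arbitrary stable family)
-/

set_option autoImplicit false
set_option linter.unusedSectionVars false
set_option linter.style.haveILetI false

namespace Pool.Agent.H865.TT

open Module Pool.Agent.K3h75.TO Pool.Agent.K3h77.EXA

section grp

variable {G N ι : Type} [AddCommGroup N] [Group G] [Finite G] [DistribMulAction G N]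
  [Finite ι] [MulAction G ι] {F : ι → N →+ ℤ}

/-- equivariance of a family of functionals -/
def Eqv (G : Type) {N ι : Type} [AddCommGroup N] [Group G] [DistribMulAction G N]
    [MulAction G ι] (F : ι → N →+ ℤ) : Prop := ∀ (g : G) i x, F i (g • x) = F (g⁻¹ • i) x

theorem sv_smul' (hF : Eqv G F) (g : G) (x : N) :
    sv F (g • x) = fun i : ι => sv F x (g⁻¹ • i) := by
  funext i
  simp only [sv, hF g i x]

/-- the action on the cells -/
def act' (hF : Eqv G F) (g : G) (X : Cell F) : Cell F :=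
  ⟨fun i => X.1 (g⁻¹ • i), by
    obtain ⟨x, hx⟩ := X.2
    refine ⟨g • x, ?_⟩
    rw [sv_smul' hF, hx]⟩

theorem act'_act' (hF : Eqv G F) (g h : G) (X : Cell F) :
    act' hF g (act' hF h X) = act' hF (g * h) X := by
  apply Subtype.ext
  funext i
  show X.1 (h⁻¹ • g⁻¹ • i) = X.1 ((g * h)⁻¹ • i)
  rw [mul_inv_rev, mul_smul]

theorem act'_one (hF : Eqv G F) (X : Cell F) : act' hF 1 X = X := by
  apply Subtype.ext
  funext i
  show X.1 ((1 : G)⁻¹ • i) = X.1 i
  rw [inv_one, one_smul]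

theorem act'_strictMono (hF : Eqv G F) (g : G) : StrictMono (act' hF g) := by
  intro A B h
  refine lt_of_le_of_ne (fun i => h.le (g⁻¹ • i)) fun heq => ?_
  have h1 := congrArg (act' hF g⁻¹) heq
  rw [act'_act', act'_act', inv_mul_cancel, act'_one, act'_one] at h1
  exact h.ne h1

/-- the points in the cells -/
noncomputable def pt' (hF : Eqv G F) (X : Cell F) : N :=
  haveI := Fintype.ofFinite G
  ∑ g : G, g • (act' hF g⁻¹ X).2.choose

theorem sv_pt' (hF : Eqv G F) (X : Cell F) : sv F (pt' hF X) = X.1 := by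
  letI := Fintype.ofFinite G
  unfold pt'
  refine sv_sum _ _ ⟨1, Finset.mem_univ _⟩ _ fun g _ => ?_
  rw [sv_smul' hF, (act' hF g⁻¹ X).2.choose_spec]
  funext i
  show X.1 ((g⁻¹)⁻¹ • g⁻¹ • i) = X.1 i
  rw [inv_smul_smul]

theorem pt'_act' (hF : Eqv G F) (h : G) (X : Cell F) :
    pt' hF (act' hF h X) = h • pt' hF X := by
  letI := Fintype.ofFinite G
  show ∑ g : G, g • (act' hF g⁻¹ (act' hF h X)).2.choose =
    h • ∑ g : G, g • (act' hF g⁻¹ X).2.choose
  rw [Finset.smul_sum]
  refine (Fintype.sum_equiv (Equiv.mulLeft h) (fun g : G => h • g • (act' hF g⁻¹ X).2.choose)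
    (fun g : G => g • (act' hF g⁻¹ (act' hF h X)).2.choose) fun g => ?_).symm
  rw [Equiv.coe_mulLeft, smul_smul, act'_act']
  have h1 : (h * g)⁻¹ * h = g⁻¹ := by group
  rw [h1]

end grp

/-- The fan of the flags of cells: the functionals of the family have constant signs on the
cones. -/
theorem exA (G N ι : Type) [AddCommGroup N] [Module.Free ℤ N] [Module.Finite ℤ N] [Group G]
    [Finite G] [DistribMulAction G N] [Finite ι] [MulAction G ι] (F : ι → N →+ ℤ)
    (hF : Eqv G F) (hF0 : ∀ x, (∀ i, F i x = 0) → x = 0) (hFne : ∀ i, F i ≠ 0) :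
    ∃ (φ : N → ℚ) (S : Finset (Finset N)) (c : N → ℕ), DatG G φ S c ∧
      ∀ σ ∈ S, ∀ i, (∀ u ∈ σ, 0 ≤ F i u) ∨ (∀ u ∈ σ, F i u ≤ 0) := by
  classical
  haveI := Fintype.ofFinite G
  haveI := Fintype.ofFinite ι
  set n := Module.finrank ℤ N with hn
  set b : Basis (Fin n) ℤ N := Module.finBasis ℤ N with hb
  have hβ : ∀ X : Cell F, sv F (pt' hF X) = X.1 := sv_pt' hF
  obtain ⟨Λ, E, hD⟩ := dat b hβ hF0 hFne
  refine ⟨ph b F Λ E, SS (pt' hF) n, fun x => dm b F (sv F x), ⟨hD, ?_, ?_, ?_, ?_⟩, ?_⟩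
  · intro g σ hσ
    obtain ⟨X, hX, rfl⟩ := mem_SS.1 hσ
    refine ⟨gens (pt' hF) (fun k => act' hF g (X k)),
      mem_SS.2 ⟨_, (act'_strictMono hF g).comp hX, rfl⟩, fun w => ?_⟩
    rw [mem_gens, mem_gens]
    refine exists_congr fun k => ?_
    rw [pt'_act', eq_inv_smul_iff]
  · intro g σ hσ u hu
    obtain ⟨X, hX, rfl⟩ := mem_SS.1 hσ
    obtain ⟨k, rfl⟩ := mem_gens.1 hu
    rw [ph_apply, ph_apply]
    have h1 : ∑ i : ι, |F i (g • pt' hF (X k.succ))| =
        ∑ i : ι, |F i (pt' hF (X k.succ))| := by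
      refine Fintype.sum_equiv (MulAction.toPerm g⁻¹) _ _ fun p => ?_
      rw [hF g p]
      rfl
    have h2 : dm b F (sv F (g • pt' hF (X k.succ))) =
        dm b F (sv F (pt' hF (X k.succ))) := by
      rw [← pt'_act', hβ, hβ, dm_flag b hX k.succ]
      exact dm_flag b ((act'_strictMono hF g).comp hX) k.succ
    rw [h1, h2]
  · intro g σ hσ u hu
    obtain ⟨X, hX, rfl⟩ := mem_SS.1 hσ
    obtain ⟨k, rfl⟩ := mem_gens.1 hu
    show dm b F (sv F (g • pt' hF (X k.succ))) = dm b F (sv F (pt' hF (X k.succ)))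
    rw [← pt'_act', hβ, hβ, dm_flag b hX k.succ]
    exact dm_flag b ((act'_strictMono hF g).comp hX) k.succ
  · intro σ hσ u hu u' hu' h
    obtain ⟨X, hX, rfl⟩ := mem_SS.1 hσ
    obtain ⟨k, rfl⟩ := mem_gens.1 hu
    obtain ⟨l, rfl⟩ := mem_gens.1 hu'
    have h1 : dm b F (sv F (pt' hF (X k.succ))) = dm b F (sv F (pt' hF (X l.succ))) := h
    rw [hβ, hβ, dm_flag b hX k.succ, dm_flag b hX l.succ] at h1
    have h2 : k.succ = l.succ := Fin.ext h1
    rw [h2]
  · intro σ hσ i
    obtain ⟨X, hX, rfl⟩ := mem_SS.1 hσ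
    have h1 : ∀ k : Fin n, SignType.sign (F i (pt' hF (X k.succ))) = 0 ∨
        SignType.sign (F i (pt' hF (X k.succ))) = (X (Fin.last n)).1 i := by
      intro k
      have h2 : X k.succ ≤ X (Fin.last n) := hX.monotone (Fin.le_last _)
      have h3 : SignType.sign (F i (pt' hF (X k.succ))) = (X k.succ).1 i := congrFun (hβ _) i
      rw [h3]
      exact h2 i
    rcases le_total 0 ((X (Fin.last n)).1 i) with h0 | h0
    · left
      intro u hu
      obtain ⟨k, rfl⟩ := mem_gens.1 hu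
      rcases h1 k with h2 | h2
      · exact (sign_eq_zero_iff.1 h2).ge
      · rw [← h2] at h0
        exact sign_nonneg_iff.1 h0
    · right
      intro u hu
      obtain ⟨k, rfl⟩ := mem_gens.1 hu
      rcases h1 k with h2 | h2
      · exact (sign_eq_zero_iff.1 h2).le
      · rw [← h2] at h0
        exact sign_nonpos_iff.1 h0

end Pool.Agent.H865.TT
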