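import Pool.Agent.H865.TT.Exb

/-!
# Compatible fans, part 3: termination of the star subdivisions (after `K3h77.EXC`)
-/

set_option autoImplicit false

namespace Pool.Agent.H865.TT

open Pool.Agent.K3h75.TO

theorem exC (G N : Type) [AddCommGroup N] [Module.Free ℤ N]
    [Module.Finite ℤ N] [Group G] [Finite G] [DistribMulAction G N] (Pr : Finset N → Prop)
    (hPr : ∀ s t, InC s t → Pr t → Pr s) (φ : N → ℚ)
    (S : Finset (Finset N)) (c : N → ℕ) (hD : DatG G φ S c) (hS : ∀ σ ∈ S, Pr σ) :
    ∃ (φ' : N → ℚ) (S' : Finset (Finset N)) (c' : N → ℕ), DatG G φ' S' c' ∧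
      ∀ σ ∈ S', AddSubgroup.closure (σ : Set N) = ⊤ ∧ Pr σ := by
  classical
  obtain ⟨mlt, hm⟩ := exB G N
  have key : ∀ m k : ℕ, ∀ (φ : N → ℚ) (S : Finset (Finset N)) (c : N → ℕ), DatG G φ S c →
      (∀ σ ∈ S, Pr σ) →
      (∀ σ ∈ S, AddSubgroup.closure (σ : Set N) ≠ ⊤ → mlt σ ≤ m) →
      (S.filter (fun σ : Finset N => AddSubgroup.closure (σ : Set N) ≠ ⊤ ∧ mlt σ = m)).card ≤ k →
      ∃ (φ' : N → ℚ) (S' : Finset (Finset N)) (c' : N → ℕ), DatG G φ' S' c' ∧
        ∀ σ ∈ S', AddSubgroup.closure (σ : Set N) = ⊤ ∧ Pr σ := by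
    intro m
    induction m with
    | zero =>
      intro k
      induction k with
      | zero =>
        intro φ S c hD hS h1 h2
        refine ⟨φ, S, c, hD, fun σ hσ => ⟨?_, hS σ hσ⟩⟩
        by_contra hne
        have h3 : σ ∈ S.filter (fun σ : Finset N => AddSubgroup.closure (σ : Set N) ≠ ⊤ ∧ mlt σ = 0) :=
          Finset.mem_filter.2 ⟨hσ, hne, by have := h1 σ hσ hne; omega⟩
        have h4 := Finset.card_pos.2 ⟨σ, h3⟩
        omega
      | succ k ihk =>
        intro φ S c hD hS h1 h2
        by_cases hex : ∃ σ₀ ∈ S, AddSubgroup.closure (σ₀ : Set N) ≠ ⊤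
        · obtain ⟨σ₀, hσ₀, hne₀⟩ := hex
          obtain ⟨φ', S', c', hD', hn, hs⟩ := hm φ S c hD σ₀ hσ₀ hne₀
          refine ihk φ' S' c' hD' ?_ ?_ ?_
          · intro σ' hσ'
            rcases hs σ' hσ' with h | ⟨σ, hσ, -, -, hin⟩
            · exact hS σ' h
            · exact hPr _ _ hin (hS σ hσ)
          · intro σ' hσ' hne
            rcases hs σ' hσ' with h | ⟨σ, hσ, hσn, hlt, -⟩
            · exact h1 σ' h hne
            · have := h1 σ hσ hσn
              omega
          · have hsub : S'.filter (fun σ : Finset N => AddSubgroup.closure (σ : Set N) ≠ ⊤ ∧ mlt σ = 0) ⊆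
                (S.filter (fun σ : Finset N => AddSubgroup.closure (σ : Set N) ≠ ⊤ ∧ mlt σ = 0)).erase σ₀ := by
              intro σ' hσ'
              rw [Finset.mem_filter] at hσ'
              rw [Finset.mem_erase, Finset.mem_filter]
              refine ⟨fun h => hn (h ▸ hσ'.1), ?_, hσ'.2⟩
              rcases hs σ' hσ'.1 with h | ⟨σ, hσ, hσn, hlt, -⟩
              · exact h
              · have := h1 σ hσ hσn
                omega
            have h3 := Finset.card_le_card hsub
            have h5 : σ₀ ∈ S.filter (fun σ : Finset N => AddSubgroup.closure (σ : Set N) ≠ ⊤ ∧ mlt σ = 0) :=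
              Finset.mem_filter.2 ⟨hσ₀, hne₀, by have := h1 σ₀ hσ₀ hne₀; omega⟩
            rw [Finset.card_erase_of_mem h5] at h3
            omega
        · push Not at hex
          exact ⟨φ, S, c, hD, fun σ hσ => ⟨hex σ hσ, hS σ hσ⟩⟩
    | succ m ihm =>
      intro k
      induction k with
      | zero =>
        intro φ S c hD hS h1 h2
        refine ihm _ φ S c hD hS ?_ le_rfl
        intro σ hσ hne
        have h3 := h1 σ hσ hne
        by_contra h4
        have h5 : σ ∈ S.filter (fun σ : Finset N => AddSubgroup.closure (σ : Set N) ≠ ⊤ ∧ mlt σ = m + 1) :=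
          Finset.mem_filter.2 ⟨hσ, hne, by omega⟩
        have h6 := Finset.card_pos.2 ⟨σ, h5⟩
        omega
      | succ k ihk =>
        intro φ S c hD hS h1 h2
        by_cases hex : ∃ σ₀ ∈ S, AddSubgroup.closure (σ₀ : Set N) ≠ ⊤ ∧ mlt σ₀ = m + 1
        · obtain ⟨σ₀, hσ₀, hne₀, hmm⟩ := hex
          obtain ⟨φ', S', c', hD', hn, hs⟩ := hm φ S c hD σ₀ hσ₀ hne₀
          refine ihk φ' S' c' hD' ?_ ?_ ?_
          · intro σ' hσ'
            rcases hs σ' hσ' with h | ⟨σ, hσ, -, -, hin⟩
            · exact hS σ' h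
            · exact hPr _ _ hin (hS σ hσ)
          · intro σ' hσ' hne
            rcases hs σ' hσ' with h | ⟨σ, hσ, hσn, hlt, -⟩
            · exact h1 σ' h hne
            · have := h1 σ hσ hσn
              omega
          · have hsub : S'.filter (fun σ : Finset N => AddSubgroup.closure (σ : Set N) ≠ ⊤ ∧ mlt σ = m + 1) ⊆
                (S.filter (fun σ : Finset N => AddSubgroup.closure (σ : Set N) ≠ ⊤ ∧
                  mlt σ = m + 1)).erase σ₀ := by
              intro σ' hσ'
              rw [Finset.mem_filter] at hσ'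
              rw [Finset.mem_erase, Finset.mem_filter]
              refine ⟨fun h => hn (h ▸ hσ'.1), ?_, hσ'.2⟩
              rcases hs σ' hσ'.1 with h | ⟨σ, hσ, hσn, hlt, -⟩
              · exact h
              · have := h1 σ hσ hσn
                omega
            have h3 := Finset.card_le_card hsub
            have h5 : σ₀ ∈ S.filter (fun σ : Finset N => AddSubgroup.closure (σ : Set N) ≠ ⊤ ∧
                mlt σ = m + 1) := Finset.mem_filter.2 ⟨hσ₀, hne₀, hmm⟩
            rw [Finset.card_erase_of_mem h5] at h3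
            omega
        · push Not at hex
          refine ihm _ φ S c hD hS ?_ le_rfl
          intro σ hσ hne
          have h3 := h1 σ hσ hne
          have h4 := hex σ hσ hne
          omega
  exact key (S.sup mlt) _ φ S c hD hS (fun σ hσ _ => Finset.le_sup (f := mlt) hσ) le_rfl

end Pool.Agent.H865.TT
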