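import Pool.Agent.H865.TT.Unq
import Pool.Agent.H865.TT.Act

/-!
# The arrangement of a monomial action
-/

set_option autoImplicit false
set_option linter.unusedSectionVars false

namespace Pool.Agent.H865.TT

open IsDedekindDomain Module

section ext

variable {k F : Type} [Field k] [Field F] [Algebra k F] {n s : ℕ}

/-- The group generated by the values of linear forms and by the other variables. -/
def mgrp (k : Type) {F : Type} [Field k] [Field F] [Algebra k F] {n s : ℕ} (t : Fin n → F)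
    (u : Fin s → F) : Subgroup Fˣ :=
  Subgroup.closure {y | (∃ (c₀ : k) (c : Fin n → k),
    (y : F) = algebraMap k F c₀ + ∑ i, algebraMap k F (c i) * t i) ∨ ∃ j, (y : F) = u j}

/-- The group generated by the constants, finitely many forms, and the other variables. -/
def Mon (t : Fin n → F) (u : Fin s → F) (L : Set (Option (Fin n) → k)) : Subgroup Fˣ :=
  Subgroup.closure {y | (∃ c : k, (y : F) = algebraMap k F c) ∨ (∃ v ∈ L, (y : F) = val t v) ∨
    ∃ j, (y : F) = u j}

theorem Mon_mono (t : Fin n → F) (u : Fin s → F) {L L' : Set (Option (Fin n) → k)}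
    (h : L ⊆ L') : Mon t u L ≤ Mon t u L' := by
  apply Subgroup.closure_mono
  rintro y (h1 | ⟨v, hv, h1⟩ | h1)
  · exact Or.inl h1
  · exact Or.inr (Or.inl ⟨v, h hv, h1⟩)
  · exact Or.inr (Or.inr h1)

/-- normalization -/
theorem exists_nrm (v : Option (Fin n) → k) (hv : ∃ m : Fin n, v (some m) ≠ 0) :
    ∃ c : k, c ≠ 0 ∧ Nrm (c • v) := by
  classical
  let S : Finset (Fin n) := Finset.univ.filter fun m => v (some m) ≠ 0
  have hS : S.Nonempty := by
    obtain ⟨m, hm⟩ := hv
    exact ⟨m, Finset.mem_filter.2 ⟨Finset.mem_univ _, hm⟩⟩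
  have h1 : v (some (S.min' hS)) ≠ 0 := (Finset.mem_filter.1 (S.min'_mem hS)).2
  refine ⟨(v (some (S.min' hS)))⁻¹, inv_ne_zero h1, S.min' hS, ?_, fun m hm => ?_⟩
  · rw [Pi.smul_apply, smul_eq_mul, inv_mul_cancel₀ h1]
  · rw [Pi.smul_apply, smul_eq_mul]
    have h2 : v (some m) = 0 := by
      by_contra h3
      have h4 := S.min'_le m (Finset.mem_filter.2 ⟨Finset.mem_univ _, h3⟩)
      exact absurd hm (not_lt.2 h4)
    rw [h2, mul_zero]

theorem val_smul (t : Fin n → F) (c : k) (v : Option (Fin n) → k) :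
    val t (c • v) = algebraMap k F c * val t v := by
  unfold val
  rw [mul_add, Finset.mul_sum, Pi.smul_apply, smul_eq_mul, map_mul]
  congr 1
  refine Finset.sum_congr rfl fun m _ => ?_
  rw [Pi.smul_apply, smul_eq_mul, map_mul]
  ring

/-- Step A: finitely many normalized forms. -/
theorem exists_forms (t : Fin n → F) (u : Fin s → F) {y : Fˣ} (hy : y ∈ mgrp k t u) :
    ∃ L : Set (Option (Fin n) → k), L.Finite ∧ (∀ v ∈ L, Nrm v) ∧ y ∈ Mon t u L := by
  unfold mgrp at hy
  induction hy using Subgroup.closure_induction with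
  | mem y hy =>
    rcases hy with ⟨c₀, c, hy⟩ | ⟨j, hy⟩
    · let v : Option (Fin n) → k := fun m => m.elim c₀ c
      have hv : (y : F) = val t v := hy
      by_cases h : ∃ m : Fin n, v (some m) ≠ 0
      · obtain ⟨d, hd, hn⟩ := exists_nrm v h
        refine ⟨{d • v}, Set.finite_singleton _, by rintro _ rfl; exact hn, ?_⟩
        have hdF : algebraMap k F d ≠ 0 := by
          rw [Ne, map_eq_zero]
          exact hd
        have h1 : Units.mk0 _ hdF * y ∈ Mon t u {d • v} := by
          refine Subgroup.subset_closure (Or.inr (Or.inl ⟨_, rfl, ?_⟩))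
          rw [val_smul, ← hv]
          rfl
        have h2 : Units.mk0 _ hdF ∈ Mon t u {d • v} :=
          Subgroup.subset_closure (Or.inl ⟨d, rfl⟩)
        have h3 := (Mon t u {d • v}).mul_mem ((Mon t u {d • v}).inv_mem h2) h1
        rwa [inv_mul_cancel_left] at h3
      · push Not at h
        refine ⟨∅, Set.finite_empty, by simp, Subgroup.subset_closure (Or.inl ⟨c₀, ?_⟩)⟩
        rw [hv]
        unfold val
        rw [Finset.sum_eq_zero, add_zero]
        · rfl
        · intro m _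
          rw [h m, map_zero, zero_mul]
    · exact ⟨∅, Set.finite_empty, by simp, Subgroup.subset_closure (Or.inr (Or.inr ⟨j, hy⟩))⟩
  | one => exact ⟨∅, Set.finite_empty, by simp, Subgroup.one_mem _⟩
  | mul y y' _ _ h h' =>
    obtain ⟨L, h1, h2, h3⟩ := h
    obtain ⟨L', h1', h2', h3'⟩ := h'
    refine ⟨L ∪ L', h1.union h1', ?_, Subgroup.mul_mem _
      (Mon_mono t u Set.subset_union_left h3) (Mon_mono t u Set.subset_union_right h3')⟩
    rintro v (hv | hv)
    · exact h2 v hv
    · exact h2' v hv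
  | inv y _ h =>
    obtain ⟨L, h1, h2, h3⟩ := h
    exact ⟨L, h1, h2, Subgroup.inv_mem _ h3⟩

/-- Step B: exponents. -/
theorem exists_exps {ι₁ : Type} [Fintype ι₁] [DecidableEq ι₁] (l : ι₁ → Option (Fin n) → k)
    (t : Fin n → F) (u : Fin s → F) (hyv : ∀ i, yv l t u i ≠ 0)
    {L : Set (Option (Fin n) → k)} (hL : ∀ v ∈ L, ∃ i, l i = v) {y : Fˣ}
    (hy : y ∈ Mon t u L) : ∃ (c : k) (a : ι₁ ⊕ Fin s → ℤ), c ≠ 0 ∧
      (y : F) = algebraMap k F c * chr (yv l t u) a := by
  unfold Mon at hy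
  induction hy using Subgroup.closure_induction with
  | mem y hy =>
    rcases hy with ⟨c, hc⟩ | ⟨v, hv, hy⟩ | ⟨j, hy⟩
    · refine ⟨c, 0, ?_, by rw [chr_zero, mul_one, hc]⟩
      rintro rfl
      rw [map_zero] at hc
      exact y.ne_zero hc
    · obtain ⟨i, rfl⟩ := hL v hv
      refine ⟨1, Pi.single (Sum.inl i) 1, one_ne_zero, ?_⟩
      rw [map_one, one_mul, chr_single, hy]
      rfl
    · refine ⟨1, Pi.single (Sum.inr j) 1, one_ne_zero, ?_⟩
      rw [map_one, one_mul, chr_single, hy]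
      rfl
  | one => exact ⟨1, 0, one_ne_zero, by rw [chr_zero, map_one, mul_one, Units.val_one]⟩
  | mul y y' _ _ h h' =>
    obtain ⟨c, a, hc, h⟩ := h
    obtain ⟨c', a', hc', h'⟩ := h'
    refine ⟨c * c', a + a', mul_ne_zero hc hc', ?_⟩
    rw [chr_add hyv, map_mul, Units.val_mul, h, h']
    ring
  | inv y _ h =>
    obtain ⟨c, a, hc, h⟩ := h
    refine ⟨c⁻¹, -a, inv_ne_zero hc, ?_⟩
    rw [chr_neg, map_inv₀, ← mul_inv, ← h, Units.val_inv_eq_inv_val]

/-- The action on the forms. -/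
theorem val_galois {G : Type} [Group G] [MulSemiringAction G k] (ρ : G →* (F ≃+* F))
    (hρ : ∀ g c, ρ g (algebraMap k F c) = algebraMap k F (g • c)) (t : Fin n → F)
    (ht : ∀ g i, ρ g (t i) = t i) (g : G) (v : Option (Fin n) → k) :
    ρ g (val t v) = val t (fun m => g • v m) := by
  unfold val
  rw [map_add, map_sum, hρ]
  congr 1
  refine Finset.sum_congr rfl fun m _ => ?_
  rw [map_mul, hρ, ht]

theorem nrm_galois {G : Type} [Group G] [MulSemiringAction G k] (g : G)
    {v : Option (Fin n) → k} (hv : Nrm v) : Nrm (fun m => g • v m) := by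
  obtain ⟨m, h1, h2⟩ := hv
  refine ⟨m, ?_, fun m' hm' => ?_⟩
  · show g • v (some m) = 1
    rw [h1, smul_one]
  · show g • v (some m') = 0
    rw [h2 m' hm', smul_zero]

theorem val_ne_zero {t : Fin n → F} {u : Fin s → F}
    (hind : AlgebraicIndependent k (Sum.elim t u)) {v : Option (Fin n) → k} (hv : Nrm v) :
    val t v ≠ 0 := by
  rw [← ev_pol t u v]
  intro h
  have h1 : pol s v = 0 := hind (by rw [h, map_zero])
  exact (hv.prime (s := s)).ne_zero h1

/-- **Extraction of the arrangement.** -/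
theorem exists_arr {G : Type} [Group G] [Finite G] [MulSemiringAction G k] (ρ : G →* (F ≃+* F))
    (hρ : ∀ g c, ρ g (algebraMap k F c) = algebraMap k F (g • c)) (t : Fin n → F)
    (u : Fin s → F) (ht : ∀ g i, ρ g (t i) = t i)
    (hind : AlgebraicIndependent k (Sum.elim t u))
    (hmon : ∀ g j, ∃ y ∈ mgrp k t u, (y : F) = ρ g (u j)) :
    ∃ (L : Finset (Option (Fin n) → k)), (∀ v ∈ L, Nrm v) ∧
      (∀ m : Fin n, Pi.single (some m) 1 ∈ L) ∧
      Nonempty (MonA (k := k) G ρ (yv (fun v : {v // v ∈ L} => (v : Option (Fin n) → k)) t u)) := by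
  classical
  choose y hy hyρ using hmon
  choose L0 hL0f hL0n hL0y using fun g j => exists_forms t u (hy g j)
  -- the set of forms
  let L1 : Set (Option (Fin n) → k) :=
    (⋃ g, ⋃ j, L0 g j) ∪ Set.range fun m : Fin n => Pi.single (some m) 1
  have hL1f : L1.Finite :=
    (Set.finite_iUnion fun g => Set.finite_iUnion fun j => hL0f g j).union (Set.finite_range _)
  have hL1n : ∀ v ∈ L1, Nrm v := by
    rintro v (hv | ⟨m, rfl⟩)
    · obtain ⟨g, hv⟩ := Set.mem_iUnion.1 hv
      obtain ⟨j, hv⟩ := Set.mem_iUnion.1 hv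
      exact hL0n g j v hv
    · refine ⟨m, ?_, fun m' hm' => ?_⟩
      · show (Pi.single (some m) 1 : Option (Fin n) → k) (some m) = 1
        rw [Pi.single_eq_same]
      · show (Pi.single (some m) 1 : Option (Fin n) → k) (some m') = 0
        rw [Pi.single_eq_of_ne]
        intro h
        exact hm'.ne (Option.some_injective _ h)
  let L2 : Set (Option (Fin n) → k) := ⋃ g : G, (fun v m => g • v m) '' L1
  have hL2f : L2.Finite := Set.finite_iUnion fun g => hL1f.image _
  have hL2n : ∀ v ∈ L2, Nrm v := by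
    intro v hv
    obtain ⟨g, v', hv', rfl⟩ := Set.mem_iUnion.1 hv
    exact nrm_galois g (hL1n v' hv')
  have hL12 : L1 ⊆ L2 := fun v hv => Set.mem_iUnion.2 ⟨1, v, hv, by
    funext m
    exact one_smul G (v m)⟩
  have hL2st : ∀ (g : G), ∀ v ∈ L2, (fun m => g • v m) ∈ L2 := by
    intro g v hv
    obtain ⟨h, v', hv', rfl⟩ := Set.mem_iUnion.1 hv
    refine Set.mem_iUnion.2 ⟨g * h, v', hv', ?_⟩
    funext m
    exact mul_smul g h (v' m)
  set L : Finset (Option (Fin n) → k) := hL2f.toFinset with hL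
  have hmem : ∀ v, v ∈ L ↔ v ∈ L2 := fun v => hL2f.mem_toFinset
  have hLn : ∀ v ∈ L, Nrm v := fun v hv => hL2n v ((hmem v).1 hv)
  refine ⟨L, hLn, fun m => (hmem _).2 (hL12 (Or.inr ⟨m, rfl⟩)), ?_⟩
  set l : {v // v ∈ L} → Option (Fin n) → k := fun v => v with hl
  have hyv : ∀ i, yv l t u i ≠ 0 := by
    rintro (i | j)
    · exact val_ne_zero hind (hLn i i.2)
    · exact (hind.ne_zero (Sum.inr j))
  have key : ∀ g i, ∃ (c : k) (a : {v // v ∈ L} ⊕ Fin s → ℤ), c ≠ 0 ∧
      ρ g (yv l t u i) = algebraMap k F c * chr (yv l t u) a := by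
    rintro g (i | j)
    · refine ⟨1, Pi.single (Sum.inl ⟨fun m => g • (i : Option (Fin n) → k) m,
        (hmem _).2 (hL2st g i ((hmem _).1 i.2))⟩) 1, one_ne_zero, ?_⟩
      rw [map_one, one_mul, chr_single]
      exact val_galois ρ hρ t ht g i
    · obtain ⟨c, a, hc, h⟩ := exists_exps l t u hyv (L := L2)
        (fun v hv => ⟨⟨v, (hmem v).2 hv⟩, rfl⟩)
        (Mon_mono t u (fun v hv => hL12 (Or.inl (Set.mem_iUnion.2 ⟨g, Set.mem_iUnion.2 ⟨j, hv⟩⟩)))
          (hL0y g j))
      refine ⟨c, a, hc, ?_⟩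
      rw [← h, hyρ]
      rfl
  choose c0 A0 hc0 hA0 using key
  exact ⟨
    { hρ := hρ
      hy := hyv
      uq := fun a c hc h => unq (l := l) Subtype.val_injective (fun i => hLn i i.2) hind a c hc h
      c0 := c0
      A0 := A0
      hc0 := hc0
      hA0 := hA0 }⟩

end ext

end Pool.Agent.H865.TT
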