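import Mathlib

/-!
# Valuations of a Dedekind domain: approximation, local rings, fractional ideals
-/

set_option autoImplicit false
set_option linter.unusedSectionVars false

namespace Pool.Agent.H865.TT

open IsDedekindDomain

section val

variable {O k : Type} [CommRing O] [IsDedekindDomain O] [Field k] [Algebra O k]
  [IsFractionRing O k]

/-- the additive valuation -/
noncomputable def vd (v : HeightOneSpectrum O) (c : k) : ℤ := -(WithZero.log (v.valuation k c))

theorem val_ne (v : HeightOneSpectrum O) {c : k} (hc : c ≠ 0) : v.valuation k c ≠ 0 :=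
  (Valuation.ne_zero_iff _).2 hc

theorem vd_mul (v : HeightOneSpectrum O) {c d : k} (hc : c ≠ 0) (hd : d ≠ 0) :
    vd v (c * d) = vd v c + vd v d := by
  unfold vd
  rw [map_mul, WithZero.log_mul (val_ne v hc) (val_ne v hd)]
  ring

theorem vd_one (v : HeightOneSpectrum O) : vd v (1 : k) = 0 := by
  unfold vd
  rw [map_one, WithZero.log_one, neg_zero]

theorem vd_inv (v : HeightOneSpectrum O) (c : k) : vd v c⁻¹ = -vd v c := by
  unfold vd
  rw [map_inv₀, WithZero.log_inv]

theorem vd_pow (v : HeightOneSpectrum O) (c : k) (n : ℕ) : vd v (c ^ n) = n * vd v c := by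
  unfold vd
  rw [map_pow, WithZero.log_pow]
  simp

theorem vd_zpow (v : HeightOneSpectrum O) (c : k) (n : ℤ) : vd v (c ^ n) = n * vd v c := by
  cases n with
  | ofNat n =>
    rw [Int.ofNat_eq_natCast, zpow_natCast, vd_pow]
  | negSucc n =>
    rw [zpow_negSucc, vd_inv, vd_pow, Int.negSucc_eq]
    push_cast
    ring

theorem vd_prod (v : HeightOneSpectrum O) {ι : Type} (s : Finset ι) (f : ι → k)
    (hf : ∀ i ∈ s, f i ≠ 0) : vd v (∏ i ∈ s, f i) = ∑ i ∈ s, vd v (f i) := by
  classical
  induction s using Finset.induction_on with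
  | empty => rw [Finset.prod_empty, Finset.sum_empty, vd_one]
  | insert i s hi ih =>
    rw [Finset.prod_insert hi, Finset.sum_insert hi, vd_mul v (hf i (Finset.mem_insert_self i s)),
      ih fun j hj => hf j (Finset.mem_insert_of_mem hj)]
    exact Finset.prod_ne_zero_iff.2 fun j hj => hf j (Finset.mem_insert_of_mem hj)

theorem le_vd_iff (v : HeightOneSpectrum O) {c : k} (hc : c ≠ 0) (e : ℤ) :
    e ≤ vd v c ↔ v.valuation k c ≤ WithZero.exp (-e) := by
  unfold vd
  rw [← WithZero.log_le_iff_le_exp (val_ne v hc)]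
  constructor <;> intro h <;> linarith

theorem vd_nonneg (v : HeightOneSpectrum O) (a : O) (ha : algebraMap O k a ≠ 0) :
    0 ≤ vd v (algebraMap O k a) := by
  rw [le_vd_iff v ha, neg_zero, WithZero.exp_zero]
  exact v.valuation_le_one a

theorem vd_pos_iff (v : HeightOneSpectrum O) (a : O) (ha : algebraMap O k a ≠ 0) :
    1 ≤ vd v (algebraMap O k a) ↔ a ∈ v.asIdeal := by
  rw [← v.valuation_lt_one_iff_mem (K := k) a]
  have h1 : vd v (algebraMap O k a) = -(WithZero.log (v.valuation k (algebraMap O k a))) := rfl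
  have h2 := WithZero.log_lt_log (val_ne v ha) (one_ne_zero (α := WithZero (Multiplicative ℤ)))
  rw [WithZero.log_one] at h2
  have h3 : (v.valuation k) (algebraMap O k a) < 1 ↔
      WithZero.log (v.valuation k (algebraMap O k a)) < 0 := h2.symm
  rw [h3, h1]
  omega

theorem exists_int {c : k} (h : ∀ v : HeightOneSpectrum O, 0 ≤ vd v c) :
    ∃ a : O, algebraMap O k a = c := by
  by_cases hc : c = 0
  · exact ⟨0, by rw [map_zero, hc]⟩
  · exact HeightOneSpectrum.mem_integers_of_valuation_le_one k c fun v => by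
      have h1 := (le_vd_iff v hc 0).1 (h v)
      rwa [neg_zero, WithZero.exp_zero] at h1

theorem vd_support (c : k) : {v : HeightOneSpectrum O | vd v c ≠ 0}.Finite := by
  by_cases hc : c = 0
  · have h1 : {v : HeightOneSpectrum O | vd v c ≠ 0} = ∅ := by
      ext v
      simp [vd, hc]
    rw [h1]
    exact Set.finite_empty
  have h1 := HeightOneSpectrum.Support.finite O c
  have h2 := HeightOneSpectrum.Support.finite O c⁻¹
  refine (h1.union h2).subset fun v hv => ?_
  rcases lt_or_gt_of_ne hv with h3 | h3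
  · left
    show 1 < v.valuation k c
    by_contra h4
    have h5 := (le_vd_iff v hc 0).2 (by rw [neg_zero, WithZero.exp_zero]; exact not_lt.1 h4)
    omega
  · right
    show 1 < v.valuation k c⁻¹
    by_contra h4
    have h5 := (le_vd_iff v (inv_ne_zero hc) 0).2 (by
      rw [neg_zero, WithZero.exp_zero]; exact not_lt.1 h4)
    rw [vd_inv] at h5
    have h6 : 0 < vd v c := h3
    omega

/-- **Approximation.** -/
theorem approx (T : Finset (HeightOneSpectrum O)) (e : HeightOneSpectrum O → ℤ) (𝔭 : Ideal O)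
    [𝔭.IsPrime] (hT : ∀ v ∈ T, v.asIdeal ≠ 𝔭) :
    ∃ y : O, y ∉ 𝔭 ∧ ∀ v ∈ T, e v ≤ vd v (algebraMap O k y) := by
  classical
  have hinj : Function.Injective (algebraMap O k) := IsFractionRing.injective O k
  have key : ∀ v ∈ T, ∃ y : O, y ∉ 𝔭 ∧ y ∈ v.asIdeal := by
    intro v hv
    by_contra hcon
    push Not at hcon
    have h1 : v.asIdeal ≤ 𝔭 := fun y hy => by
      by_contra h2
      exact hcon y h2 hy
    exact hT v hv (v.isMaximal.eq_of_le (Ideal.IsPrime.ne_top ‹_›) h1)
  choose! y hy1 hy2 using key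
  refine ⟨∏ v ∈ T, y v ^ (e v).toNat, ?_, ?_⟩
  · intro h
    rw [Ideal.IsPrime.prod_mem_iff] at h
    obtain ⟨v, hv, h1⟩ := h
    exact hy1 v hv (Ideal.IsPrime.mem_of_pow_mem ‹_› _ h1)
  · intro v hv
    have hne : ∀ v ∈ T, algebraMap O k (y v ^ (e v).toNat) ≠ 0 := by
      intro v hv h
      have h1 : y v ^ (e v).toNat = 0 := hinj (by rw [h, map_zero])
      have h2 : y v = 0 := eq_zero_of_pow_eq_zero h1
      exact hy1 v hv (by rw [h2]; exact 𝔭.zero_mem)
    rw [map_prod, vd_prod v _ _ hne, ← Finset.add_sum_erase _ _ hv]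
    have h1 : 0 ≤ ∑ x ∈ T.erase v, vd v (algebraMap O k (y x ^ (e x).toNat)) :=
      Finset.sum_nonneg fun x hx => vd_nonneg v _ (hne x (Finset.mem_of_mem_erase hx))
    have h2 : e v ≤ vd v (algebraMap O k (y v ^ (e v).toNat)) := by
      rw [map_pow, vd_pow]
      have h3 : algebraMap O k (y v) ≠ 0 := by
        intro h
        have h2 : y v = 0 := hinj (by rw [h, map_zero])
        exact hy1 v hv (by rw [h2]; exact 𝔭.zero_mem)
      have h4 := (vd_pos_iff v (y v) h3).2 (hy2 v hv)
      have h5 : e v ≤ ((e v).toNat : ℤ) := Int.self_le_toNat _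
      nlinarith [Int.natCast_nonneg (e v).toNat]
    linarith

/-- Elements of `k` in the local ring. -/
theorem exists_denom (𝔭 : Ideal O) [𝔭.IsPrime] (c : k)
    (hc : ∀ v : HeightOneSpectrum O, v.asIdeal = 𝔭 → 0 ≤ vd v c) :
    ∃ y : O, y ∉ 𝔭 ∧ ∃ a : O, algebraMap O k y * c = algebraMap O k a := by
  classical
  have hinj : Function.Injective (algebraMap O k) := IsFractionRing.injective O k
  by_cases hc0 : c = 0
  · exact ⟨1, (Ideal.ne_top_iff_one 𝔭).1 (Ideal.IsPrime.ne_top ‹_›), 0, by rw [hc0]; simp⟩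
  let T : Finset (HeightOneSpectrum O) :=
    (vd_support (O := O) c).toFinset.filter fun v => v.asIdeal ≠ 𝔭
  obtain ⟨y, hy, hyT⟩ := approx (k := k) T (fun v => -vd v c) 𝔭
    fun v hv => (Finset.mem_filter.1 hv).2
  have hy0 : algebraMap O k y ≠ 0 := by
    intro h
    have h2 : y = 0 := hinj (by rw [h, map_zero])
    exact hy (by rw [h2]; exact 𝔭.zero_mem)
  obtain ⟨a, ha⟩ := exists_int (O := O) (c := algebraMap O k y * c) (by
    intro v
    rw [vd_mul v hy0 hc0]
    by_cases hv : v.asIdeal = 𝔭
    · have := hc v hv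
      have := vd_nonneg v y hy0
      omega
    · by_cases h0 : vd v c = 0
      · have := vd_nonneg v y hy0
        omega
      · have := hyT v (Finset.mem_filter.2 ⟨(vd_support (O := O) c).mem_toFinset.2 h0, hv⟩)
        omega)
  exact ⟨y, hy, a, ha.symm⟩

/-- The fractional ideal with the exponents `e`. -/
noncomputable def fid (k : Type) [Field k] [Algebra O k] [IsFractionRing O k]
    (e : HeightOneSpectrum O → ℤ) : Submodule O k where
  carrier := {c | ∀ v : HeightOneSpectrum O, v.valuation k c ≤ WithZero.exp (-(e v))}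
  add_mem' := fun {a b} ha hb v => (Valuation.map_add_le _ (ha v) (hb v))
  zero_mem' := fun v => by rw [map_zero]; exact zero_le
  smul_mem' := fun r c hc v => by
    rw [Algebra.smul_def, map_mul]
    calc _ ≤ 1 * WithZero.exp (-(e v)) := mul_le_mul' (v.valuation_le_one r) (hc v)
      _ = _ := one_mul _

theorem mem_fid {e : HeightOneSpectrum O → ℤ} {c : k} (hc : c ≠ 0) :
    c ∈ fid k e ↔ ∀ v, e v ≤ vd v c := by
  constructor
  · intro h v
    exact (le_vd_iff v hc _).2 (h v)
  · intro h v
    exact (le_vd_iff v hc _).1 (h v)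

theorem fid_fg (e : HeightOneSpectrum O → ℤ) (he : {v | e v ≠ 0}.Finite) : (fid k e).FG := by
  classical
  have hinj : Function.Injective (algebraMap O k) := IsFractionRing.injective O k
  obtain ⟨d, hd0, hd⟩ : ∃ d : O, d ≠ 0 ∧ ∀ v, -e v ≤ vd v (algebraMap O k d) := by
    obtain ⟨d, hd, hdT⟩ := approx (k := k) he.toFinset (fun v => -e v) (⊥ : Ideal O)
      fun v _ => v.ne_bot
    have hd0 : d ≠ 0 := fun h => hd (by rw [h]; exact Ideal.zero_mem _)
    refine ⟨d, hd0, fun v => ?_⟩
    by_cases h0 : e v = 0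
    · rw [h0, neg_zero]
      exact vd_nonneg v d fun h => hd0 (hinj (by rw [h, map_zero]))
    · exact hdT v (he.mem_toFinset.2 h0)
  have hdk : algebraMap O k d ≠ 0 := fun h => hd0 (hinj (by rw [h, map_zero]))
  -- multiplication by `d`
  let f : fid k e →ₗ[O] k := (LinearMap.lsmul O k d).comp (fid k e).subtype
  have hf : ∀ x : fid k e, ∃ a : O, algebraMap O k a = f x := by
    intro x
    have hfx : f x = algebraMap O k d * (x : k) := by
      show d • (x : k) = _
      rw [Algebra.smul_def]
    by_cases hx : (x : k) = 0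
    · exact ⟨0, by rw [map_zero, hfx, hx, mul_zero]⟩
    · rw [hfx]
      apply exists_int
      intro v
      rw [vd_mul v hdk hx]
      have h1 := (mem_fid hx).1 x.2 v
      have h2 := hd v
      linarith
  choose g hg using hf
  have hfinj : Function.Injective f := by
    intro x y hxy
    have h1 : algebraMap O k d * (x : k) = algebraMap O k d * (y : k) := by
      have h2 : d • (x : k) = d • (y : k) := hxy
      rwa [Algebra.smul_def, Algebra.smul_def] at h2
    exact Subtype.ext (mul_left_cancel₀ hdk h1)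
  let G : fid k e →ₗ[O] O :=
    { toFun := g
      map_add' := fun x y => hinj (by rw [map_add, hg, hg, hg, map_add])
      map_smul' := fun r x => hinj (by
        rw [RingHom.id_apply, smul_eq_mul, map_mul, hg, hg, map_smul, Algebra.smul_def]) }
  have hG : Function.Injective G := by
    intro x y hxy
    apply hfinj
    rw [← hg x, ← hg y]
    exact congrArg _ hxy
  have : IsNoetherian O (fid k e) := isNoetherian_of_injective G hG
  exact (Submodule.fg_top _).1 (IsNoetherian.noetherian ⊤)

end val

end Pool.Agent.H865.TT
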