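import Pool.Agent.H865.TT.Cht
import Pool.Agent.H865.TT.Val

/-!
# Arrangements of linear forms over a Dedekind domain: the module and the regularity of its charts
-/

set_option autoImplicit false
set_option linter.unusedSectionVars false

namespace Pool.Agent.H865.TT

open IsDedekindDomain MvPolynomial Module Pool.Agent.K3h75.TO Pool.Agent.H918R2.Quad

section glo

variable {O k : Type} [CommRing O] [IsDedekindDomain O] [Field k] [Algebra O k]
  [IsFractionRing O k]

section loc

variable (𝔭 : Ideal O) [𝔭.IsPrime] {R : Type} [CommRing R] [Algebra O R]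
  [IsLocalization.AtPrime R 𝔭] [Algebra R k] [IsScalarTower O R k]

theorem mem_R (c : k) (hc : ∀ v : HeightOneSpectrum O, v.asIdeal = 𝔭 → 0 ≤ vd v c) :
    ∃ r : R, algebraMap R k r = c := by
  have hinj : Function.Injective (algebraMap O k) := IsFractionRing.injective O k
  obtain ⟨y, hy, a, ha⟩ := exists_denom 𝔭 c hc
  refine ⟨IsLocalization.mk' R a (⟨y, hy⟩ : 𝔭.primeCompl), ?_⟩
  have hy0 : algebraMap O k y ≠ 0 := by
    intro h
    have h2 : y = 0 := hinj (by rw [h, map_zero])
    exact hy (by rw [h2]; exact 𝔭.zero_mem)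
  have h1 := IsLocalization.mk'_spec R a (⟨y, hy⟩ : 𝔭.primeCompl)
  have h2 := congrArg (algebraMap R k) h1
  rw [map_mul, ← IsScalarTower.algebraMap_apply, ← IsScalarTower.algebraMap_apply, ← ha,
    mul_comm] at h2
  exact mul_left_cancel₀ hy0 h2

theorem unit_R [IsFractionRing R k] {c : k} (hc0 : c ≠ 0)
    (hc : ∀ v : HeightOneSpectrum O, v.asIdeal = 𝔭 → vd v c = 0) :
    ∃ w : Rˣ, algebraMap R k w = c := by
  obtain ⟨r, hr⟩ := mem_R 𝔭 (R := R) c fun v hv => (hc v hv).ge
  obtain ⟨r', hr'⟩ := mem_R 𝔭 (R := R) c⁻¹ fun v hv => by rw [vd_inv, hc v hv, neg_zero]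
  have h1 : r * r' = 1 := by
    apply IsFractionRing.injective R k
    rw [map_mul, hr, hr', map_one, mul_inv_cancel₀ hc0]
  exact ⟨⟨r, r', h1, by rw [mul_comm]; exact h1⟩, hr⟩

theorem vd_R [IsFractionRing R k] (v : HeightOneSpectrum O) (hv : v.asIdeal = 𝔭) {r : R}
    (hr : r ≠ 0) : 0 ≤ vd v (algebraMap R k r) := by
  have hinj : Function.Injective (algebraMap O k) := IsFractionRing.injective O k
  obtain ⟨a, y, rfl⟩ := IsLocalization.exists_mk'_eq 𝔭.primeCompl r
  have hy0 : algebraMap O k y ≠ 0 := by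
    intro h
    have h2 : (y : O) = 0 := hinj (by rw [h, map_zero])
    exact y.2 (by rw [h2]; exact 𝔭.zero_mem)
  have h1 := IsLocalization.mk'_spec R a y
  have h2 := congrArg (algebraMap R k) h1
  rw [map_mul, ← IsScalarTower.algebraMap_apply, ← IsScalarTower.algebraMap_apply] at h2
  have h3 : algebraMap R k (IsLocalization.mk' R a y) ≠ 0 := by
    intro h
    exact hr (IsFractionRing.injective R k (by rw [h, map_zero]))
  have h4 := vd_mul v h3 hy0
  rw [h2] at h4
  have ha0 : algebraMap O k a ≠ 0 := by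
    rw [← h2]; exact mul_ne_zero h3 hy0
  have h5 := vd_nonneg v a ha0
  have h6 : ¬ 1 ≤ vd v (algebraMap O k (y : O)) := by
    rw [vd_pos_iff v _ hy0, hv]
    exact y.2
  have h7 := vd_nonneg v (y : O) hy0
  omega

theorem irr_R [IsDomain R] [IsDiscreteValuationRing R] [IsFractionRing R k]
    (v : HeightOneSpectrum O) (hv : v.asIdeal = 𝔭) {π : O} (hπ : vd v (algebraMap O k π) = 1) :
    Irreducible (algebraMap O R π) := by
  have hinj : Function.Injective (algebraMap R k) := IsFractionRing.injective R k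
  have hvv : ∀ v' : HeightOneSpectrum O, v'.asIdeal = 𝔭 → v' = v := fun v' h' =>
    HeightOneSpectrum.ext (h'.trans hv.symm)
  have hπ0 : algebraMap O k π ≠ 0 := by
    intro h
    rw [h] at hπ
    simp [vd] at hπ
  rw [IsDiscreteValuationRing.irreducible_iff_uniformizer]
  apply le_antisymm
  · intro x hx
    rw [Ideal.mem_span_singleton]
    by_cases hx0 : x = 0
    · rw [hx0]; exact dvd_zero _
    have hxk : algebraMap R k x ≠ 0 := fun h => hx0 (hinj (by rw [h, map_zero]))
    have h1 : 1 ≤ vd v (algebraMap R k x) := by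
      have h2 := vd_R 𝔭 (k := k) v hv hx0
      by_contra h3
      have h4 : vd v (algebraMap R k x) = 0 := by omega
      obtain ⟨w, hw⟩ := unit_R 𝔭 (R := R) hxk fun v' h' => by rw [hvv v' h', h4]
      have h5 : (w : R) = x := hinj hw
      rw [IsLocalRing.mem_maximalIdeal, mem_nonunits_iff] at hx
      exact hx (h5 ▸ w.isUnit)
    obtain ⟨r, hr⟩ := mem_R 𝔭 (R := R) (algebraMap R k x * (algebraMap O k π)⁻¹) fun v' h' => by
      rw [hvv v' h', vd_mul v hxk (inv_ne_zero hπ0), vd_inv, hπ]
      omega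
    refine ⟨r, hinj ?_⟩
    rw [map_mul, hr, ← IsScalarTower.algebraMap_apply]
    field_simp
  · rw [Ideal.span_singleton_le_iff_mem, IsLocalRing.mem_maximalIdeal, mem_nonunits_iff]
    intro hu
    obtain ⟨w, hw⟩ := hu
    have h1 : algebraMap R k ((w⁻¹ : Rˣ) : R) = (algebraMap O k π)⁻¹ := by
      apply eq_inv_of_mul_eq_one_left
      rw [IsScalarTower.algebraMap_apply O R k, ← hw, ← map_mul]
      simp
    have h2 := vd_R 𝔭 (k := k) v hv (r := ((w⁻¹ : Rˣ) : R)) (Units.ne_zero _)
    rw [h1, vd_inv, hπ] at h2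
    omega

end loc

end glo

end Pool.Agent.H865.TT
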