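import Pool.Agent.H865.TT.Glo

/-!
# Arrangements of linear forms over a Dedekind domain: the lattice and the local data
-/

set_option autoImplicit false
set_option linter.unusedSectionVars false

namespace Pool.Agent.H865.TT

open IsDedekindDomain MvPolynomial Module Pool.Agent.K3h75.TO Pool.Agent.H918R2.Quad

section chr

variable {κ F : Type} [Fintype κ] [Field F]

/-- the character of a family -/
noncomputable def chr (y : κ → F) (a : κ → ℤ) : F := ∏ i, y i ^ a i

theorem chr_zero (y : κ → F) : chr y 0 = 1 := by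
  unfold chr
  simp

theorem chr_add {y : κ → F} (hy : ∀ i, y i ≠ 0) (a b : κ → ℤ) :
    chr y (a + b) = chr y a * chr y b := by
  unfold chr
  rw [← Finset.prod_mul_distrib]
  exact Finset.prod_congr rfl fun i _ => zpow_add₀ (hy i) _ _

theorem chr_single [DecidableEq κ] (y : κ → F) (i : κ) : chr y (Pi.single i 1) = y i := by
  unfold chr
  rw [Finset.prod_eq_single i]
  · rw [Pi.single_eq_same, zpow_one]
  · intro j _ hj
    rw [Pi.single_eq_of_ne hj, zpow_zero]
  · intro h
    exact absurd (Finset.mem_univ i) h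

theorem chr_ne_zero {y : κ → F} (hy : ∀ i, y i ≠ 0) (a : κ → ℤ) : chr y a ≠ 0 :=
  Finset.prod_ne_zero_iff.2 fun i _ => zpow_ne_zero _ (hy i)

theorem chr_map {F' : Type} [Field F'] (f : F →+* F') (y : κ → F) (a : κ → ℤ) :
    f (chr y a) = chr (fun i => f (y i)) a := by
  unfold chr
  rw [map_prod]
  exact Finset.prod_congr rfl fun i _ => map_zpow₀ f _ _

end chr

section arr

variable {O k : Type} [CommRing O] [IsDedekindDomain O] [Field k] [Algebra O k]
  [IsFractionRing O k] {n s : ℕ} {ι₁ : Type} [Fintype ι₁] [DecidableEq ι₁]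
  (T : Finset (HeightOneSpectrum O))

/-- the lattice -/
abbrev Lat (ι₁ : Type) (s : ℕ) {O : Type} [CommRing O] [IsDedekindDomain O]
    (T : Finset (HeightOneSpectrum O)) : Type :=
  (ι₁ ⊕ Fin s → ℤ) × ({v : HeightOneSpectrum O // v ∈ T} → ℤ)

/-- the forms, with the constant form -/
def wfn (l : ι₁ → Option (Fin n) → k) (i : Option ι₁) : Option (Fin n) → k :=
  i.elim (Pi.single none 1) l

open Classical in
/-- the arrangement -/
noncomputable def mkArr (s : ℕ) (l : ι₁ → Option (Fin n) → k)
    (hfull : ∃ β : Option (Fin n) → Option ι₁, (Matrix.of fun a m => wfn l (β a) m).det ≠ 0) :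
    Arr k n s (Option ι₁) {v : HeightOneSpectrum O // v ∈ T} (Lat ι₁ s T) where
  w := wfn l
  i₀ := none
  w0 := rfl
  ω := fun i => i.elim 0 (fun i => (Pi.single (Sum.inl i) 1, 0))
  ω0 := rfl
  υ := fun j => (Pi.single (Sum.inr j) 1, 0)
  ε := fun q => (0, Pi.single q 1)
  D := fun β q => vd (q : HeightOneSpectrum O) (Matrix.of fun a m => wfn l (β a) m).det
  gen := by
    rw [AddSubgroup.eq_top_iff']
    rintro ⟨a, e⟩
    set C := AddSubgroup.closure (Set.range (fun i : Option ι₁ =>
      (i.elim 0 (fun i => (Pi.single (Sum.inl i) 1, 0)) : Lat ι₁ s T)) ∪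
      Set.range (fun j : Fin s => ((Pi.single (Sum.inr j) 1, 0) : Lat ι₁ s T)) ∪
      Set.range (fun q : {v : HeightOneSpectrum O // v ∈ T} =>
        ((0, Pi.single q 1) : Lat ι₁ s T))) with hC
    have h1 : ∀ i : ι₁ ⊕ Fin s, ((Pi.single i 1, 0) : Lat ι₁ s T) ∈ C := by
      rintro (i | j)
      · exact AddSubgroup.subset_closure (Or.inl (Or.inl ⟨some i, rfl⟩))
      · exact AddSubgroup.subset_closure (Or.inl (Or.inr ⟨j, rfl⟩))
    have h2 : ∀ q, ((0, Pi.single q 1) : Lat ι₁ s T) ∈ C := fun q =>
      AddSubgroup.subset_closure (Or.inr ⟨q, rfl⟩)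
    have h3 : ((a, e) : Lat ι₁ s T) = ∑ i, a i • ((Pi.single i 1, 0) : Lat ι₁ s T) +
        ∑ q, e q • ((0, Pi.single q 1) : Lat ι₁ s T) := by
      ext i
      · rcases i with i | i <;> simp [Finset.sum_apply, Pi.single_apply, Prod.fst_sum]
      · simp [Finset.sum_apply, Pi.single_apply, Prod.snd_sum]
    rw [h3]
    exact C.add_mem (C.sum_mem fun i _ => C.zsmul_mem (h1 i) _)
      (C.sum_mem fun q _ => C.zsmul_mem (h2 q) _)
  φ1 := fun f hf => ⟨
    { toFun := fun x => ∑ i : ι₁, x.1 (Sum.inl i) * f (some i)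
      map_zero' := by simp
      map_add' := fun x y => by simp [add_mul, Finset.sum_add_distrib] }, by
    constructor
    · rintro (_ | i)
      · simp [hf]
      · simp [Pi.single_apply]
    · intro q
      simp⟩
  φ2 := fun g => ⟨
    { toFun := fun x => ∑ q, x.2 q * g q
      map_zero' := by simp
      map_add' := fun x y => by simp [add_mul, Finset.sum_add_distrib] }, by
    intro q
    simp [Pi.single_apply]⟩
  full := hfull

end arr

end Pool.Agent.H865.TT
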