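import Pool.Agent.H865.TT.Glo2

/-!
# Arrangements of linear forms over a Dedekind domain: the local data
-/

set_option autoImplicit false
set_option linter.unusedSectionVars false

namespace Pool.Agent.H865.TT

open IsDedekindDomain MvPolynomial Module Pool.Agent.K3h75.TO Pool.Agent.H918R2.Quad

section arr

variable {O k : Type} [CommRing O] [IsDedekindDomain O] [Field k] [Algebra O k]
  [IsFractionRing O k] {n s : ℕ} {ι₁ : Type} [Fintype ι₁] [DecidableEq ι₁]
  (T : Finset (HeightOneSpectrum O))

/-- the values of the forms and of the other variables -/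
noncomputable def yv {F : Type} [Field F] [Algebra k F] (l : ι₁ → Option (Fin n) → k)
    (t : Fin n → F) (u : Fin s → F) : ι₁ ⊕ Fin s → F :=
  Sum.elim (fun i => val t (l i)) u

/-- the local character -/
noncomputable def Yc {F R : Type} [Field F] [Algebra k F] [CommRing R] [Algebra R F]
    (l : ι₁ → Option (Fin n) → k) (t : Fin n → F) (u : Fin s → F)
    (ϖ : {v : HeightOneSpectrum O // v ∈ T} → R) (κ : Lat ι₁ s T) : F :=
  chr (yv l t u) κ.1 * chr (fun q => algebraMap R F (ϖ q)) κ.2

open Classical in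
theorem locD {F R : Type} [Field F] [Algebra k F] [CommRing R] [IsDomain R] [Algebra R F]
    [Algebra R k] [IsFractionRing R k] [IsScalarTower R k F] [Algebra O R] [IsScalarTower O R k]
    (𝔭 : Ideal O) [𝔭.IsPrime] [IsLocalization.AtPrime R 𝔭]
    (l : ι₁ → Option (Fin n) → k)
    (hfull : ∃ β : Option (Fin n) → Option ι₁, (Matrix.of fun a m => wfn l (β a) m).det ≠ 0)
    (hdet : ∀ β : Option (Fin n) → Option ι₁, (Matrix.of fun a m => wfn l (β a) m).det ≠ 0 →
      ∀ v : HeightOneSpectrum O, v ∉ T → vd v (Matrix.of fun a m => wfn l (β a) m).det = 0)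
    (t : Fin n → F) (u : Fin s → F) (hind : AlgebraicIndependent k (Sum.elim t u))
    (hy : ∀ i, yv l t u i ≠ 0) :
    ∃ (ϖ : {v : HeightOneSpectrum O // v ∈ T} → R) (c₀ : R),
      LocD (mkArr T s l hfull) t u (Yc T l t u ϖ) ϖ c₀ ∧ (∀ q, ϖ q ≠ 0) ∧
      ∀ (q : {v : HeightOneSpectrum O // v ∈ T}) (v : HeightOneSpectrum O), v.asIdeal = 𝔭 →
        vd v (algebraMap R k (ϖ q)) = if v = q then 1 else 0 := by
  classical
  have hOk : Function.Injective (algebraMap O k) := IsFractionRing.injective O k
  have hRk : Function.Injective (algebraMap R k) := IsFractionRing.injective R k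
  have hRF : Function.Injective (algebraMap R F) := by
    rw [IsScalarTower.algebraMap_eq R k F]
    exact (algebraMap k F).injective.comp hRk
  obtain ⟨π, hπ0, hπ⟩ : ∃ π : O, algebraMap O k π ≠ 0 ∧
      ∀ v : HeightOneSpectrum O, v.asIdeal = 𝔭 → vd v (algebraMap O k π) = 1 := by
    by_cases hv : ∃ v : HeightOneSpectrum O, v.asIdeal = 𝔭
    · obtain ⟨v, hv⟩ := hv
      obtain ⟨π, hπ⟩ := v.intValuation_exists_uniformizer
      have h1 : vd v (algebraMap O k π) = 1 := by
        unfold vd
        rw [show v.valuation k (algebraMap O k π) = v.intValuation π from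
          v.valuation_of_algebraMap π, hπ, WithZero.log_exp]
        norm_num
      refine ⟨π, ?_, fun v' hv' => ?_⟩
      · intro h
        rw [h] at h1
        simp [vd] at h1
      · have : v' = v := HeightOneSpectrum.ext (hv'.trans hv.symm)
        rw [this, h1]
    · exact ⟨1, by rw [map_one]; exact one_ne_zero, fun v hv' => absurd ⟨v, hv'⟩ hv⟩
  have hπR : algebraMap R k (algebraMap O R π) = algebraMap O k π :=
    (IsScalarTower.algebraMap_apply O R k π).symm
  set ϖ : {v : HeightOneSpectrum O // v ∈ T} → R := fun q =>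
    if (q : HeightOneSpectrum O).asIdeal = 𝔭 then algebraMap O R π else 1 with hϖ
  have hϖk : ∀ q, algebraMap R k (ϖ q) =
      if (q : HeightOneSpectrum O).asIdeal = 𝔭 then algebraMap O k π else 1 := by
    intro q
    rw [hϖ]
    simp only
    split_ifs
    · exact hπR
    · exact map_one _
  have hϖk0 : ∀ q, algebraMap R k (ϖ q) ≠ 0 := by
    intro q
    rw [hϖk]
    split_ifs
    · exact hπ0
    · exact one_ne_zero
  have hϖ0 : ∀ q, ϖ q ≠ 0 := fun q h => hϖk0 q (by rw [h, map_zero])
  have hϖF : ∀ q, algebraMap R F (ϖ q) ≠ 0 := fun q h => hϖ0 q (hRF (by rw [h, map_zero]))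
  have hvd : ∀ (q : {v : HeightOneSpectrum O // v ∈ T}) (v : HeightOneSpectrum O),
      v.asIdeal = 𝔭 → vd v (algebraMap R k (ϖ q)) = if v = q then 1 else 0 := by
    intro q v hv
    rw [hϖk]
    by_cases hq : (q : HeightOneSpectrum O).asIdeal = 𝔭
    · have h1 : v = q := HeightOneSpectrum.ext (hv.trans hq.symm)
      rw [if_pos hq, if_pos h1]
      exact hπ v hv
    · have h1 : v ≠ q := fun h => hq (h ▸ hv)
      rw [if_neg hq, if_neg h1, vd_one]
  refine ⟨ϖ, algebraMap O R π, ?_, hϖ0, hvd⟩
  refine ⟨⟨?_, ?_⟩, ?_, ?_, ?_, hind, ?_, ?_, ?_, ?_, ?_⟩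
  · show chr (yv l t u) 0 * chr (fun q => algebraMap R F (ϖ q)) 0 = 1
    rw [chr_zero, chr_zero, one_mul]
  · intro a b
    show chr (yv l t u) (a.1 + b.1) * chr (fun q => algebraMap R F (ϖ q)) (a.2 + b.2) =
      (chr (yv l t u) a.1 * chr (fun q => algebraMap R F (ϖ q)) a.2) *
        (chr (yv l t u) b.1 * chr (fun q => algebraMap R F (ϖ q)) b.2)
    rw [chr_add hy, chr_add hϖF]
    ring
  · rintro (_ | i)
    · show chr (yv l t u) 0 * chr (fun q => algebraMap R F (ϖ q)) 0 =
        val t (Pi.single none (1 : k))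
      rw [chr_zero, chr_zero, one_mul]
      unfold val
      simp
    · show chr (yv l t u) (Pi.single (Sum.inl i) 1) * chr (fun q => algebraMap R F (ϖ q)) 0 =
        val t (l i)
      rw [chr_zero, chr_single, mul_one]
      rfl
  · intro j
    show chr (yv l t u) (Pi.single (Sum.inr j) 1) * chr (fun q => algebraMap R F (ϖ q)) 0 = u j
    rw [chr_zero, chr_single, mul_one]
    rfl
  · intro q
    show chr (yv l t u) 0 * chr (fun q => algebraMap R F (ϖ q)) (Pi.single q 1) =
      algebraMap R F (ϖ q)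
    rw [chr_zero, chr_single, one_mul]
  · intro β hβ
    have h1 : ∏ q, (algebraMap R k (ϖ q)) ^ ((mkArr T s l hfull).D β q) ≠ 0 :=
      Finset.prod_ne_zero_iff.2 fun q _ => zpow_ne_zero _ (hϖk0 q)
    obtain ⟨w, hw⟩ := unit_R 𝔭 (R := R) (c := ((mkArr T s l hfull).mat β).det *
      (∏ q, (algebraMap R k (ϖ q)) ^ ((mkArr T s l hfull).D β q))⁻¹)
      (mul_ne_zero hβ (inv_ne_zero h1)) (by
        intro v hv
        rw [vd_mul v hβ (inv_ne_zero h1), vd_inv, vd_prod v _ _ fun q _ =>
          zpow_ne_zero _ (hϖk0 q)]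
        have h2 : ∀ q : {v : HeightOneSpectrum O // v ∈ T},
            vd v ((algebraMap R k (ϖ q)) ^ ((mkArr T s l hfull).D β q)) =
            if v = q then vd v ((mkArr T s l hfull).mat β).det else 0 := by
          intro q
          rw [vd_zpow, hvd q v hv]
          split_ifs with h3
          · rw [mul_one, h3]
            rfl
          · rw [mul_zero]
        rw [Finset.sum_congr rfl fun q _ => h2 q]
        by_cases hvT : v ∈ T
        · rw [Finset.sum_eq_single (⟨v, hvT⟩ : {v : HeightOneSpectrum O // v ∈ T})]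
          · rw [if_pos rfl, add_neg_cancel]
          · intro q _ hq
            exact if_neg fun h => hq (Subtype.ext h.symm)
          · intro h
            exact absurd (Finset.mem_univ _) h
        · have h3 : vd v ((mkArr T s l hfull).mat β).det = 0 := hdet β hβ v hvT
          rw [h3]
          simp)
    refine ⟨w, ?_⟩
    rw [hw, inv_mul_cancel_right₀ h1]
  · intro q
    by_cases hq : (q : HeightOneSpectrum O).asIdeal = 𝔭
    · right
      have h0 : 𝔭 ≠ ⊥ := fun h => (q : HeightOneSpectrum O).ne_bot (hq.trans h)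
      have hdvr : IsDiscreteValuationRing R :=
        IsLocalization.AtPrime.isDiscreteValuationRing_of_dedekind_domain O h0 R
      refine ⟨hdvr, ?_⟩
      rw [hϖ]
      simp only [if_pos hq]
      exact irr_R 𝔭 (k := k) q hq (hπ q hq)
    · left
      rw [hϖ]
      exact if_neg hq
  · intro q q' hq hq'
    have h1 : (q : HeightOneSpectrum O).asIdeal = 𝔭 := by
      by_contra h
      exact hq (if_neg h)
    have h2 : (q' : HeightOneSpectrum O).asIdeal = 𝔭 := by
      by_contra h
      exact hq' (if_neg h)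
    exact Subtype.ext (HeightOneSpectrum.ext (h1.trans h2.symm))
  · intro h
    apply hπ0
    rw [← hπR, h, map_zero]
  · intro r hr
    have hrk : algebraMap R k r ≠ 0 := fun h => hr (hRk (by rw [h, map_zero]))
    obtain ⟨N, hN⟩ : ∃ N : ℕ, ∀ v : HeightOneSpectrum O, v.asIdeal = 𝔭 →
        vd v (algebraMap R k r) = N := by
      by_cases hv : ∃ v : HeightOneSpectrum O, v.asIdeal = 𝔭
      · obtain ⟨v, hv⟩ := hv
        refine ⟨(vd v (algebraMap R k r)).toNat, fun v' hv' => ?_⟩
        have : v' = v := HeightOneSpectrum.ext (hv'.trans hv.symm)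
        rw [this, Int.toNat_of_nonneg (vd_R 𝔭 v hv hr)]
      · exact ⟨0, fun v hv' => absurd ⟨v, hv'⟩ hv⟩
    obtain ⟨w, hw⟩ := unit_R 𝔭 (R := R) (c := (algebraMap O k π) ^ N * (algebraMap R k r)⁻¹)
      (mul_ne_zero (pow_ne_zero _ hπ0) (inv_ne_zero hrk)) (by
        intro v hv
        rw [vd_mul v (pow_ne_zero _ hπ0) (inv_ne_zero hrk), vd_inv, vd_pow, hπ v hv, hN v hv]
        ring)
    refine ⟨N, w, hRk ?_⟩
    rw [map_mul, hw, map_pow, hπR]
    field_simp

end arr

end Pool.Agent.H865.TT
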