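import Pool.Agent.H865.TT.Glo3

/-!
# Arrangements of linear forms over a Dedekind domain: the module, regularity of all charts
-/

set_option autoImplicit false
set_option linter.unusedSectionVars false

namespace Pool.Agent.H865.TT

open IsDedekindDomain MvPolynomial Module Pool.Agent.K3h75.TO Pool.Agent.H918R2.Quad

section arr

variable {O k : Type} [CommRing O] [IsDedekindDomain O] [Field k] [Algebra O k]
  [IsFractionRing O k] {n s : ℕ} {ι₁ : Type} [Fintype ι₁] [DecidableEq ι₁]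
  (T : Finset (HeightOneSpectrum O))

open Classical in
/-- extension by zero -/
noncomputable def ex0 (e : {v : HeightOneSpectrum O // v ∈ T} → ℤ) (v : HeightOneSpectrum O) : ℤ :=
  if h : v ∈ T then e ⟨v, h⟩ else 0

theorem ex0_fin (e : {v : HeightOneSpectrum O // v ∈ T} → ℤ) : {v | ex0 T e v ≠ 0}.Finite := by
  classical
  refine T.finite_toSet.subset fun v hv => ?_
  by_contra h
  exact hv (dif_neg h)

theorem ex0_sum (e : {v : HeightOneSpectrum O // v ∈ T} → ℤ) (v : HeightOneSpectrum O)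
    (f : {v : HeightOneSpectrum O // v ∈ T} → ℤ) (hf : ∀ q : {v : HeightOneSpectrum O // v ∈ T},
      (q = v → f q = 1) ∧ (¬ (q : HeightOneSpectrum O) = v → f q = 0)) :
    ∑ q, e q * f q = ex0 T e v := by
  classical
  unfold ex0
  split_ifs with h
  · rw [Finset.sum_eq_single (⟨v, h⟩ : {v : HeightOneSpectrum O // v ∈ T})]
    · rw [(hf _).1 rfl, mul_one]
    · intro q _ hq
      rw [(hf q).2 fun h' => hq (Subtype.ext h'), mul_zero]
    · intro h'
      exact absurd (Finset.mem_univ _) h'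
  · refine Finset.sum_eq_zero fun q _ => ?_
    rw [(hf q).2 fun h' => h (h' ▸ q.2), mul_zero]

theorem vd_chr {κ : Type} [Fintype κ] (v : HeightOneSpectrum O) {y : κ → k} (hy : ∀ i, y i ≠ 0)
    (a : κ → ℤ) : vd v (chr y a) = ∑ i, a i * vd v (y i) := by
  unfold chr
  rw [vd_prod v _ _ fun i _ => zpow_ne_zero _ (hy i)]
  exact Finset.sum_congr rfl fun i _ => vd_zpow v _ _

variable (k) in
/-- the module -/
noncomputable def MM {F : Type} [Field F] [Algebra k F] [Algebra O F] (y : ι₁ ⊕ Fin s → F)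
    (P : Finset (Lat ι₁ s T)) : Submodule O F :=
  Submodule.span O {z | ∃ κ ∈ P, ∃ c ∈ fid k (ex0 T κ.2), z = algebraMap k F c * chr y κ.1}

variable {F : Type} [Field F] [Algebra k F] [Algebra O F] [IsScalarTower O k F]

theorem mem_MM {y : ι₁ ⊕ Fin s → F} {P : Finset (Lat ι₁ s T)} {κ : Lat ι₁ s T} (hκ : κ ∈ P)
    {c : k} (hc : c ∈ fid k (ex0 T κ.2)) : algebraMap k F c * chr y κ.1 ∈ MM k T y P :=
  Submodule.subset_span ⟨κ, hκ, c, hc, rfl⟩

theorem MM_fg (y : ι₁ ⊕ Fin s → F) (P : Finset (Lat ι₁ s T)) : (MM k T y P).FG := by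
  classical
  let Lm : Lat ι₁ s T → (k →ₗ[O] F) := fun κ =>
    (LinearMap.mulRight O (chr y κ.1)).comp (IsScalarTower.toAlgHom O k F).toLinearMap
  have hLm : ∀ κ c, Lm κ c = algebraMap k F c * chr y κ.1 := fun κ c => rfl
  have h1 : MM k T y P = ⨆ κ ∈ P, (fid k (ex0 T κ.2)).map (Lm κ) := by
    apply le_antisymm
    · unfold MM
      rw [Submodule.span_le]
      rintro z ⟨κ, hκ, c, hc, rfl⟩
      have h2 : (fid k (ex0 T κ.2)).map (Lm κ) ≤ ⨆ κ ∈ P, (fid k (ex0 T κ.2)).map (Lm κ) :=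
        le_iSup₂_of_le κ hκ le_rfl
      exact h2 ⟨c, hc, hLm κ c⟩
    · refine iSup₂_le fun κ hκ => ?_
      rintro _ ⟨c, hc, rfl⟩
      rw [hLm]
      exact mem_MM T hκ hc
  rw [h1]
  exact Submodule.fg_biSup P _ fun κ _ => (fid_fg _ (ex0_fin T κ.2)).map _

/-- **Regularity of all charts.** -/
theorem MM_reg (l : ι₁ → Option (Fin n) → k)
    (hfull : ∃ β : Option (Fin n) → Option ι₁, (Matrix.of fun a m => wfn l (β a) m).det ≠ 0)
    (hdet : ∀ β : Option (Fin n) → Option ι₁, (Matrix.of fun a m => wfn l (β a) m).det ≠ 0 →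
      ∀ v : HeightOneSpectrum O, v ∉ T → vd v (Matrix.of fun a m => wfn l (β a) m).det = 0)
    (t : Fin n → F) (u : Fin s → F) (hind : AlgebraicIndependent k (Sum.elim t u))
    (hy : ∀ i, yv l t u i ≠ 0) (P : Finset (Lat ι₁ s T))
    (hP : ∀ μ ∈ P, ∃ v ∈ P,
      (∃ s : Multiset (Lat ι₁ s T), (∀ κ ∈ s, κ ∈ P) ∧ (s.card + 1) • μ = v + s.sum) ∧
      ∃ (N : ℕ) (b : Basis (Fin N) ℤ (Lat ι₁ s T)), (∀ i, v + b i ∈ P) ∧
        (∀ κ ∈ P, ∀ i, 0 ≤ b.repr (κ - v) i) ∧ (mkArr T s l hfull).Comp b)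
    (𝔭 : Ideal O) [𝔭.IsPrime] : RegAt 𝔭 (MM k T (yv l t u) P) := by
  classical
  let R := Localization.subalgebra.ofField k 𝔭.primeCompl 𝔭.primeCompl_le_nonZeroDivisors
  have : IsLocalization.AtPrime R 𝔭 := Localization.subalgebra.isLocalization_ofField k _ _
  have : IsFractionRing R k := Localization.subalgebra.isFractionRing_ofField k _ _
  have : IsDedekindDomain R := IsLocalization.isDedekindDomain O
    𝔭.primeCompl_le_nonZeroDivisors R
  have : IsScalarTower O R F := IsScalarTower.of_algebraMap_eq fun r => by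
    rw [IsScalarTower.algebraMap_apply O k F]; rfl
  have : IsScalarTower R k F := IsScalarTower.of_algebraMap_eq fun r => rfl
  have hRk : Function.Injective (algebraMap R k) := IsFractionRing.injective R k
  have hOk : Function.Injective (algebraMap O k) := IsFractionRing.injective O k
  obtain ⟨ϖ, c₀, hL, hϖ0, hvd⟩ := locD (F := F) (R := R) T 𝔭 l hfull hdet t u hind hy
  have hϖk0 : ∀ q, algebraMap R k (ϖ q) ≠ 0 := fun q h => hϖ0 q (hRk (by rw [h, map_zero]))
  -- the power of the uniformizer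
  let Pk : Lat ι₁ s T → k := fun κ => chr (fun q => algebraMap R k (ϖ q)) κ.2
  have hPk0 : ∀ κ, Pk κ ≠ 0 := fun κ => chr_ne_zero hϖk0 _
  have hPkF : ∀ κ, algebraMap k F (Pk κ) = chr (fun q => algebraMap R F (ϖ q)) κ.2 := by
    intro κ
    show algebraMap k F (chr (fun q => algebraMap R k (ϖ q)) κ.2) = _
    rw [chr_map]
    congr 1
  have hPkv : ∀ κ (v : HeightOneSpectrum O), v.asIdeal = 𝔭 → vd v (Pk κ) = ex0 T κ.2 v := by
    intro κ v hv
    show vd v (chr (fun q => algebraMap R k (ϖ q)) κ.2) = _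
    rw [vd_chr v hϖk0]
    refine ex0_sum T κ.2 v (fun q => vd v (algebraMap R k (ϖ q))) fun q => ?_
    constructor
    · intro h
      show vd v (algebraMap R k (ϖ q)) = 1
      rw [hvd q v hv, if_pos h.symm]
    · intro h
      show vd v (algebraMap R k (ϖ q)) = 0
      rw [hvd q v hv, if_neg fun h' => h h'.symm]
  have hY : ∀ κ, Yc T l t u ϖ κ = algebraMap k F (Pk κ) * chr (yv l t u) κ.1 := by
    intro κ
    rw [hPkF, mul_comm]
    rfl
  refine (mkArr T s l hfull).cht hL P hP 𝔭 (MM k T (yv l t u) P) ?_ ?_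
  · -- the module is in the span
    have h1 : MM k T (yv l t u) P ≤
        (Submodule.span R (Yc T l t u ϖ '' (P : Set (Lat ι₁ s T)))).restrictScalars O := by
      unfold MM
      rw [Submodule.span_le]
      rintro z ⟨κ, hκ, c, hc, rfl⟩
      by_cases hc0 : c = 0
      · rw [hc0, map_zero, zero_mul]
        exact Submodule.zero_mem _
      · obtain ⟨r, hr⟩ := mem_R 𝔭 (R := R) (c * (Pk κ)⁻¹) (by
          intro v hv
          rw [vd_mul v hc0 (inv_ne_zero (hPk0 κ)), vd_inv, hPkv κ v hv]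
          have := (mem_fid hc0).1 hc v
          linarith)
        have h2 : algebraMap k F c * chr (yv l t u) κ.1 = r • Yc T l t u ϖ κ := by
          rw [Algebra.smul_def, IsScalarTower.algebraMap_apply R k F, hr, hY, ← mul_assoc,
            ← map_mul, inv_mul_cancel_right₀ (hPk0 κ)]
        rw [h2]
        exact Submodule.smul_mem (Submodule.span R (Yc T l t u ϖ '' (P : Set (Lat ι₁ s T)))) r
          (Submodule.subset_span ⟨κ, hκ, rfl⟩)
    exact fun x hx => h1 hx
  · intro κ hκ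
    let T' : Finset (HeightOneSpectrum O) :=
      ((vd_support (O := O) (Pk κ)).toFinset ∪ T).filter fun v => v.asIdeal ≠ 𝔭
    obtain ⟨y, hy𝔭, hyT⟩ := approx (k := k) T' (fun v => ex0 T κ.2 v - vd v (Pk κ)) 𝔭
      fun v hv => (Finset.mem_filter.1 hv).2
    have hy0 : algebraMap O k y ≠ 0 := by
      intro h
      have h2 : y = 0 := hOk (by rw [h, map_zero])
      exact hy𝔭 (by rw [h2]; exact 𝔭.zero_mem)
    refine ⟨y, hy𝔭, ?_⟩
    have h1 : y • Yc T l t u ϖ κ = algebraMap k F (algebraMap O k y * Pk κ) *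
        chr (yv l t u) κ.1 := by
      rw [hY, Algebra.smul_def, IsScalarTower.algebraMap_apply O k F, map_mul]
      ring
    rw [h1]
    refine mem_MM T hκ ((mem_fid (mul_ne_zero hy0 (hPk0 κ))).2 fun v => ?_)
    rw [vd_mul v hy0 (hPk0 κ)]
    have h2 := vd_nonneg v y hy0
    by_cases hv : v.asIdeal = 𝔭
    · rw [hPkv κ v hv]
      linarith
    · by_cases h3 : v ∈ T'
      · have := hyT v h3
        linarith
      · have h4 : v ∉ (vd_support (O := O) (Pk κ)).toFinset ∪ T := fun h4 =>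
          h3 (Finset.mem_filter.2 ⟨h4, hv⟩)
        rw [Finset.mem_union] at h4
        push Not at h4
        have h5 : vd v (Pk κ) = 0 := by
          by_contra h6
          exact h4.1 ((vd_support (O := O) (Pk κ)).mem_toFinset.2 h6)
        have h6 : ex0 T κ.2 v = 0 := dif_neg h4.2
        rw [h5, h6]
        linarith

end arr

end Pool.Agent.H865.TT
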