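import Pool.Agent.H865.TT.Vtx

/-!
# Arrangements of linear forms: the kernel at a vertex
-/

set_option autoImplicit false
set_option linter.unusedSectionVars false

namespace Pool.Agent.H865.TT

open MvPolynomial Module Pool.Agent.K3h75.TO Pool.Agent.H918R2.Quad

/-- Local data at a prime, for the base ring `R` (the local ring or the field `k`). -/
structure LocD {k : Type} [Field k] {n s : ℕ} {ι 𝔖 Λ : Type} [AddCommGroup Λ] [Fintype 𝔖]
    (A : Arr k n s ι 𝔖 Λ) {R F : Type} [CommRing R] [IsDomain R] [Algebra R k] [Field F]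
    [Algebra R F] [Algebra k F] (t : Fin n → F) (u : Fin s → F) (Y : Λ → F) (ϖ : 𝔖 → R)
    (c₀ : R) : Prop where
  ch : IsChar Y
  Yω : ∀ i, Y (A.ω i) = val t (A.w i)
  Yυ : ∀ j, Y (A.υ j) = u j
  Yε : ∀ q, Y (A.ε q) = algebraMap R F (ϖ q)
  ind : AlgebraicIndependent k (Sum.elim t u)
  det : ∀ β, (A.mat β).det ≠ 0 →
    ∃ c : Rˣ, (A.mat β).det = algebraMap R k c * ∏ q, (algebraMap R k (ϖ q)) ^ (A.D β q)
  ϖ1 : ∀ q, ϖ q = 1 ∨ (IsDiscreteValuationRing R ∧ Irreducible (ϖ q))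
  ϖu : ∀ q q', ϖ q ≠ 1 → ϖ q' ≠ 1 → q = q'
  c0 : c₀ ≠ 0
  cdiv : ∀ r : R, r ≠ 0 → ∃ N : ℕ, r ∣ c₀ ^ N

section ker

variable {k : Type} [Field k] {n s : ℕ} {ι 𝔖 Λ : Type} [AddCommGroup Λ] [Fintype 𝔖]
  (A : Arr k n s ι 𝔖 Λ) {R F : Type} [CommRing R] [IsDomain R] [Algebra R k]
  [IsFractionRing R k] [Field F] [Algebra R F] [Algebra k F] [IsScalarTower R k F]

/-- the relations of the forms -/
noncomputable def Arr.rF {N : ℕ} (b : Basis (Fin N) ℤ Λ) (β : Option (Fin n) → ι)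
    (uu : ι → Option (Fin n) → R) (i : ι) : MvPolynomial (Fin N) R :=
  1 - ∑ a, C (uu i a) * mon R b (A.dlt β a i)

/-- the relations of the primes -/
noncomputable def Arr.rG {N : ℕ} (b : Basis (Fin N) ℤ Λ) (ϖ : 𝔖 → R) (sg : 𝔖 → ℤ) (q : 𝔖) :
    MvPolynomial (Fin N) R :=
  mon R b (sg q • A.ε q) - C (ϖ q)

/-- all relations -/
noncomputable def Arr.rel {N : ℕ} (b : Basis (Fin N) ℤ Λ) (β : Option (Fin n) → ι)
    (uu : ι → Option (Fin n) → R) (ϖ : 𝔖 → R) (sg : 𝔖 → ℤ) :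
    {i : ι // i ∉ Set.range β} ⊕ 𝔖 → MvPolynomial (Fin N) R :=
  Sum.elim (fun i => A.rF b β uu i) (fun q => A.rG b ϖ sg q)

open Classical in
/-- the units of the coefficients -/
def Arr.IsUU (β : Option (Fin n) → ι) (ϖ : 𝔖 → R) (uu : ι → Option (Fin n) → R) : Prop :=
  ∀ i a, (A.cf β (A.w i) a = 0 ∧ uu i a = 0) ∨ (A.cf β (A.w i) a ≠ 0 ∧
    A.cf β (A.w i) a = algebraMap R k (uu i a) *
      ∏ q, (algebraMap R k (ϖ q)) ^ (A.D (Function.update β a i) q - A.D β q))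

/-- the signs of the relations of the primes -/
def Arr.IsSg {N : ℕ} (b : Basis (Fin N) ℤ Λ) (ϖ : 𝔖 → R) (sg : 𝔖 → ℤ) : Prop :=
  ∀ q, (sg q = 1 ∨ (sg q = -1 ∧ ϖ q = 1)) ∧ ∀ l, 0 ≤ b.repr (sg q • A.ε q) l

/-- A common lemma for `F` and for the localization: the character of a coefficient. -/
theorem Arr.char_cf {B : Type} [CommRing B] {Y : Λ → B} (hY : IsChar Y) (ρ : k →+* B)
    {ϖ : 𝔖 → R} (hϖ : ∀ q, algebraMap R k (ϖ q) ≠ 0)
    (hε : ∀ q, Y (A.ε q) = ρ (algebraMap R k (ϖ q))) (β : Option (Fin n) → ι)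
    {uu : ι → Option (Fin n) → R} (huu : A.IsUU β ϖ uu) (i : ι) (a : Option (Fin n)) :
    ρ (algebraMap R k (uu i a)) * Y (A.dlt β a i) * Y (A.ω i) =
      ρ (A.cf β (A.w i) a) * Y (A.ω (β a)) := by
  classical
  rcases huu i a with ⟨h1, h2⟩ | ⟨-, h1⟩
  · rw [h1, h2]
    simp
  · rw [h1]
    have h2 : Y (∑ q, (A.D (Function.update β a i) q - A.D β q) • A.ε q) =
        ρ (∏ q, (algebraMap R k (ϖ q)) ^ (A.D (Function.update β a i) q - A.D β q)) := by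
      rw [hY.sum, map_prod]
      exact Finset.prod_congr rfl fun q _ => hY.zsmul_map ρ (hϖ q) (hε q) _
    have h3 : Y (A.dlt β a i) * Y (A.ω i) = Y (A.ω (β a)) *
        ρ (∏ q, (algebraMap R k (ϖ q)) ^ (A.D (Function.update β a i) q - A.D β q)) := by
      rw [← h2, ← hY.add, ← hY.add]
      congr 1
      unfold Arr.dlt
      abel
    rw [mul_assoc, h3, map_mul]
    ring

/-- A common lemma for `F` and for the localization: the relation of a form. -/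
theorem Arr.char_rF {B : Type} [CommRing B] {Y : Λ → B} (hY : IsChar Y) (ρ : k →+* B)
    {ϖ : 𝔖 → R} (hϖ : ∀ q, algebraMap R k (ϖ q) ≠ 0)
    (hε : ∀ q, Y (A.ε q) = ρ (algebraMap R k (ϖ q))) {N : ℕ} (b : Basis (Fin N) ℤ Λ)
    {β : Option (Fin n) → ι} (hdl : ∀ a i, A.cf β (A.w i) a ≠ 0 → ∀ l, 0 ≤ b.repr (A.dlt β a i) l)
    {uu : ι → Option (Fin n) → R} (huu : A.IsUU β ϖ uu) (f : MvPolynomial (Fin N) R →+* B)
    (hfC : ∀ r, f (C r) = ρ (algebraMap R k r)) (hfX : ∀ l, f (X l) = Y (b l)) (i : ι) :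
    f (A.rF b β uu i) * Y (A.ω i) =
      Y (A.ω i) - ∑ a, ρ (A.cf β (A.w i) a) * Y (A.ω (β a)) := by
  unfold Arr.rF
  rw [map_sub, map_one, map_sum, sub_mul, one_mul, Finset.sum_mul]
  congr 1
  refine Finset.sum_congr rfl fun a _ => ?_
  rw [← A.char_cf hY ρ hϖ hε β huu i a, map_mul, hfC]
  rcases huu i a with ⟨-, h2⟩ | ⟨h1, -⟩
  · rw [h2]; simp
  · rw [eval_mon b f hY hfX (hdl a i h1)]

end ker

end Pool.Agent.H865.TT
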