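import Pool.Agent.H865.TT.Ker

/-!
# Arrangements of linear forms: the kernel at a vertex, part 2
-/

set_option autoImplicit false
set_option linter.unusedSectionVars false

namespace Pool.Agent.H865.TT

open MvPolynomial Module Pool.Agent.K3h75.TO Pool.Agent.H918R2.Quad

section ker

variable {k : Type} [Field k] {n s : ℕ} {ι 𝔖 Λ : Type} [AddCommGroup Λ] [Fintype 𝔖]
  (A : Arr k n s ι 𝔖 Λ) {R F : Type} [CommRing R] [IsDomain R] [Algebra R k]
  [IsFractionRing R k] [Field F] [Algebra R F] [Algebra k F] [IsScalarTower R k F]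

/-- the linear form as a polynomial -/
noncomputable def pol (s : ℕ) (v : Option (Fin n) → k) : MvPolynomial (Fin n ⊕ Fin s) k :=
  C (v none) + ∑ m, C (v (some m)) * X (Sum.inl m)

theorem ev_pol (t : Fin n → F) (u : Fin s → F) (v : Option (Fin n) → k) :
    aeval (Sum.elim t u) (pol s v) = val t v := by
  unfold pol val
  rw [map_add, map_sum, algHom_C]
  congr 1
  refine Finset.sum_congr rfl fun m _ => ?_
  rw [map_mul, algHom_C, aeval_X, Sum.elim_inl]

/-- The data over a `k`-algebra `L` in which the relations hold: the polynomial ring maps to `L`,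
the forms to the values of the character. -/
theorem Arr.exists_theta {L : Type} [CommRing L] (ρ : k →+* L) {y : Λ → L} (hy : IsChar y)
    {β : Option (Fin n) → ι} (hβ : (A.mat β).det ≠ 0)
    (hrel : ∀ i, i ∉ Set.range β → y (A.ω i) = ∑ a, ρ (A.cf β (A.w i) a) * y (A.ω (β a))) :
    ∃ θ : MvPolynomial (Fin n ⊕ Fin s) k →+* L, (∀ c, θ (C c) = ρ c) ∧
      (∀ i, θ (pol s (A.w i)) = y (A.ω i)) ∧ ∀ j, θ (X (Sum.inr j)) = y (A.υ j) := by
  classical
  let ℓ : (Option (Fin n) → k) → L := fun v => ∑ a, ρ (A.cf β v a) * y (A.ω (β a))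
  have hℓw : ∀ i, ℓ (A.w i) = y (A.ω i) := by
    intro i
    by_cases hi : i ∈ Set.range β
    · obtain ⟨a₀, rfl⟩ := hi
      show ∑ a, ρ (A.cf β (A.w (β a₀)) a) * y (A.ω (β a)) = _
      rw [A.cf_self hβ, Finset.sum_eq_single a₀]
      · rw [Pi.single_eq_same, map_one, one_mul]
      · intro a _ ha
        rw [Pi.single_eq_of_ne ha, map_zero, zero_mul]
      · intro h
        exact absurd (Finset.mem_univ _) h
    · exact (hrel i hi).symm
  have hℓ1 : ℓ (Pi.single none 1) = 1 := by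
    rw [← A.w0, hℓw, A.ω0, hy.zero]
  have hℓsum : ∀ v, ℓ v = ∑ m, ρ (v m) * ℓ (Pi.single m 1) := by
    intro v
    have h1 : v = ∑ m, v m • (Pi.single m (1 : k) : Option (Fin n) → k) := by
      funext m'
      rw [Finset.sum_apply, Finset.sum_eq_single m']
      · rw [Pi.smul_apply, Pi.single_eq_same, smul_eq_mul, mul_one]
      · intro m _ hm
        rw [Pi.smul_apply, Pi.single_eq_of_ne (Ne.symm hm), smul_zero]
      · intro h
        exact absurd (Finset.mem_univ _) h
    have h2 : ∀ a, A.cf β v a = ∑ m, v m * A.cf β (Pi.single m 1) a := by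
      intro a
      conv_lhs => rw [h1]
      rw [map_sum, Finset.sum_apply]
      refine Finset.sum_congr rfl fun m _ => ?_
      rw [map_smul, Pi.smul_apply, smul_eq_mul]
    show ∑ a, ρ (A.cf β v a) * y (A.ω (β a)) =
      ∑ m, ρ (v m) * ∑ a, ρ (A.cf β (Pi.single m 1) a) * y (A.ω (β a))
    simp only [h2, map_sum, map_mul, Finset.mul_sum, Finset.sum_mul]
    rw [Finset.sum_comm]
    refine Finset.sum_congr rfl fun m _ => Finset.sum_congr rfl fun a _ => ?_
    ring
  refine ⟨eval₂Hom ρ (Sum.elim (fun m => ℓ (Pi.single (some m) 1)) (fun j => y (A.υ j))),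
    fun c => eval₂Hom_C _ _ c, fun i => ?_, fun j => by rw [eval₂Hom_X', Sum.elim_inr]⟩
  rw [← hℓw i, hℓsum]
  unfold pol
  rw [map_add, map_sum, eval₂Hom_C, Fintype.sum_option, hℓ1, mul_one]
  congr 1
  refine Finset.sum_congr rfl fun m _ => ?_
  rw [map_mul, eval₂Hom_C, eval₂Hom_X', Sum.elim_inl]

/-- The comparison of the two characters. -/
theorem Arr.compare [Fintype ι] {L : Type} [CommRing L] (ρ : k →+* L) {y : Λ → L} (hy : IsChar y)
    {β : Option (Fin n) → ι} (hβ : (A.mat β).det ≠ 0)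
    (hrel : ∀ i, i ∉ Set.range β → y (A.ω i) = ∑ a, ρ (A.cf β (A.w i) a) * y (A.ω (β a)))
    {t : Fin n → F} {u : Fin s → F} {Y : Λ → F} {ϖ : 𝔖 → R} {c₀ : R}
    (h : LocD A t u Y ϖ c₀) (hyε : ∀ q, y (A.ε q) = ρ (algebraMap R k (ϖ q)))
    (hϖ : ∀ q, algebraMap R k (ϖ q) ≠ 0) {N : ℕ} (b : Basis (Fin N) ℤ Λ)
    (can : MvPolynomial (Fin N) R →+* L) (hcC : ∀ r, can (C r) = ρ (algebraMap R k r))
    (hcX : ∀ l, can (X l) = y (b l)) (x : MvPolynomial (Fin N) R)
    (hx : aeval (fun l => Y (b l)) x = 0) : can x = 0 := by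
  classical
  obtain ⟨θ, hθC, hθw, hθu⟩ := A.exists_theta (s := s) ρ hy hβ hrel
  let ev : MvPolynomial (Fin n ⊕ Fin s) k →+* F := (aeval (Sum.elim t u) : _ →ₐ[k] F).toRingHom
  have hevi : Function.Injective ev := h.ind
  have hevC : ∀ c, ev (C c) = algebraMap k F c := fun c => by
    show aeval (Sum.elim t u) (C c) = _
    rw [algHom_C]
  have hevw : ∀ i, ev (pol s (A.w i)) = Y (A.ω i) := fun i => by
    rw [h.Yω]
    exact ev_pol t u _
  have hevu : ∀ j, ev (X (Sum.inr j)) = Y (A.υ j) := fun j => by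
    show aeval (Sum.elim t u) (X (Sum.inr j)) = _
    rw [aeval_X, Sum.elim_inr, h.Yυ]
  obtain ⟨H, hH⟩ : ∃ H : MvPolynomial (Fin n ⊕ Fin s) k,
      H = (∏ i, pol s (A.w i)) * ∏ j, X (Sum.inr j) := ⟨_, rfl⟩
  have hHu : IsUnit (θ H) := by
    rw [hH, map_mul, map_prod, map_prod]
    refine IsUnit.mul ?_ ?_
    · rw [IsUnit.prod_iff]
      intro i _
      rw [hθw]
      exact hy.isUnit _
    · rw [IsUnit.prod_iff]
      intro j _
      rw [hθu]
      exact hy.isUnit _
  let Pr : F → L → Prop := fun a z => ∃ (M : ℕ) (p : MvPolynomial (Fin n ⊕ Fin s) k),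
    a * ev H ^ M = ev p ∧ z * θ H ^ M = θ p
  have hPadd : ∀ a z a' z', Pr a z → Pr a' z' → Pr (a + a') (z + z') := by
    rintro a z a' z' ⟨M, p, h1, h2⟩ ⟨M', p', h3, h4⟩
    refine ⟨M + M', p * H ^ M' + p' * H ^ M, ?_, ?_⟩
    · rw [map_add, map_mul, map_mul, ← h1, ← h3, map_pow, map_pow]
      ring
    · rw [map_add, map_mul, map_mul, ← h2, ← h4, map_pow, map_pow]
      ring
  have hPmul : ∀ a z a' z', Pr a z → Pr a' z' → Pr (a * a') (z * z') := by
    rintro a z a' z' ⟨M, p, h1, h2⟩ ⟨M', p', h3, h4⟩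
    refine ⟨M + M', p * p', ?_, ?_⟩
    · rw [map_mul, ← h1, ← h3]
      ring
    · rw [map_mul, ← h2, ← h4]
      ring
  have hPC : ∀ c : k, Pr (algebraMap k F c) (ρ c) := fun c =>
    ⟨0, C c, by rw [pow_zero, mul_one, hevC], by rw [pow_zero, mul_one, hθC]⟩
  -- the characters
  have hPinv : ∀ (κ : Λ) (g g' : MvPolynomial (Fin n ⊕ Fin s) k), H = g * g' →
      ev g = Y κ → θ g = y κ → Pr (Y (-κ)) (y (-κ)) := by
    intro κ g g' hg h1 h2
    refine ⟨1, g', ?_, ?_⟩
    · rw [pow_one, hg, map_mul, h1, ← mul_assoc, h.ch.neg_mul, one_mul]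
    · rw [pow_one, hg, map_mul, h2, ← mul_assoc, hy.neg_mul, one_mul]
  have hPgen : ∀ κ ∈ Set.range A.ω ∪ Set.range A.υ ∪ Set.range A.ε,
      Pr (Y κ) (y κ) ∧ Pr (Y (-κ)) (y (-κ)) := by
    intro κ hκ
    rcases hκ with (⟨i, rfl⟩ | ⟨j, rfl⟩) | ⟨q, rfl⟩
    · refine ⟨⟨0, pol s (A.w i), by rw [pow_zero, mul_one, hevw], by rw [pow_zero, mul_one, hθw]⟩,
        hPinv _ (pol s (A.w i)) ((∏ i' ∈ Finset.univ.erase i, pol s (A.w i')) *
          ∏ j, X (Sum.inr j)) ?_ (hevw i) (hθw i)⟩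
      rw [hH, ← Finset.mul_prod_erase Finset.univ (fun i => pol s (A.w i)) (Finset.mem_univ i),
        mul_assoc]
    · refine ⟨⟨0, X (Sum.inr j), by rw [pow_zero, mul_one, hevu], by rw [pow_zero, mul_one, hθu]⟩,
        hPinv _ (X (Sum.inr j)) ((∏ i, pol s (A.w i)) *
          ∏ j' ∈ Finset.univ.erase j, X (Sum.inr j')) ?_ (hevu j) (hθu j)⟩
      rw [hH, ← Finset.mul_prod_erase Finset.univ (fun j => (X (Sum.inr j) :
        MvPolynomial (Fin n ⊕ Fin s) k)) (Finset.mem_univ j)]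
      ring
    · have h1 : Y (A.ε q) = algebraMap k F (algebraMap R k (ϖ q)) := by
        rw [h.Yε, IsScalarTower.algebraMap_apply R k F]
      constructor
      · rw [h1, hyε]
        exact hPC _
      · have h2 : Y (-A.ε q) = algebraMap k F ((algebraMap R k (ϖ q))⁻¹) := by
          have := h.ch.zsmul_map (algebraMap k F) (hϖ q) h1 (-1)
          rwa [neg_one_zsmul, zpow_neg_one] at this
        have h3 : y (-A.ε q) = ρ ((algebraMap R k (ϖ q))⁻¹) := by
          have := hy.zsmul_map ρ (hϖ q) (hyε q) (-1)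
          rwa [neg_one_zsmul, zpow_neg_one] at this
        rw [h2, h3]
        exact hPC _
  have hPchar : ∀ κ : Λ, Pr (Y κ) (y κ) ∧ Pr (Y (-κ)) (y (-κ)) := by
    intro κ
    have hκ : κ ∈ AddSubgroup.closure (Set.range A.ω ∪ Set.range A.υ ∪ Set.range A.ε) := by
      rw [A.gen]; trivial
    induction hκ using AddSubgroup.closure_induction with
    | mem x hx => exact hPgen x hx
    | zero =>
      have h1 : Pr (Y 0) (y 0) := by
        rw [h.ch.zero, hy.zero]
        have := hPC 1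
        rwa [map_one, map_one] at this
      exact ⟨h1, by rw [neg_zero]; exact h1⟩
    | add x x' _ _ h1 h2 =>
      refine ⟨?_, ?_⟩
      · rw [h.ch.add, hy.add]
        exact hPmul _ _ _ _ h1.1 h2.1
      · rw [neg_add, h.ch.add, hy.add]
        exact hPmul _ _ _ _ h1.2 h2.2
    | neg x _ h1 => exact ⟨h1.2, by rw [neg_neg]; exact h1.1⟩
  have hPall : ∀ x : MvPolynomial (Fin N) R, Pr (aeval (fun l => Y (b l)) x) (can x) := by
    intro x
    induction x using MvPolynomial.induction_on with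
    | C r =>
      rw [algHom_C, hcC, IsScalarTower.algebraMap_apply R k F]
      exact hPC _
    | add p q hp hq =>
      rw [map_add, map_add]
      exact hPadd _ _ _ _ hp hq
    | mul_X p l hp =>
      rw [map_mul, map_mul, aeval_X, hcX]
      exact hPmul _ _ _ _ hp (hPchar (b l)).1
  obtain ⟨M, p, h1, h2⟩ := hPall x
  rw [hx, zero_mul] at h1
  have h3 : p = 0 := hevi (by rw [← h1, map_zero])
  rw [h3, map_zero] at h2
  exact (IsUnit.mul_left_eq_zero (hHu.pow M)).1 h2

end ker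

end Pool.Agent.H865.TT
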