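import Pool.Agent.H865.TT.Ker3

/-!
# Arrangements of linear forms: regularity at a vertex
-/

set_option autoImplicit false
set_option linter.unusedSectionVars false

namespace Pool.Agent.H865.TT

open MvPolynomial Module Pool.Agent.K3h75.TO Pool.Agent.H918R2.Quad

theorem RG' {W F κ : Type} [CommRing W] [IsRegularRing W] [Field F] [Fintype κ] (𝒪 : Subring F)
    (hloc : IsLoc 𝒪) (e : W →+* F) (he : ∀ w, e w ∈ 𝒪)
    (hfrac : ∀ x ∈ 𝒪, ∃ a b : W, U 𝒪 (e b) ∧ x = e a / e b)
    (S : κ → W) (hS : ∀ i, e (S i) = 0)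
    (hind : ∀ c : κ → W, ∑ i, c i * S i ∈ (primeOf hloc e he) ^ 2 →
      ∀ i, c i ∈ primeOf hloc e he)
    (t : W) (ht : e t ≠ 0)
    (hker : ∀ w, e w = 0 → ∃ N : ℕ, t ^ N * w ∈ Ideal.span (Set.range S)) :
    IsRegularLocalRing 𝒪 := by
  let f := (Fintype.equivFin κ).symm
  refine RG 𝒪 hloc e he hfrac (Fintype.card κ) (S ∘ f) (fun i => hS _) ?_ t ht ?_
  · intro c hc i
    have h1 := hind (c ∘ f.symm) (by
      rw [← f.sum_comp]
      simpa using hc) (f i)
    simpa using h1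
  · intro w hw
    rw [f.surjective.range_comp]
    exact hker w hw

section reg

variable {k : Type} [Field k] {n s : ℕ} {ι 𝔖 Λ : Type} [AddCommGroup Λ] [Fintype 𝔖]
  (A : Arr k n s ι 𝔖 Λ) {R F : Type} [CommRing R] [IsDomain R] [Algebra R k]
  [IsFractionRing R k] [Field F] [Algebra R F] [Algebra k F] [IsScalarTower R k F]

/-- the units of the coefficients -/
theorem Arr.exists_uu {t : Fin n → F} {u : Fin s → F} {Y : Λ → F} {ϖ : 𝔖 → R} {c₀ : R}
    (h : LocD A t u Y ϖ c₀) (hϖ : ∀ q, algebraMap R k (ϖ q) ≠ 0)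
    {β : Option (Fin n) → ι} (hβ : (A.mat β).det ≠ 0) :
    ∃ uu : ι → Option (Fin n) → R, A.IsUU β ϖ uu := by
  classical
  obtain ⟨c, hc⟩ := h.det β hβ
  have key : ∀ i a, ∃ r : R, (A.cf β (A.w i) a = 0 ∧ r = 0) ∨ (A.cf β (A.w i) a ≠ 0 ∧
    A.cf β (A.w i) a = algebraMap R k r *
      ∏ q, (algebraMap R k (ϖ q)) ^ (A.D (Function.update β a i) q - A.D β q)) := by
    intro i a
    by_cases h0 : A.cf β (A.w i) a = 0
    · exact ⟨0, Or.inl ⟨h0, rfl⟩⟩
    · have h1 : (A.mat (Function.update β a i)).det ≠ 0 := by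
        intro h1
        apply h0
        rw [A.cf_apply, h1, zero_div]
      obtain ⟨c', hc'⟩ := h.det _ h1
      refine ⟨c' * ((c⁻¹ : Rˣ) : R), Or.inr ⟨h0, ?_⟩⟩
      rw [A.cf_apply, hc, hc', map_mul]
      have h2 : algebraMap R k ((c⁻¹ : Rˣ) : R) = (algebraMap R k c)⁻¹ := by
        apply eq_inv_of_mul_eq_one_left
        rw [← map_mul]
        simp
      rw [h2]
      simp only [zpow_sub₀ (hϖ _)]
      rw [Finset.prod_div_distrib]
      have h3 : algebraMap R k (c : R) ≠ 0 := by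
        intro h3
        rw [hc, h3, zero_mul] at hβ
        exact hβ rfl
      have h4 : ∏ q, (algebraMap R k (ϖ q)) ^ (A.D β q) ≠ 0 :=
        Finset.prod_ne_zero_iff.2 fun q _ => zpow_ne_zero _ (hϖ q)
      field_simp
  choose uu huu using key
  exact ⟨uu, huu⟩

/-- the logarithmic derivation of a relation -/
theorem Arr.ld_rF {N : ℕ} (b : Basis (Fin N) ℤ Λ) {ϖ : 𝔖 → R} {β : Option (Fin n) → ι}
    (hdl : ∀ a i, A.cf β (A.w i) a ≠ 0 → ∀ l, 0 ≤ b.repr (A.dlt β a i) l)
    {uu : ι → Option (Fin n) → R} (huu : A.IsUU β ϖ uu) (φ : Λ →+ ℤ) (i : ι) (z : ℤ)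
    (hz : ∀ a, φ (A.dlt β a i) = z) :
    ld R b φ (A.rF b β uu i) = -((z : MvPolynomial (Fin N) R) * (1 - A.rF b β uu i)) := by
  have h1 : 1 - A.rF b β uu i = ∑ a, C (uu i a) * mon R b (A.dlt β a i) := by
    unfold Arr.rF
    ring
  have h2 : ld R b φ (A.rF b β uu i) = - ld R b φ (∑ a, C (uu i a) * mon R b (A.dlt β a i)) := by
    rw [← h1, map_sub, Derivation.map_one_eq_zero, zero_sub, neg_neg]
  rw [h2, h1, map_sum, Finset.mul_sum]
  congr 1
  refine Finset.sum_congr rfl fun a _ => ?_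
  rcases huu i a with ⟨-, h3⟩ | ⟨h3, -⟩
  · rw [h3]; simp
  · rw [← smul_eq_C_mul, Derivation.map_smul, ld_mon b φ (hdl a i h3), hz a, smul_eq_C_mul,
      smul_eq_C_mul]
    ring

/-- A functional with prescribed values on the exponents. -/
theorem Arr.phi_dlt (φ : Λ →+ ℤ) (hφ : ∀ q, φ (A.ε q) = 0) (β : Option (Fin n) → ι)
    (a : Option (Fin n)) (i : ι) : φ (A.dlt β a i) = φ (A.ω (β a)) - φ (A.ω i) := by
  unfold Arr.dlt
  rw [map_add, map_sub, map_sum]
  have : ∑ q, φ ((A.D (Function.update β a i) q - A.D β q) • A.ε q) = 0 :=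
    Finset.sum_eq_zero fun q _ => by rw [map_zsmul, hφ, smul_zero]
  convert add_zero _

theorem mon_pos {N : ℕ} (b : Basis (Fin N) ℤ Λ) (δ : Λ) : mon R b δ =
    ∏ l, (X l : MvPolynomial (Fin N) R) ^ (ps b δ l) := by
  unfold mon
  rw [monomial_eq, C_1, one_mul, Finsupp.prod_fintype]
  intro i
  rw [pow_zero]

/-- The relation of the prime of the base ring. -/
theorem c_mem {N : ℕ} (b : Basis (Fin N) ℤ Λ) (π : R) [IsDiscreteValuationRing R]
    (hπ : Irreducible π) (δ : Λ) (Q : Ideal (MvPolynomial (Fin N) R)) [Q.IsPrime]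
    (hQ : C π ∈ Q) (hg : mon R b δ - C π ∈ Q) (c : MvPolynomial (Fin N) R)
    (hc : c * (mon R b δ - C π) ∈ Q ^ 2) : c ∈ Q := by
  classical
  have hm : mon R b δ ∈ Q := by
    have : mon R b δ = (mon R b δ - C π) + C π := by ring
    rw [this]
    exact Q.add_mem hg hQ
  by_cases h2 : mon R b δ ∈ Q ^ 2
  · refine Pool.Agent.H945R2.E.PIN_ok π hπ Q hQ c ?_
    have : c * C π = c * mon R b δ - c * (mon R b δ - C π) := by ring
    rw [this]
    exact (Q ^ 2).sub_mem ((Q ^ 2).mul_mem_left _ h2) hc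
  · have h3 := hm
    rw [mon_pos, Ideal.IsPrime.prod_mem_iff] at h3
    obtain ⟨l, -, hl⟩ := h3
    have hs0 : ps b δ l ≠ 0 := by
      intro h0
      rw [h0, pow_zero] at hl
      exact Ideal.IsPrime.ne_top ‹_› ((Ideal.eq_top_iff_one Q).2 hl)
    have hlQ : (X l : MvPolynomial (Fin N) R) ∈ Q := Ideal.IsPrime.mem_of_pow_mem ‹_› _ hl
    have hsplit : ∀ s' : Fin N →₀ ℕ, s' l ≠ 0 → ∀ r : R, (monomial s' r : MvPolynomial (Fin N) R) =
        X l * monomial (s' - Finsupp.single l 1) r := by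
      intro s' hs' r
      have h4 : Finsupp.single l 1 + (s' - Finsupp.single l 1) = s' := by
        ext i
        rw [Finsupp.add_apply, Finsupp.tsub_apply, Finsupp.single_apply]
        split_ifs with hi
        · subst hi
          omega
        · omega
      rw [X, monomial_mul, one_mul, h4]
    have hm' : (monomial (ps b δ - Finsupp.single l 1) 1 : MvPolynomial (Fin N) R) ∉ Q := by
      intro h4
      apply h2
      unfold mon
      rw [hsplit _ hs0, pow_two]
      exact Ideal.mul_mem_mul hlQ h4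
    have hs1 : ps b δ l = 1 := by
      by_contra h4
      apply hm'
      rw [hsplit (ps b δ - Finsupp.single l 1) (by
        rw [Finsupp.tsub_apply, Finsupp.single_eq_same]; omega)]
      exact Q.mul_mem_right _ hlQ
    have h5 := der_comb (R := R) (pderiv l) Q Finset.univ (fun _ : Unit => c)
      (fun _ => mon R b δ - C π) (fun _ _ => hg) (by simpa using hc)
    rw [Finset.univ_unique, Finset.sum_singleton, map_sub, pderiv_C, sub_zero] at h5
    unfold mon at h5
    rw [pderiv_monomial, hs1, Nat.cast_one, mul_one] at h5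
    exact (Ideal.IsPrime.mem_or_mem ‹_› h5).resolve_right hm'

end reg

end Pool.Agent.H865.TT
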