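import Pool.Agent.H865.TT.Reg

/-!
# Arrangements of linear forms: regularity at a vertex, part 2
-/

set_option autoImplicit false
set_option linter.unusedSectionVars false

namespace Pool.Agent.H865.TT

open MvPolynomial Module Pool.Agent.K3h75.TO Pool.Agent.H918R2.Quad

section reg

variable {k : Type} [Field k] {n s : ℕ} {ι 𝔖 Λ : Type} [AddCommGroup Λ] [Fintype 𝔖]
  (A : Arr k n s ι 𝔖 Λ) {R F : Type} [CommRing R] [IsDomain R] [Algebra R k]
  [IsFractionRing R k] [Field F] [Algebra R F] [Algebra k F] [IsScalarTower R k F]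

/-- **Regularity at a vertex.** -/
theorem Arr.vreg [IsRegularRing R] [Fintype ι] {t : Fin n → F} {u : Fin s → F} {Y : Λ → F}
    {ϖ : 𝔖 → R} {c₀ : R} (h : LocD A t u Y ϖ c₀) {N : ℕ} (b : Basis (Fin N) ℤ Λ)
    (hcomp : A.Comp b) (𝒪 : Subring F) (hloc : IsLoc 𝒪) (hR : ∀ r : R, algebraMap R F r ∈ 𝒪)
    (hπ : ∀ q, ϖ q ≠ 1 → ¬ U 𝒪 (algebraMap R F (ϖ q))) (hb : ∀ l, Y (b l) ∈ 𝒪)
    (hfrac : ∀ x ∈ 𝒪, ∃ v w : MvPolynomial (Fin N) R, U 𝒪 (aeval (fun l => Y (b l)) w) ∧
      x = aeval (fun l => Y (b l)) v / aeval (fun l => Y (b l)) w) :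
    IsRegularLocalRing 𝒪 := by
  classical
  let e : MvPolynomial (Fin N) R →+* F := (aeval (fun l => Y (b l)) : _ →ₐ[R] F).toRingHom
  have hea : ∀ w, e w = aeval (fun l => Y (b l)) w := fun w => rfl
  have heX : ∀ l, e (X l) = Y (b l) := fun l => by rw [hea, aeval_X]
  have heC : ∀ r, e (C r) = algebraMap R F r := fun r => by rw [hea, algHom_C]
  have he : ∀ w, e w ∈ 𝒪 := by
    intro w
    induction w using MvPolynomial.induction_on with
    | C r => rw [heC]; exact hR r
    | add p q hp hq => rw [map_add]; exact 𝒪.add_mem hp hq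
    | mul_X p l hp => rw [map_mul, heX]; exact 𝒪.mul_mem hp (hb l)
  have hRk : Function.Injective (algebraMap R k) := IsFractionRing.injective R k
  have hϖ0 : ∀ q, ϖ q ≠ 0 := by
    intro q
    rcases h.ϖ1 q with h1 | ⟨_, h1⟩
    · rw [h1]; exact one_ne_zero
    · exact h1.ne_zero
  have hϖ : ∀ q, algebraMap R k (ϖ q) ≠ 0 := fun q h1 =>
    hϖ0 q (hRk (by rw [h1, map_zero]))
  have hYε : ∀ q, Y (A.ε q) = algebraMap k F (algebraMap R k (ϖ q)) := fun q => by
    rw [h.Yε, IsScalarTower.algebraMap_apply R k F]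
  have hY0 : ∀ κ, Y κ ≠ 0 := fun κ => (h.ch.isUnit κ).ne_zero
  have hmon : ∀ {δ : Λ}, (∀ l, 0 ≤ b.repr δ l) → e (mon R b δ) = Y δ := fun hδ =>
    eval_mon b e h.ch heX hδ
  -- the basis, the units, the signs
  obtain ⟨β, hβ, hdl⟩ := A.exists_basis b hcomp
  obtain ⟨uu, huu⟩ := A.exists_uu h hϖ hβ
  obtain ⟨sg, hsg⟩ : ∃ sg : 𝔖 → ℤ, A.IsSg b ϖ sg := by
    have key : ∀ q, ∃ z : ℤ, (z = 1 ∨ (z = -1 ∧ ϖ q = 1)) ∧ ∀ l, 0 ≤ b.repr (z • A.ε q) l := by
      intro q
      rcases hcomp.ep q with h1 | h1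
      · exact ⟨1, Or.inl rfl, by rwa [one_zsmul]⟩
      · have h2 : ∀ l, 0 ≤ b.repr (-A.ε q) l := by
          intro l
          rw [map_neg, Finsupp.neg_apply]
          linarith [h1 l]
        refine ⟨-1, Or.inr ⟨rfl, ?_⟩, by rwa [neg_one_zsmul]⟩
        by_contra h3
        apply hπ q h3
        refine ⟨?_, hR _, ?_⟩
        · rw [← h.Yε]
          exact hY0 _
        · have h4 : (algebraMap R F (ϖ q))⁻¹ = Y (-A.ε q) := by
            rw [← h.Yε]
            exact (eq_inv_of_mul_eq_one_left (h.ch.neg_mul _)).symm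
          rw [h4, ← hmon h2]
          exact he _
    choose sg hsg using key
    exact ⟨sg, hsg⟩
  have hF0 : ∀ i, e (A.rF b β uu i) = 0 := by
    intro i
    have h1 := A.char_rF h.ch (algebraMap k F) hϖ hYε b hdl huu e (fun r => by
      rw [heC, IsScalarTower.algebraMap_apply R k F]) heX i
    have h2 : ∑ a, algebraMap k F (A.cf β (A.w i) a) * Y (A.ω (β a)) = Y (A.ω i) := by
      simp only [h.Yω]
      exact val_comb t Finset.univ _ _ _ fun m => A.cf_sum hβ _ m
    rw [h2, sub_self] at h1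
    exact (mul_eq_zero.1 h1).resolve_right (hY0 _)
  have hG0 : ∀ q, e (A.rG b ϖ sg q) = 0 := by
    intro q
    unfold Arr.rG
    rw [map_sub, hmon (hsg q).2, heC]
    rcases (hsg q).1 with h1 | ⟨h1, h2⟩
    · rw [h1, one_zsmul, h.Yε, sub_self]
    · rw [h1, neg_one_zsmul, h2, map_one]
      have h3 := h.ch.neg_mul (A.ε q)
      rw [h.Yε, h2, map_one, mul_one] at h3
      rw [h3, sub_self]
  set Q := primeOf hloc e he with hQ
  have hmemQ : ∀ w, w ∈ Q ↔ ¬ U 𝒪 (e w) := fun w => mem_primeOf hloc e he w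
  have hQp : Q.IsPrime := primeOf_isPrime hloc e he
  have h0Q : ∀ w, e w = 0 → w ∈ Q := fun w hw => by
    rw [hmemQ, hw]
    exact not_U_zero
  have h1Q : (1 : MvPolynomial (Fin N) R) ∉ Q := (Ideal.ne_top_iff_one Q).1 hQp.ne_top
  have hsgu : ∀ q, ((sg q : ℤ) : MvPolynomial (Fin N) R) * ((sg q : ℤ) : MvPolynomial (Fin N) R) =
      1 := by
    intro q
    rcases (hsg q).1 with h1 | ⟨h1, -⟩
    · rw [h1]; norm_num
    · rw [h1]; norm_num
  refine RG' 𝒪 hloc e he (fun x hx => hfrac x hx) (A.rel b β uu ϖ sg) ?_ ?_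
    ((∏ l, X l) * C c₀) ?_ ?_
  · rintro (i | q)
    · exact hF0 i
    · exact hG0 q
  · intro c hc
    have hcS : ∀ i ∈ (Finset.univ : Finset ({i : ι // i ∉ Set.range β} ⊕ 𝔖)),
        A.rel b β uu ϖ sg i ∈ Q := by
      rintro (i | q) _
      · exact h0Q _ (hF0 i)
      · exact h0Q _ (hG0 q)
    -- the relations of the forms
    have hstep1 : ∀ i₁ : {i : ι // i ∉ Set.range β}, c (Sum.inl i₁) ∈ Q := by
      intro i₁
      obtain ⟨φ, hφε, z, hz, hφd⟩ : ∃ φ : Λ →+ ℤ, (∀ q, φ (A.ε q) = 0) ∧ ∃ z : ℤ,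
          z * z = 1 ∧ ∀ a (i : {i : ι // i ∉ Set.range β}),
            φ (A.dlt β a i) = if i = i₁ then z else 0 := by
        by_cases hi : (i₁ : ι) = A.i₀
        · obtain ⟨φ, h1, h2⟩ := A.φ1 (fun i => if i = A.i₀ then 0 else 1) (if_pos rfl)
          refine ⟨φ, h2, 1, by norm_num, fun a i => ?_⟩
          rw [A.phi_dlt φ h2, h1, h1]
          have h3 : β a ≠ A.i₀ := fun h3 => i₁.2 ⟨a, h3.trans hi.symm⟩
          rw [if_neg h3]
          by_cases h4 : i = i₁
          · rw [if_pos h4, h4, if_pos hi, sub_zero]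
          · rw [if_neg h4, if_neg (fun h5 => h4 (Subtype.ext (h5.trans hi.symm))), sub_self]
        · obtain ⟨φ, h1, h2⟩ := A.φ1 (fun i => if i = i₁ then 1 else 0) (if_neg (Ne.symm hi))
          refine ⟨φ, h2, -1, by norm_num, fun a i => ?_⟩
          rw [A.phi_dlt φ h2, h1, h1]
          have h3 : β a ≠ i₁ := fun h3 => i₁.2 ⟨a, h3⟩
          rw [if_neg h3]
          by_cases h4 : i = i₁
          · rw [if_pos h4, h4, if_pos rfl, zero_sub]
          · rw [if_neg h4, if_neg (fun h5 => h4 (Subtype.ext h5)), sub_self]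
      have h1 := der_comb (R := R) (ld R b φ) Q Finset.univ c (A.rel b β uu ϖ sg) hcS hc
      rw [Fintype.sum_sum_type] at h1
      have h2 : ∑ q, c (Sum.inr q) * ld R b φ (A.rel b β uu ϖ sg (Sum.inr q)) = 0 := by
        refine Finset.sum_eq_zero fun q _ => ?_
        show c (Sum.inr q) * ld R b φ (A.rG b ϖ sg q) = 0
        unfold Arr.rG
        rw [map_sub, ld_mon b φ (hsg q).2, map_zsmul, hφε]
        have h3 : ld R b φ (C (ϖ q)) = 0 := by
          have := (ld R b φ).map_algebraMap (ϖ q)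
          exact this
        rw [h3]
        simp
      rw [h2, add_zero, Finset.sum_eq_single i₁] at h1
      · have h3 : ld R b φ (A.rel b β uu ϖ sg (Sum.inl i₁)) =
            -((z : MvPolynomial (Fin N) R) * (1 - A.rF b β uu i₁)) :=
          A.ld_rF b hdl huu φ i₁ z fun a => by rw [hφd, if_pos rfl]
        rw [h3] at h1
        have h4 : c (Sum.inl i₁) = -((z : MvPolynomial (Fin N) R) * (c (Sum.inl i₁) *
            -((z : MvPolynomial (Fin N) R) * (1 - A.rF b β uu i₁)))) +
            c (Sum.inl i₁) * A.rF b β uu i₁ := by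
          have h5 : (z : MvPolynomial (Fin N) R) * (z : MvPolynomial (Fin N) R) = 1 := by
            rw [← Int.cast_mul, hz, Int.cast_one]
          linear_combination (-(c (Sum.inl i₁)) * (1 - A.rF b β uu i₁)) * h5
        rw [h4]
        exact Q.add_mem (Q.neg_mem (Q.mul_mem_left _ h1))
          (Q.mul_mem_left _ (h0Q _ (hF0 i₁)))
      · intro i _ hi
        have h3 : ld R b φ (A.rel b β uu ϖ sg (Sum.inl i)) =
            -(((0 : ℤ) : MvPolynomial (Fin N) R) * (1 - A.rF b β uu i)) :=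
          A.ld_rF b hdl huu φ i 0 fun a => by rw [hφd, if_neg hi]
        rw [h3]
        simp
      · intro hh
        exact absurd (Finset.mem_univ _) hh
    -- the relations of the primes
    have hc2 : ∑ q, c (Sum.inr q) * A.rG b ϖ sg q ∈ Q ^ 2 := by
      rw [Fintype.sum_sum_type] at hc
      have h1 : ∑ i : {i : ι // i ∉ Set.range β}, c (Sum.inl i) *
          A.rel b β uu ϖ sg (Sum.inl i) ∈ Q ^ 2 := by
        refine (Q ^ 2).sum_mem fun i _ => ?_
        rw [pow_two]
        exact Ideal.mul_mem_mul (hstep1 i) (h0Q _ (hF0 i))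
      have h2 := (Q ^ 2).sub_mem hc h1
      rwa [add_sub_cancel_left] at h2
    have hstep2 : ∀ q₁, ϖ q₁ = 1 → c (Sum.inr q₁) ∈ Q := by
      intro q₁ hq₁
      obtain ⟨φ, hφ⟩ := A.φ2 (fun q => if q = q₁ then 1 else 0)
      have h1 := der_comb (R := R) (ld R b φ) Q Finset.univ (fun q => c (Sum.inr q))
        (A.rG b ϖ sg) (fun q _ => h0Q _ (hG0 q)) hc2
      have h2 : ∀ q, ld R b φ (A.rG b ϖ sg q) =
          ((sg q * (if q = q₁ then 1 else 0) : ℤ) : MvPolynomial (Fin N) R) *
            mon R b (sg q • A.ε q) := by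
        intro q
        unfold Arr.rG
        rw [map_sub, ld_mon b φ (hsg q).2, map_zsmul, hφ, smul_eq_mul]
        have h3 : ld R b φ (C (ϖ q)) = 0 := by
          have := (ld R b φ).map_algebraMap (ϖ q)
          exact this
        rw [h3, sub_zero]
      rw [Finset.sum_eq_single q₁] at h1
      · rw [h2, if_pos rfl, mul_one] at h1
        have h3 : mon R b (sg q₁ • A.ε q₁) ∉ Q := by
          intro h4
          have h5 : mon R b (sg q₁ • A.ε q₁) - A.rG b ϖ sg q₁ = 1 := by
            unfold Arr.rG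
            rw [hq₁, C_1]
            ring
          apply h1Q
          rw [← h5]
          exact Q.sub_mem h4 (h0Q _ (hG0 q₁))
        have h6 : c (Sum.inr q₁) * mon R b (sg q₁ • A.ε q₁) ∈ Q := by
          have h7 : c (Sum.inr q₁) * mon R b (sg q₁ • A.ε q₁) =
              ((sg q₁ : ℤ) : MvPolynomial (Fin N) R) * (c (Sum.inr q₁) *
                (((sg q₁ : ℤ) : MvPolynomial (Fin N) R) * mon R b (sg q₁ • A.ε q₁))) := by
            linear_combination (-(c (Sum.inr q₁)) * mon R b (sg q₁ • A.ε q₁)) * hsgu q₁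
          rw [h7]
          exact Q.mul_mem_left _ h1
        exact (hQp.mem_or_mem h6).resolve_right h3
      · intro q _ hq
        rw [h2, if_neg hq]
        simp
      · intro hh
        exact absurd (Finset.mem_univ _) hh
    rintro (i | q)
    · exact hstep1 i
    · by_cases hq : ϖ q = 1
      · exact hstep2 q hq
      · obtain ⟨hdvr, hirr⟩ := (h.ϖ1 q).resolve_left hq
        have h1 : c (Sum.inr q) * A.rG b ϖ sg q ∈ Q ^ 2 := by
          rw [← Finset.add_sum_erase Finset.univ _ (Finset.mem_univ q)] at hc2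
          have h2 : ∑ q' ∈ Finset.univ.erase q, c (Sum.inr q') * A.rG b ϖ sg q' ∈ Q ^ 2 := by
            refine (Q ^ 2).sum_mem fun q' hq' => ?_
            have h3 : ϖ q' = 1 := by
              by_contra h4
              exact (Finset.ne_of_mem_erase hq') (h.ϖu q' q h4 hq)
            rw [pow_two]
            exact Ideal.mul_mem_mul (hstep2 q' h3) (h0Q _ (hG0 q'))
          have h3 := (Q ^ 2).sub_mem hc2 h2
          rwa [add_sub_cancel_right] at h3
        refine c_mem b (ϖ q) hirr (sg q • A.ε q) Q ?_ (h0Q _ (hG0 q)) _ h1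
        rw [hmemQ, heC]
        exact hπ q hq
  · rw [map_mul, map_prod, heC]
    refine mul_ne_zero (Finset.prod_ne_zero_iff.2 fun l _ => ?_) ?_
    · rw [heX]
      exact hY0 _
    · intro h1
      apply h.c0
      apply hRk
      rw [map_zero]
      apply (algebraMap k F).injective
      rw [map_zero, ← IsScalarTower.algebraMap_apply R k F]
      exact h1
  · intro w hw
    exact A.ker h b hβ hdl huu hsg w hw

end reg

end Pool.Agent.H865.TT
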