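import Pool.Agent.H865.TT.Glo4
import Mathlib.RingTheory.MvPolynomial.IrreducibleQuadratic

/-!
# Uniqueness of the exponents
-/

set_option autoImplicit false
set_option linter.unusedSectionVars false

namespace Pool.Agent.H865.TT

open MvPolynomial Module

section unq

variable {k : Type} [Field k] {n s : ℕ}

theorem coeff_pol_some (v : Option (Fin n) → k) (m : Fin n) :
    coeff (Finsupp.single (Sum.inl m) 1) (pol s v) = v (some m) := by
  classical
  unfold pol
  rw [coeff_add, coeff_sum, coeff_C, if_neg (by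
    intro h
    have := DFunLike.congr_fun h (Sum.inl m)
    simp at this), zero_add, Finset.sum_eq_single m]
  · rw [coeff_C_mul, coeff_X, if_pos rfl, mul_one]
  · intro m' _ hm
    rw [coeff_C_mul, coeff_X, if_neg (by
      intro h
      rw [Finsupp.single_left_inj one_ne_zero] at h
      exact hm (Sum.inl_injective h)), mul_zero]
  · intro h
    exact absurd (Finset.mem_univ _) h

theorem coeff_pol_none (v : Option (Fin n) → k) : coeff 0 (pol s v) = v none := by
  classical
  unfold pol
  rw [coeff_add, coeff_sum, coeff_C, if_pos rfl, Finset.sum_eq_zero, add_zero]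
  intro m _
  rw [coeff_C_mul, coeff_X, if_neg (by
    intro h
    have := DFunLike.congr_fun h (Sum.inl m)
    simp at this), mul_zero]

theorem pol_inj {v v' : Option (Fin n) → k} (h : pol s v = pol s v') : v = v' := by
  funext m
  cases m with
  | none => rw [← coeff_pol_none (s := s) v, h, coeff_pol_none]
  | some m => rw [← coeff_pol_some (s := s) v, h, coeff_pol_some]

theorem pol_smul (c : k) (v : Option (Fin n) → k) : pol s (c • v) = C c * pol s v := by
  unfold pol
  rw [mul_add, Finset.mul_sum, Pi.smul_apply, smul_eq_mul, C_mul]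
  congr 1
  refine Finset.sum_congr rfl fun m _ => ?_
  rw [Pi.smul_apply, smul_eq_mul, C_mul]
  ring

theorem totalDegree_pol_le (v : Option (Fin n) → k) : (pol s v).totalDegree ≤ 1 := by
  unfold pol
  refine (totalDegree_add _ _).trans (max_le ?_ ?_)
  · rw [totalDegree_C]
    exact Nat.zero_le _
  · refine (totalDegree_finsetSum _ _).trans (Finset.sup_le fun m _ => ?_)
    refine (totalDegree_mul _ _).trans ?_
    rw [totalDegree_C, totalDegree_X]

theorem prime_pol {v : Option (Fin n) → k} {m : Fin n} (hm : v (some m) ≠ 0) :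
    Prime (pol s v) := by
  classical
  have h0 : coeff (Finsupp.single (Sum.inl m) 1) (pol s v) ≠ 0 := by
    rwa [coeff_pol_some]
  have h1 : (pol s v).totalDegree = 1 := by
    apply le_antisymm (totalDegree_pol_le v)
    have h2 := le_totalDegree (p := pol s v) (s := Finsupp.single (Sum.inl m) 1)
      (mem_support_iff.2 h0)
    simpa using h2
  refine (irreducible_of_totalDegree_eq_one h1 fun x hx => ?_).prime
  rw [isUnit_iff_ne_zero]
  rintro rfl
  exact h0 (zero_dvd_iff.1 (hx _))

/-- Normalized forms. -/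
def Nrm (v : Option (Fin n) → k) : Prop :=
  ∃ m₀ : Fin n, v (some m₀) = 1 ∧ ∀ m, m < m₀ → v (some m) = 0

theorem Nrm.prime {v : Option (Fin n) → k} (h : Nrm v) : Prime (pol s v) := by
  obtain ⟨m, hm, -⟩ := h
  exact prime_pol (m := m) (by rw [hm]; exact one_ne_zero)

theorem nrm_eq {v v' : Option (Fin n) → k} (h : Nrm v) (h' : Nrm v')
    (ha : Associated (pol s v) (pol s v')) : v = v' := by
  obtain ⟨w, hw⟩ := ha
  obtain ⟨c, hc, hcw⟩ := (isUnit_iff_eq_C_of_isReduced).1 w.isUnit
  rw [hcw, mul_comm, ← pol_smul] at hw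
  have h1 := pol_inj hw
  obtain ⟨m, hm, hm2⟩ := h
  obtain ⟨m', hm', hm2'⟩ := h'
  have hc0 : c ≠ 0 := hc.ne_zero
  have h2 : ∀ i, c * v i = v' i := fun i => congrFun h1 i
  have h3 : m = m' := by
    rcases lt_trichotomy m m' with h4 | h4 | h4
    · have h5 := h2 (some m)
      rw [hm, mul_one, hm2' m h4] at h5
      exact absurd h5 hc0
    · exact h4
    · have h5 := h2 (some m')
      rw [hm2 m' h4, mul_zero, hm'] at h5
      exact absurd h5 zero_ne_one
  have h4 : c = 1 := by
    have h5 := h2 (some m)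
    rwa [hm, h3, hm', mul_one] at h5
  rw [← h1, h4, one_smul]

/-- Pairwise non-associated primes are multiplicatively independent. -/
theorem prm {P F κ : Type} [CommRing P] [IsDomain P] [Field F] [Fintype κ] (ev : P →+* F)
    (hev : Function.Injective ev) (p : κ → P) (hp : ∀ i, Prime (p i))
    (hpa : ∀ i j, Associated (p i) (p j) → i = j) (a : κ → ℤ) (c : P) (hc : IsUnit c)
    (h : chr (fun i => ev (p i)) a = ev c) : a = 0 := by
  classical
  have hne : ∀ i, ev (p i) ≠ 0 := fun i h0 => (hp i).ne_zero (hev (by rw [h0, map_zero]))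
  have h1 : ∏ i, p i ^ (a i).toNat = c * ∏ i, p i ^ (-a i).toNat := by
    apply hev
    rw [map_mul, map_prod, map_prod, ← h]
    unfold chr
    rw [← Finset.prod_mul_distrib]
    refine Finset.prod_congr rfl fun i _ => ?_
    rw [map_pow, map_pow, ← zpow_natCast, ← zpow_natCast, ← zpow_add₀ (hne i)]
    congr 1
    omega
  have key : ∀ (b b' : κ → ℕ) (d : P), IsUnit d → (∀ i, b i = 0 ∨ b' i = 0) →
      ∏ i, p i ^ b i = d * ∏ i, p i ^ b' i → ∀ i, b i = 0 := by
    intro b b' d hd hb hbb i
    by_contra hi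
    have h2 : p i ∣ d * ∏ i, p i ^ b' i := by
      rw [← hbb]
      exact (dvd_pow_self _ hi).trans (Finset.dvd_prod_of_mem _ (Finset.mem_univ i))
    rcases (hp i).dvd_or_dvd h2 with h3 | h3
    · exact (hp i).not_isUnit (isUnit_of_dvd_unit h3 hd)
    · obtain ⟨j, -, hj⟩ := (hp i).exists_mem_finset_dvd h3
      have hj0 : b' j ≠ 0 := by
        intro h0
        rw [h0, pow_zero] at hj
        exact (hp i).not_isUnit (isUnit_of_dvd_one hj)
      have h4 := (hp i).dvd_of_dvd_pow hj
      have h5 := hpa i j ((hp i).irreducible.associated_of_dvd (hp j).irreducible h4)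
      rw [← h5] at hj0
      rcases hb i with h6 | h6
      · exact hi h6
      · exact hj0 h6
  have h2 := key _ _ c hc (fun i => by omega) h1
  obtain ⟨c', hc'⟩ := hc
  have h3 : ∏ i, p i ^ (-a i).toNat = ((c'⁻¹ : Pˣ) : P) * ∏ i, p i ^ (a i).toNat := by
    rw [h1, ← mul_assoc, ← hc']
    simp
  have h4 := key _ _ _ (Units.isUnit _) (fun i => by omega) h3
  funext i
  have h5 := h2 i
  have h6 := h4 i
  show a i = 0
  omega

/-- **Uniqueness of the exponents.** -/
theorem unq {F ι₁ : Type} [Field F] [Algebra k F] [Fintype ι₁] {l : ι₁ → Option (Fin n) → k}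
    (hl : Function.Injective l) (hN : ∀ i, Nrm (l i)) {t : Fin n → F} {u : Fin s → F}
    (hind : AlgebraicIndependent k (Sum.elim t u)) (a : ι₁ ⊕ Fin s → ℤ) (c : k) (hc : c ≠ 0)
    (h : chr (yv l t u) a = algebraMap k F c) : a = 0 := by
  classical
  let ev : MvPolynomial (Fin n ⊕ Fin s) k →+* F := (aeval (Sum.elim t u) : _ →ₐ[k] F).toRingHom
  let p : ι₁ ⊕ Fin s → MvPolynomial (Fin n ⊕ Fin s) k :=
    Sum.elim (fun i => pol s (l i)) (fun j => X (Sum.inr j))
  have hevp : (fun i => ev (p i)) = yv l t u := by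
    funext i
    rcases i with i | j
    · exact ev_pol t u (l i)
    · show aeval (Sum.elim t u) (X (Sum.inr j)) = u j
      rw [aeval_X, Sum.elim_inr]
  have hpol : ∀ (i : ι₁) (j : Fin s), ¬ Associated (pol s (l i)) (X (Sum.inr j)) := by
    intro i j ha
    obtain ⟨m, hm, -⟩ := hN i
    obtain ⟨w, hw⟩ := ha
    obtain ⟨d, hd, hdw⟩ := (isUnit_iff_eq_C_of_isReduced).1 w.isUnit
    rw [hdw, mul_comm, ← pol_smul] at hw
    have h1 := congrArg (coeff (Finsupp.single (Sum.inl m) 1)) hw
    rw [coeff_pol_some, Pi.smul_apply, hm, smul_eq_mul, mul_one, coeff_X, if_neg (by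
      intro h
      rw [Finsupp.single_left_inj one_ne_zero] at h
      exact absurd h (by simp))] at h1
    exact hd.ne_zero h1
  refine prm ev hind p ?_ ?_ a (C c) (by rw [isUnit_iff_eq_C_of_isReduced]; exact
    ⟨c, isUnit_iff_ne_zero.2 hc, rfl⟩) ?_
  · rintro (i | j)
    · exact (hN i).prime
    · exact X_prime
  · rintro (i | j) (i' | j') ha
    · rw [hl (nrm_eq (hN i) (hN i') ha)]
    · exact absurd ha (hpol i j')
    · exact absurd ha.symm (hpol i' j)
    · congr 1
      by_contra hne
      obtain ⟨w, hw⟩ := ha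
      obtain ⟨d, hd, hdw⟩ := (isUnit_iff_eq_C_of_isReduced).1 w.isUnit
      have hw' : (X (Sum.inr j) : MvPolynomial (Fin n ⊕ Fin s) k) * (w : MvPolynomial _ k) =
        X (Sum.inr j') := hw
      rw [hdw, mul_comm] at hw'
      have h1 := congrArg (coeff (Finsupp.single (Sum.inr j) 1)) hw'
      rw [coeff_C_mul, coeff_X, coeff_X, if_pos rfl, mul_one, if_neg (by
        intro h
        rw [Finsupp.single_left_inj one_ne_zero] at h
        exact hne (Sum.inr_injective h).symm)] at h1
      exact hd.ne_zero h1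
  · rw [hevp, h]
    show _ = aeval (Sum.elim t u) (C c)
    rw [algHom_C]

end unq

end Pool.Agent.H865.TT
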