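import Pool.Agent.H865.TT.Chr

/-!
# Arrangements of linear forms: the choice of the basis at a vertex
-/

set_option autoImplicit false

namespace Pool.Agent.H865.TT

open MvPolynomial Module Pool.Agent.K3h75.TO Pool.Agent.H918R2.Quad

/-- Global data: linear forms `w i` in `n` variables (with constant term), the lattice `Λ` with the
elements `ω i` (for the forms), `υ j` (for the other variables) and `ε q` (for the primes). -/
structure Arr (k : Type) [Field k] (n s : ℕ) (ι 𝔖 Λ : Type) [AddCommGroup Λ] where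
  w : ι → Option (Fin n) → k
  i₀ : ι
  w0 : w i₀ = Pi.single none 1
  ω : ι → Λ
  ω0 : ω i₀ = 0
  υ : Fin s → Λ
  ε : 𝔖 → Λ
  D : (Option (Fin n) → ι) → 𝔖 → ℤ
  gen : AddSubgroup.closure (Set.range ω ∪ Set.range υ ∪ Set.range ε) = ⊤
  φ1 : ∀ f : ι → ℤ, f i₀ = 0 → ∃ φ : Λ →+ ℤ, (∀ i, φ (ω i) = f i) ∧ ∀ q, φ (ε q) = 0
  φ2 : ∀ g : 𝔖 → ℤ, ∃ φ : Λ →+ ℤ, ∀ q, φ (ε q) = g q
  full : ∃ β : Option (Fin n) → ι, (Matrix.of fun a m => w (β a) m).det ≠ 0

/-- the value of a linear form -/
noncomputable def val {k F : Type} [Field k] [Field F] [Algebra k F] {n : ℕ} (t : Fin n → F)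
    (v : Option (Fin n) → k) : F :=
  algebraMap k F (v none) + ∑ m, algebraMap k F (v (some m)) * t m

section basis

variable {k : Type} [Field k] {n s : ℕ} {ι 𝔖 Λ : Type} [AddCommGroup Λ]
  (A : Arr k n s ι 𝔖 Λ)

/-- the matrix of a family of forms -/
def Arr.mat (β : Option (Fin n) → ι) : Matrix (Option (Fin n)) (Option (Fin n)) k :=
  Matrix.of fun a m => A.w (β a) m

open Classical in
/-- the exponent of the coefficient of the form `β a` in the form `i`, minus the one of `i` -/
noncomputable def Arr.dlt [Fintype 𝔖] (β : Option (Fin n) → ι) (a : Option (Fin n)) (i : ι) : Λ :=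
  A.ω (β a) - A.ω i + ∑ q, (A.D (Function.update β a i) q - A.D β q) • A.ε q

/-- compatibility of a basis of the lattice -/
structure Arr.Comp [Fintype 𝔖] {N : ℕ} (b : Basis (Fin N) ℤ Λ) : Prop where
  ep : ∀ q, (∀ l, 0 ≤ b.repr (A.ε q) l) ∨ (∀ l, b.repr (A.ε q) l ≤ 0)
  dl : ∀ β a i, (∀ l, 0 ≤ b.repr (A.dlt β a i) l) ∨ (∀ l, b.repr (A.dlt β a i) l ≤ 0)

open Classical in
theorem Arr.mat_update (β : Option (Fin n) → ι) (a : Option (Fin n)) (i : ι) :
    A.mat (Function.update β a i) = (A.mat β).updateRow a (A.w i) := by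
  ext a' m
  by_cases h : a' = a
  · subst h
    rw [Matrix.updateRow_self]
    show A.w (Function.update β a' i a') m = _
    rw [Function.update_self]
  · rw [Matrix.updateRow_ne h]
    show A.w (Function.update β a i a') m = _
    rw [Function.update_of_ne h]
    rfl

open Classical in
/-- the coefficients of a vector with respect to a basis -/
noncomputable def Arr.cf (β : Option (Fin n) → ι) :
    (Option (Fin n) → k) →ₗ[k] (Option (Fin n) → k) :=
  (A.mat β).det⁻¹ • (A.mat β).transpose.cramer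

open Classical in
theorem Arr.cf_apply (β : Option (Fin n) → ι) (a : Option (Fin n)) (i : ι) :
    A.cf β (A.w i) a = (A.mat (Function.update β a i)).det / (A.mat β).det := by
  rw [A.mat_update, ← Matrix.cramer_transpose_apply, div_eq_inv_mul]
  rfl

theorem Arr.cf_sum {β : Option (Fin n) → ι} (hβ : (A.mat β).det ≠ 0) (v : Option (Fin n) → k)
    (m : Option (Fin n)) : ∑ a, A.cf β v a * A.w (β a) m = v m := by
  classical
  have h1 := Matrix.mulVec_cramer (A.mat β).transpose v
  have h2 := congrFun h1 m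
  rw [Matrix.det_transpose] at h2
  have h3 : ∑ a, A.cf β v a * A.w (β a) m =
      (A.mat β).det⁻¹ * ((A.mat β).transpose.mulVec ((A.mat β).transpose.cramer v) m) := by
    rw [Matrix.mulVec, dotProduct, Finset.mul_sum]
    refine Finset.sum_congr rfl fun a _ => ?_
    show ((A.mat β).det⁻¹ * (A.mat β).transpose.cramer v a) * A.w (β a) m =
      (A.mat β).det⁻¹ * (A.w (β a) m * (A.mat β).transpose.cramer v a)
    ring
  rw [h3, h2, Pi.smul_apply, smul_eq_mul, inv_mul_cancel_left₀ hβ]

theorem Arr.cf_self {β : Option (Fin n) → ι} (hβ : (A.mat β).det ≠ 0) (a : Option (Fin n)) :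
    A.cf β (A.w (β a)) = Pi.single a 1 := by
  classical
  have h1 := Matrix.cramer_transpose_row_self (A.mat β) a
  funext a'
  show (A.mat β).det⁻¹ * (A.mat β).transpose.cramer (A.mat β a) a' = _
  rw [h1]
  by_cases h : a' = a
  · subst h
    rw [Pi.single_eq_same, Pi.single_eq_same, inv_mul_cancel₀ hβ]
  · rw [Pi.single_eq_of_ne h, Pi.single_eq_of_ne h, mul_zero]

/-- The basis of minimal weight: all exponents are nonnegative. -/
theorem Arr.exists_basis [Finite ι] [Fintype 𝔖] {N : ℕ} (b : Basis (Fin N) ℤ Λ)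
    (hc : A.Comp b) : ∃ β : Option (Fin n) → ι, (A.mat β).det ≠ 0 ∧
      ∀ a i, A.cf β (A.w i) a ≠ 0 → ∀ l, 0 ≤ b.repr (A.dlt β a i) l := by
  classical
  have := Fintype.ofFinite ι
  let Ψ : (Option (Fin n) → ι) → Λ := fun β => ∑ q, A.D β q • A.ε q - ∑ a, A.ω (β a)
  let sc : Λ →+ ℤ :=
    { toFun := fun x => ∑ l, b.repr x l
      map_zero' := by simp
      map_add' := by intro x y; simp [Finset.sum_add_distrib] }
  have hsc : ∀ x, sc x = ∑ l, b.repr x l := fun x => rfl
  let T : Finset (Option (Fin n) → ι) := Finset.univ.filter fun β => (A.mat β).det ≠ 0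
  have hT : T.Nonempty := by
    obtain ⟨β, hβ⟩ := A.full
    exact ⟨β, Finset.mem_filter.2 ⟨Finset.mem_univ _, hβ⟩⟩
  obtain ⟨β, hβT, hmin⟩ := T.exists_min_image (fun β => sc (Ψ β)) hT
  have hβ : (A.mat β).det ≠ 0 := (Finset.mem_filter.1 hβT).2
  refine ⟨β, hβ, fun a i hai => ?_⟩
  have h1 : (A.mat (Function.update β a i)).det ≠ 0 := by
    intro h
    apply hai
    rw [A.cf_apply, h, zero_div]
  have h2 := hmin _ (Finset.mem_filter.2 ⟨Finset.mem_univ _, h1⟩)
  have h3 : Ψ (Function.update β a i) = Ψ β + A.dlt β a i := by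
    have h4 : ∑ a', A.ω (Function.update β a i a') = ∑ a', A.ω (β a') - A.ω (β a) + A.ω i := by
      rw [← Finset.sum_erase_add Finset.univ (fun a' => A.ω (Function.update β a i a'))
        (Finset.mem_univ a),
        ← Finset.sum_erase_add Finset.univ (fun a' => A.ω (β a')) (Finset.mem_univ a),
        Function.update_self]
      have h5 : ∑ x ∈ Finset.univ.erase a, A.ω (Function.update β a i x) =
          ∑ x ∈ Finset.univ.erase a, A.ω (β x) := by
        refine Finset.sum_congr rfl fun x hx => ?_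
        rw [Function.update_of_ne (Finset.ne_of_mem_erase hx)]
      rw [h5]
      abel
    show ∑ q, A.D (Function.update β a i) q • A.ε q - ∑ a', A.ω (Function.update β a i a') =
      (∑ q, A.D β q • A.ε q - ∑ a', A.ω (β a')) + A.dlt β a i
    rw [h4]
    unfold Arr.dlt
    simp only [sub_smul, Finset.sum_sub_distrib]
    abel
  rw [h3, map_add] at h2
  have h5 : 0 ≤ sc (A.dlt β a i) := by linarith
  rcases hc.dl β a i with h6 | h6
  · exact h6
  · intro l
    rw [hsc] at h5
    have h7 : ∑ l, b.repr (A.dlt β a i) l = 0 :=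
      le_antisymm (Finset.sum_nonpos fun l _ => h6 l) h5
    have h8 := (Finset.sum_eq_zero_iff_of_nonpos fun l _ => h6 l).1 h7 l (Finset.mem_univ l)
    exact h8.ge

end basis

section value

variable {k F : Type} [Field k] [Field F] [Algebra k F] {n : ℕ} (t : Fin n → F)

theorem val_comb {κ : Type} (s : Finset κ) (c : κ → k) (v : κ → Option (Fin n) → k)
    (x : Option (Fin n) → k) (h : ∀ m, ∑ a ∈ s, c a * v a m = x m) :
    ∑ a ∈ s, algebraMap k F (c a) * val t (v a) = val t x := by
  unfold val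
  rw [← h none]
  simp only [← h, mul_add, Finset.sum_add_distrib, map_sum, map_mul, Finset.mul_sum,
    Finset.sum_mul]
  congr 1
  rw [Finset.sum_comm]
  refine Finset.sum_congr rfl fun m _ => Finset.sum_congr rfl fun a _ => ?_
  ring

end value

end Pool.Agent.H865.TT
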